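import Pool.Agent.Lib.MP_696deb_nt.CR.Ch
import Pool.Agent.Lib.MP_696deb_nt.CK.Lg

/-! Unramified cocycles satisfy the local condition. -/

set_option autoImplicit false
set_option linter.unusedSectionVars false

open scoped Classical
open Finset Module

namespace Pool.Agent.Lib.MP_696deb_nt.CU.CV.CR

variable [δ : Qd] {n e l q : ℕ} {c : Gam → A}

theorem lg_lang (hq : q.Prime) (h3 : q ≠ 3) (n e : ℕ) {t : A} (ht : th ^ l • t = 0) :
    ∃ (N : ℕ) (P : A), th ^ (l + N) • P = 0 ∧ cob (act n e) P (fq q) = t := by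
  obtain ⟨N, x, h1, h2⟩ := CK.lg_move hq h3 n e
  obtain ⟨Q, rfl⟩ := exists_root l x
  have h4 : ∀ (z : O) (y : A), CU.act n e (fq q * fq q) (z • y) - z • y =
      z • (CU.act n e (fq q * fq q) y - y) := fun z y => by
    rw [CU.act_smul, if_pos ((chi_mul _ _).trans (chi_sq _)), smul_sub]
  have h5 : th ^ (l + N) • Q = 0 := by rwa [add_comm, pow_add, mul_smul]
  obtain ⟨z, hz⟩ := CK.lg_le N (h4 _ Q ▸ h2) (by rw [← h4, h5, map_zero, sub_zero])
    (y := t) (by rw [pow_succ', mul_smul, ht, smul_zero])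
  have h6 : th ^ (l + N) • z • Q = 0 := by rw [smul_comm, h5, smul_zero]
  have h7 : act n e (fq q * fq q) (z • Q) = CU.act n e (fq q * fq q) (z • Q) := by
    rw [act_def, sg_mul, sg_sq, one_smul]
  refine ⟨N, act n e (fq q) (z • Q) + z • Q, ?_, ?_⟩
  · rw [smul_add, ← act_th_pow, h6, map_zero, add_zero]
  · rw [hz, ← h4, H3.cob, map_add, ← h7, act_mul]
    abel

theorem lg_det (hq : q.Prime) (h3 : q ≠ 3) (hu : Un q) (h : Coc (Gq q) (act n e) c)
    (hl : ∀ g ∈ Gq q, th ^ l • c g = 0) (hs : c (sq q) = 0) (hf : c (fq q) = 0) {g : Gam}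
    (hg : g ∈ Gq q) : c g = 0 :=
  e2a_ind (S := fun s => s = sq q ∨ s = fq q)
    (fun _ _ k k' _ => kc_det k hq h3 hu (k' _ (sq_mem hq h3) (.inl rfl))
      (k' _ (fq_mem hq) (.inr rfl)))
    h hl (fun _ k => k.elim (· ▸ hs) (· ▸ hf)) hg

theorem loc_of_unr (hq : q.Prime) (h3 : q ≠ 3) (hu : Un q) (hn : kk n (sq q) = 0)
    (h : Coc (Gq q) (act n e) c) (hl : ∀ g ∈ Gq q, th ^ l • c g = 0) (hs : c (sq q) = 0) :
    Loc n e q c := by
  obtain ⟨N, P, h1, h2⟩ := lg_lang hq h3 n e (hl _ (fq_mem hq))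
  have h4 : sg (sq q) = 1 := if_pos (de_eq_one.1 (hu _ (sq_ine hq h3)))
  refine ⟨P, fun g hg => add_neg_eq_zero.1 (lg_det (l := l + N) hq h3 hu
    (h.add (coc_cob n e _ P).neg) (fun g hg => ?_) ?_ ?_ hg)⟩
  · rw [Pi.add_apply, Pi.neg_apply, smul_add, smul_neg, e5_kil h1, add_comm l, pow_add, mul_smul,
      hl g hg, smul_zero, neg_zero, add_zero]
  · rw [Pi.add_apply, Pi.neg_apply, hs, H3.cob, act_def, h4, one_smul,
      CU.act_ine hq h3 (sq_ine hq h3) h1, hn, un_zero, one_smul, sub_self, neg_zero, add_zero]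
  · rw [Pi.add_apply, Pi.neg_apply, h2, add_neg_cancel]

theorem un_of_not_dvd (hq : q.Prime) (h : ¬ q ∣ MM) : Un q := fun _ hg => de_ine hq h hg

theorem loc_all (h : c ∈ Zs n e l) (hq : q.Prime) : Loc n e q c := by
  by_cases k : q ∣ MM * n
  · exact h.loc q hq k
  · have k1 : ¬ q ∣ MM := fun d => k (d.mul_right n)
    exact loc_of_unr hq (ne_three k1) (un_of_not_dvd hq k1)
      (kk_ine hq (ne_three k1) (fun d => k (d.mul_left _)) (sq_ine hq (ne_three k1)))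
      (h.coc.lo_mono le_top) (fun g _ => h.kil g) (h.unr q hq k)

end Pool.Agent.Lib.MP_696deb_nt.CU.CV.CR
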