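import Pool.Agent.Lib.MP_696deb_nt.CR.W
import Pool.Agent.Lib.MP_696deb_nt.CQ.E
import Pool.Agent.Lib.MP_696deb_nt.CL.W

/-! The root number depends on the square class only. -/

set_option autoImplicit false

namespace Pool.Agent.Lib.MP_696deb_nt.CL

theorem Rel.d3_eq {D d : ℤ} (h : Rel D d) : ∃ c : ℤ, c ≠ 0 ∧ ¬ 3 ∣ c ∧ CQ.d3 D = d * c ^ 2 := by
  obtain ⟨c, c0, hc⟩ := h.eq
  have d0 : d ≠ 0 := h.sf.ne_zero
  have hD : D ≠ 0 := by rcases hc with rfl | rfl <;> simp [d0, c0]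
  obtain ⟨e1, e2⟩ := CQ.int_part Nat.prime_three c0
  obtain ⟨e3, e4⟩ := CQ.d3_spec hD
  rw [Nat.cast_ofNat] at e1 e2
  generalize c / 3 ^ c.natAbs.factorization 3 = s at e1 e2
  generalize c.natAbs.factorization 3 = i at e1
  generalize D.natAbs.factorization 3 = j at e3
  have e5 : ¬ 3 ∣ d * s ^ 2 := fun k => (Int.prime_three.dvd_or_dvd k).elim h.three
    fun k => e2 (Int.prime_three.dvd_of_dvd_pow k)
  have key : ∀ (j l : ℕ) (x y : ℤ), ¬ 3 ∣ x → ¬ 3 ∣ y → (-3) ^ j * x = (-3) ^ l * y → x = y := by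
    intro j l x y hx hy e
    rcases lt_trichotomy j l with k | rfl | k
    · obtain ⟨t, rfl⟩ := Nat.exists_eq_add_of_lt k
      rw [add_assoc, pow_add, mul_assoc] at e
      exact absurd ⟨-(-3) ^ t * y, by rw [mul_left_cancel₀ (by positivity) e]; ring⟩ hx
    · exact mul_left_cancel₀ (by positivity) e
    · obtain ⟨t, rfl⟩ := Nat.exists_eq_add_of_lt k
      rw [add_assoc, pow_add, mul_assoc] at e
      exact absurd ⟨-(-3) ^ t * x, by rw [← mul_left_cancel₀ (by positivity) e]; ring⟩ hy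
  have e6 : ((-3 : ℤ) ^ i) ^ 2 = (3 ^ i) ^ 2 := by
    rw [← pow_mul, ← pow_mul, mul_comm, pow_mul, pow_mul]
    norm_num
  refine ⟨s, fun k => e2 (k ▸ dvd_zero 3), e2, ?_⟩
  rcases hc with hc | hc
  · refine key j (i * 2) _ _ e4 e5 ?_
    rw [← e3, hc, pow_mul, e6, e1]
    ring
  · refine key j (i * 2 + 1) _ _ e4 e5 ?_
    rw [← e3, hc, pow_succ (-3 : ℤ), pow_mul, e6, e1]
    ring

theorem Rel.wq {D d : ℤ} (h : Rel D d) (n : ℕ) : CQ.Wq D n ↔ Wq d n := by
  obtain ⟨c, c0, c3, hc⟩ := h.d3_eq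
  have d0 : d ≠ 0 := h.sf.ne_zero
  have hD : D ≠ 0 := by
    obtain ⟨c, c0, hc⟩ := h.eq
    rcases hc with rfl | rfl <;> simp [d0, c0]
  have e1 : 0 < CQ.d3 D ↔ 0 < d := by
    rw [hc]
    exact mul_pos_iff_of_pos_right (by positivity)
  have e2 : CQ.d3 D % 3 = d % 3 := by
    have : c ^ 2 % 3 = 1 := by
      rcases (by omega : c % 3 = 1 ∨ c % 3 = 2) with k | k <;> rw [pow_two, Int.mul_emod, k] <;> rfl
    rw [hc, Int.mul_emod, this, mul_one, Int.emod_emod_of_dvd _ dvd_rfl]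
  have e3 : ∀ q : ℕ, q ≠ 3 → D.natAbs.factorization q =
      d.natAbs.factorization q + 2 * c.natAbs.factorization q := fun q k => by
    rw [← CQ.d3_fac hD k, hc, Int.natAbs_mul, Int.natAbs_pow, Nat.factorization_mul
      (Int.natAbs_ne_zero.2 d0) (pow_ne_zero 2 (Int.natAbs_ne_zero.2 c0)), Nat.factorization_pow]
    rfl
  have e4 : ∀ q : ℕ, q.Prime → (d.natAbs.factorization q % 2 = 0 ↔ ¬ (q : ℤ) ∣ d) := fun q hq => by
    have := (Int.squarefree_natAbs.2 h.sf).natFactorization_le_one q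
    rw [Int.natCast_dvd, hq.dvd_iff_one_le_factorization (Int.natAbs_ne_zero.2 d0)]
    omega
  have e5 : ∀ q : ℕ, q.Prime → q % 3 = 2 → (CQ.Unr D q ↔ Ur d q) := fun q hq k => by
    rw [CQ.Unr, Ur, e3 q (by omega), Nat.add_mul_mod_self_left, e4 q hq]
    split_ifs with k2
    · subst k2
      obtain ⟨a1, a2⟩ := CQ.int_part Nat.prime_two c0
      have a3 := e4 2 Nat.prime_two
      have a4 := (Int.squarefree_natAbs.2 h.sf).natFactorization_le_one 2
      rw [e3 2 (by decide), hc]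
      rw [Nat.cast_ofNat] at a1 a2 a3 ⊢
      generalize c / 2 ^ c.natAbs.factorization 2 = s at a1 a2
      generalize c.natAbs.factorization 2 = i at a1
      have a5 : s ^ 2 % 4 = 1 := Int.sq_mod_four_eq_one_of_odd (Int.odd_iff.2 (by omega))
      by_cases a6 : 2 ∣ d
      · exact iff_of_false (fun k => k.1 a6) (by omega)
      · rw [show d.natAbs.factorization 2 = 0 by omega, zero_add, a1,
          show d * (2 ^ i * s) ^ 2 = 2 ^ (2 * i) * (d * s ^ 2) by ring,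
          Int.mul_ediv_cancel_left _ (by positivity), Int.mul_emod, a5, mul_one,
          Int.emod_emod_of_dvd _ dvd_rfl]
        exact ⟨fun k => k.2 rfl, fun k => ⟨a6, fun _ => k⟩⟩
    · exact ⟨fun k => k.1, fun k => ⟨k, fun e => absurd e k2⟩⟩
  rw [CQ.Wq, Wq, e1, CQ.W3, W3, e2, Finset.filter_congr fun q hq => and_congr_right fun k =>
    and_congr_right fun _ => e5 q (Nat.prime_of_mem_primeFactors hq) k]

theorem wq_one (n : ℕ) : Wq 1 n ↔ Wp n := by
  have e : ∀ q ∈ n.primeFactors, (q % 3 = 2 ∧ n.factorization q % 3 ≠ 0 ∧ Ur 1 q ↔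
      q % 3 = 2 ∧ n.factorization q % 3 ≠ 0) := fun q hq =>
    and_congr_right fun _ => and_iff_left (by
      rw [Ur]
      split_ifs
      · rfl
      · exact fun k => (Nat.prime_of_mem_primeFactors hq).one_lt.ne'
          (Nat.dvd_one.1 (Int.natCast_dvd_natCast.1 k)))
  rw [Wq, Wp, Finset.filter_congr e, W3, if_pos (by decide), iff_true_intro (one_pos (α := ℤ)),
    true_iff]

end Pool.Agent.Lib.MP_696deb_nt.CL
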