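import Pool.Agent.Lib.MP_696deb_nt.CR.Par
import Pool.Agent.Lib.MP_696deb_nt.CR.Lg
import Pool.Agent.Lib.MP_696deb_nt.CR.Wq
import Pool.Agent.Lib.MP_696deb_nt.CX.Br
import Pool.Agent.Lib.MP_696deb_nt.CT.Top

/-! The parity theorem for all twists. -/

set_option autoImplicit false

open scoped Classical

namespace Pool.Agent.Lib.MP_696deb_nt.CX

open CU
open CU.CV (Qd)

section

variable {n s : ℕ} {δ r : Qbar}

theorem lk_le (n e k : ℕ) : Zs n e (2 * k) ≤ ZA (act n e) k := fun _ h =>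
  ⟨h.coc, fun g => (three_pow_iff k _).2 (h.kil g), fun _ hq => CK.loc_all h hq⟩

theorem lk_one (hn : n ≠ 0) : GroA (act n 1) s ↔ Gro n s :=
  ⟨fun ⟨C, hC⟩ => ⟨C, fun k => le_antisymm (za_le n 1 k) (lk_le n 1 k) ▸ (hC k).2⟩, gro_one hn⟩

theorem lk_zero (hn : n ≠ 0) : GroA (act n 0) s ↔ Gro n s := by
  refine ⟨fun ⟨C, hC⟩ => ⟨Nat.card (Zs n 1 1) * C, fun k => ?_⟩, gro_zero hn⟩
  have := (finite_Zs hn 1 (2 * k + 1)).to_subtype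
  have h := (hC k).2
  rw [le_antisymm (za_le n 0 k) (lk_le n 0 k), ← zs_add_two] at h
  rw [mul_assoc]
  exact (AddSubgroup.card_le_of_le (zs_mono (Nat.le_succ _))).trans
    ((card_Zs_th hn 1 (2 * k)).trans (Nat.mul_le_mul_left _ h))

theorem lk_cv [δ : Qd] (hn : n ≠ 0) : GroA (ac δ.r0 n) s ↔ CV.Gro n s := by
  refine ⟨fun ⟨C, hC⟩ => ⟨C, fun k => ?_⟩, gro_cv (CV.finite_Zs hn 1)⟩
  rw [← le_antisymm (za_cv n k) fun _ h =>
    ⟨h.coc, fun g => (three_pow_iff k _).2 (h.kil g), fun _ hq => CV.CR.loc_all h hq⟩]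
  exact (hC k).2

theorem lk_sg {c : ℤ} (h0 : c ≠ 0) (h : δ ^ 2 = (c * r) ^ 2) (g : Gam) : sg δ g = sg r g := by
  rcases sq_eq_sq_iff_eq_or_eq_neg.1 h with rfl | rfl <;> simp [sg, h0]

theorem lk_ac (h : ∀ g, sg δ g = sg r g) (n : ℕ) : ac δ n = ac r n :=
  funext fun g => by rw [ac, ac, h]

end

theorem exists_groA {D : ℤ} {δ : Qbar} {n : ℕ} (hD : D ≠ 0) (hδ : δ ^ 2 = D) (hn : n ≠ 0) :
    ∃ s : ℕ, (Even s ↔ CQ.Wq D n) ∧ ∀ e, GroA (ac δ n) e ↔ s ≤ e := by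
  obtain ⟨d, R⟩ := CL.exists_rel hD
  obtain ⟨c, c0, hc⟩ := R.eq
  rw [R.wq]
  by_cases h1 : d = 1
  · subst h1
    obtain ⟨s, s1, s2⟩ := CT.exists_gro hn
    refine ⟨s, s1.trans (CL.wq_one n).symm, fun e => Iff.trans ?_ (s2 e)⟩
    rcases hc with k | k
    · rw [ac_one (fix_of_sq hδ ⟨c, by rw [k]; ring⟩), lk_one hn]
    · rw [ac_zero (sg_of_sq (fun e => hD (by simpa [e] using hδ.symm)) hδ
        ⟨3 * c, by rw [k]; ring⟩), lk_zero hn]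
  obtain ⟨Q, rfl⟩ := exists_Qd (D := d) (fun ⟨x, e⟩ => h1 (by
    rw [e, Int.isUnit_mul_self (R.sf x e.symm.dvd)])) fun ⟨x, e⟩ => R.three (by
      obtain ⟨y, rfl⟩ := (Int.prime_three.dvd_or_dvd (⟨-d, by rw [← e]; ring⟩ : 3 ∣ x * x)).elim
        id id
      exact ⟨-(y * y), by linarith⟩)
  obtain ⟨s, s1, s2⟩ := CV.CR.par_nf (δ := Q) ⟨Q.h0, R.sf, R.three, fun _ => rfl⟩ hn
  refine ⟨s, s1, fun e => Iff.trans ?_ (s2 e)⟩
  rcases hc with k | k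
  · rw [lk_ac (lk_sg c0 (by rw [hδ, k, mul_pow, Q.h0]; push_cast; ring)), lk_cv hn]
  · have r0 : Q.r0 ≠ 0 := fun e => R.sf.ne_zero (by simpa [e] using Q.h0.symm)
    rw [lk_ac (r := Q.sw.r0) fun g => (lk_sg c0 (by
      rw [hδ, k, mul_pow, d1_sq Q.h0]; push_cast; ring) g).trans
        ((sg_s3 r0 Q.h0 g).trans (CV.sg_sw g).symm), lk_cv (δ := Q.sw) hn]
    exact ⟨CV.gro_sw hn, CV.gro_sw (δ := Q.sw) hn⟩

end Pool.Agent.Lib.MP_696deb_nt.CX
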