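import Pool.Agent.Lib.MP_696deb_nt.CR.D0
import Pool.Agent.Lib.MP_696deb_nt.CV.E6
import Pool.Agent.Lib.MP_696deb_nt.CV.E7

/-! Lifts of Selmer cocycles. -/

set_option autoImplicit false
set_option linter.unusedSectionVars false

open scoped Classical
open Finset Module

namespace Pool.Agent.Lib.MP_696deb_nt.CU.CV.CR

variable [δ : Qd]

variable {n l q : ℕ} {j : Bool} {c c' x : Gam → A} {u u' : ℕ → Gam → F3} {b b' v w : Gam → F3}

theorem lq_add_left (hv : Kc (sd (!j)) (Gq q) v) (hw : Kc (sd (!j)) (Gq q) w)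
    (hb : Kc (sd j) (Gq q) b) : lq j q (v + w) b = lq j q v b + lq j q w b := by
  cases j
  · exact lp_add_left hv hw hb
  · exact lp_add_right hb hv hw

theorem lq_add_right (hv : Kc (sd (!j)) (Gq q) v) (hb : Kc (sd j) (Gq q) b)
    (hb' : Kc (sd j) (Gq q) b') : lq j q v (b + b') = lq j q v b + lq j q v b' := by
  cases j
  · exact lp_add_right hv hb hb'
  · exact lp_add_left hb hb' hv

theorem lq_orth (hn : n ≠ 0) (hq : q.Prime) (hv : v ∈ Ll n (!j) q) (hb : b ∈ Ll n j q) :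
    lq j q v b = 0 := by
  cases j
  · exact f3 hn hq (mem_Ll.1 hv).2 (mem_Ll.1 hb).2
  · exact f3 hn hq (mem_Ll.1 hb).2 (mem_Ll.1 hv).2

theorem a2_mem (h : q ∈ (MM * n).primeFactors) : q.Prime ∧ q ∣ MM * n :=
  ⟨Nat.prime_of_mem_primeFactors h, Nat.dvd_of_mem_primeFactors h⟩

theorem pr_add_left (hn : n ≠ 0) (h : ∀ q : ℕ, q.Prime → q ∣ MM * n → Kc (sd (!j)) (Gq q) (u q))
    (h' : ∀ q : ℕ, q.Prime → q ∣ MM * n → Kc (sd (!j)) (Gq q) (u' q)) (hb : Kc (sd j) ⊤ b) :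
    pr n j (u + u') b = pr n j u b + pr n j u' b := by
  rw [pr, pr, pr, ← Finset.sum_add_distrib]
  exact Finset.sum_congr rfl fun q hq => lq_add_left (h q (a2_mem hq).1 (a2_mem hq).2)
    (h' q (a2_mem hq).1 (a2_mem hq).2) (hb.mono le_top)

theorem pr_add_right (hn : n ≠ 0) (h : ∀ q : ℕ, q.Prime → q ∣ MM * n → Kc (sd (!j)) (Gq q) (u q))
    (hb : Kc (sd j) ⊤ b) (hb' : Kc (sd j) ⊤ b') :
    pr n j u (b + b') = pr n j u b + pr n j u b' := by
  rw [pr, pr, pr, ← Finset.sum_add_distrib]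
  exact Finset.sum_congr rfl fun q hq => lq_add_right (h q (a2_mem hq).1 (a2_mem hq).2)
    (hb.mono le_top) (hb'.mono le_top)

/-- Global cocycles that are unramified outside of `M n` are orthogonal. -/
theorem pr_glob (hn : n ≠ 0) (hv : Kc (sd (!j)) ⊤ v)
    (hv' : ∀ q : ℕ, q.Prime → ¬ q ∣ MM * n → v (sq q) = 0) (hb : Kc (sd j) ⊤ b)
    (hb' : ∀ q : ℕ, q.Prime → ¬ q ∣ MM * n → b (sq q) = 0) : pr n j (fun _ => v) b = 0 := by
  have h3 : ∀ q : ℕ, q.Prime → q ∣ MM → q ∈ (MM * n).primeFactors := fun q hq d =>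
    (z1_mem hn hq).2 (d.mul_right n)
  have hS : ∀ q ∈ (MM * n).primeFactors, q.Prime := fun q hq => (a2_mem hq).1
  cases j
  · exact recip_lp hv hb _ hS h3 fun q hq m =>
      ⟨hv' q hq (mt (z1_mem hn hq).2 m), hb' q hq (mt (z1_mem hn hq).2 m)⟩
  · exact recip_lp hb hv _ hS h3 fun q hq m =>
      ⟨hb' q hq (mt (z1_mem hn hq).2 m), hv' q hq (mt (z1_mem hn hq).2 m)⟩

theorem Sel.unr (h : b ∈ Sel n j) (hq : q.Prime) (k : ¬ q ∣ MM * n) : b (sq q) = 0 :=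
  kT_inj (((mem_Sel.1 h).unr q hq k).trans (map_zero kT).symm)

theorem Sel.loc (h : b ∈ Sel n j) (hq : q.Prime) (k : q ∣ MM * n) : b ∈ Ll n j q :=
  mem_Ll.2 ⟨(Sel.kc h).mono le_top, (mem_Sel.1 h).loc q hq k⟩

theorem mem_Sel_of (h : Kc (sd j) ⊤ b) (h1 : ∀ q : ℕ, q.Prime → ¬ q ∣ MM * n → b (sq q) = 0)
    (h2 : ∀ q : ℕ, q.Prime → q ∣ MM * n → b ∈ Ll n j q) : b ∈ Sel n j :=
  mem_Sel.2 (mem_Zs.2 ⟨coc_kC.2 h, fun g => by rw [pow_one, kC, th_kT],
    fun q hq k => (mem_Ll.1 (h2 q hq k)).2, fun q hq k => by rw [kC, h1 q hq k, map_zero]⟩)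

theorem finite_Sel (hn : n ≠ 0) (j : Bool) : Finite (Sel n j) :=
  (Set.Finite.of_injOn (s := (Sel n j : Set (Gam → F3))) (f := kC) (fun _ h => mem_Sel.1 h)
    kC_inj.injOn (finite_Zs hn (sd j) 1)).to_subtype

theorem a2_loc_sub {e : ℕ} (h : Loc n e q c) (h' : Loc n e q c') : Loc n e q (c - c') := by
  rw [sub_eq_add_neg]
  exact h.add h'.neg

theorem a2_coc_sub {D : Subgroup Gam} {a : Gam → A →+ A} (h : Coc D a c) (h' : Coc D a c') :
    Coc D a (c - c') := by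
  rw [sub_eq_add_neg]
  exact h.add h'.neg

theorem a2_coc_mono {D : Subgroup Gam} {a : Gam → A →+ A} (h : Coc ⊤ a c) : Coc D a c :=
  ⟨h.1.mono le_top, fun g _ k _ => h.2 g trivial k trivial⟩

theorem Lf.add (h : Lf n j c u) (h' : Lf n j c' u') : Lf n j (c + c') (u + u') :=
  ⟨h.coc.add h'.coc, fun q hq k => by rw [Pi.add_apply, h.unr q hq k, h'.unr q hq k, add_zero],
    fun q hq k => (h.kc q hq k).add (h'.kc q hq k), fun q hq k => by
      rw [Pi.add_apply u, kC_add, ← sub_add_sub_comm]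
      exact (h.loc q hq k).add (h'.loc q hq k)⟩

theorem Lf.sub (h : Lf n j c u) (h' : Lf n j c' u') : Lf n j (c - c') (u - u') :=
  ⟨a2_coc_sub h.coc h'.coc,
    fun q hq k => by rw [Pi.sub_apply, h.unr q hq k, h'.unr q hq k, sub_zero],
    fun q hq k => (h.kc q hq k).sub (h'.kc q hq k), fun q hq k => by
      rw [Pi.sub_apply u, kC_sub, sub_sub_sub_comm]
      exact a2_loc_sub (h.loc q hq k) (h'.loc q hq k)⟩

theorem lf_of_mem (h : c ∈ Zs n (sd j) l) : Lf n j c 0 :=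
  ⟨h.coc, h.unr, fun q _ _ => Kc.zero _ _, fun q hq k => by
    rw [Pi.zero_apply, kC_zero, sub_zero]
    exact h.loc q hq k⟩

theorem a2_cob_th (n : ℕ) (j : Bool) (P : A) (g : Gam) :
    cob (act n (sd j)) (th • P) g = th • cob (act n (sd (!j))) P g := by
  rw [cob_th', act_sd]

theorem a2_def (hc : Coc ⊤ (act n (sd (!j))) c) (h : Loc n (sd j) q (th • c)) :
    ∃ v, Kc (sd (!j)) (Gq q) v ∧ Loc n (sd (!j)) q (c - kC v) := by
  obtain ⟨P, hP⟩ := h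
  obtain ⟨Q, rfl⟩ := exists_root 1 P
  obtain ⟨v, v1, v2⟩ := exists_kC (a2_coc_sub (a2_coc_mono (D := Gq q) hc)
    (coc_cob n (sd (!j)) (Gq q) Q)) fun g hg => by
      rw [Pi.sub_apply, smul_sub, ← a2_cob_th, ← pow_one th, ← hP g hg, pow_one, Pi.smul_apply,
        sub_self]
  exact ⟨v, v1, Q, fun g hg => by
    rw [Pi.sub_apply, kC, ← v2 g hg, Pi.sub_apply, sub_sub_cancel]⟩

theorem exists_lf (h : x ∈ Zs n (sd j) l) : ∃ c u, Lf n (!j) c u ∧ th • c = x := by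
  obtain ⟨c, h1, h2, h3⟩ : ∃ c, Coc ⊤ (act n (sd (!j))) c ∧ (∀ g, th • c g = x g) ∧
      ∀ q : ℕ, q.Prime → ¬ q ∣ MM * n → c (sq q) = 0 := by
    cases j
    · obtain ⟨c, hc⟩ := ext h
      exact ⟨c, hc.coc, hc.th_smul, hc.unr⟩
    · exact ext_one h
  have e : th • c = x := funext h2
  have k : ∀ q : ℕ, ∃ v, q.Prime → q ∣ MM * n →
      Kc (sd (!j)) (Gq q) v ∧ Loc n (sd (!j)) q (c - kC v) := fun q => by
    by_cases hq : q.Prime ∧ q ∣ MM * n
    · obtain ⟨v, hv⟩ := a2_def h1 (e ▸ h.loc q hq.1 hq.2)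
      exact ⟨v, fun _ _ => hv⟩
    · exact ⟨0, fun a b => (hq ⟨a, b⟩).elim⟩
  choose u hu using k
  exact ⟨c, u, ⟨h1, h3, fun q hq k => (hu q hq k).1, fun q hq k => (hu q hq k).2⟩, e⟩

/-- The pairing does not depend on the lift. -/
theorem Lf.pr_zero (hn : n ≠ 0) (h : Lf n (!j) c u) (h0 : th • c = 0) (hb : b ∈ Sel n j) :
    pr n j u b = 0 := by
  obtain ⟨v, v1, v2⟩ := exists_kC h.coc fun g _ => congrFun h0 g
  have e : c = kC v := funext fun g => v2 g trivial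
  have v3 : ∀ q : ℕ, q.Prime → ¬ q ∣ MM * n → v (sq q) = 0 := fun q hq k =>
    kT_inj (by rw [← v2 _ trivial, h.unr q hq k, map_zero])
  have k : ∀ q : ℕ, q.Prime → q ∣ MM * n → u q - v ∈ Ll n (!j) q := fun q hq k =>
    mem_Ll.2 ⟨(h.kc q hq k).sub (v1.mono le_top), by
      have := (h.loc q hq k).neg
      rwa [neg_sub, e, ← kC_sub] at this⟩
  have e1 : u = (fun q => u q - v) + fun _ => v := funext fun q => (sub_add_cancel _ _).symm
  rw [e1, pr_add_left hn (fun q hq d => (mem_Ll.1 (k q hq d)).1) (fun _ _ _ => v1.mono le_top)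
    (Sel.kc hb), pr_glob hn v1 v3 (Sel.kc hb) fun q hq d => Sel.unr hb hq d, add_zero]
  exact Finset.sum_eq_zero fun q hq => lq_orth hn (a2_mem hq).1 (k q (a2_mem hq).1 (a2_mem hq).2)
    (Sel.loc hb (a2_mem hq).1 (a2_mem hq).2)

/-- The left kernel of the pairing. -/
theorem Lf.ker (hp : Pt n) (h : Lf n (!j) c u) (hl : ∀ g, th ^ (l + 1) • c g = 0)
    (h0 : ∀ b ∈ Sel n j, pr n j u b = 0) : ∃ c' ∈ Zs n (sd (!j)) (l + 1), th • c' = th • c := by
  obtain ⟨v, v1, v2, v3⟩ := hp j u h.kc h0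
  refine ⟨c - kC v, mem_Zs.2 ⟨a2_coc_sub h.coc (coc_kC.2 v1), fun g => ?_, fun q hq k => ?_,
    fun q hq k => ?_⟩, funext fun g => ?_⟩
  · rw [Pi.sub_apply, smul_sub, hl, pow_succ, mul_smul, kC, th_kT, smul_zero, sub_zero]
  · have := (h.loc q hq k).add (mem_Ll.1 (v3 q hq k)).2
    rwa [kC_sub, sub_add_sub_cancel] at this
  · rw [Pi.sub_apply, h.unr q hq k, kC, v2 q hq k, map_zero, sub_zero]
  · rw [Pi.smul_apply, Pi.smul_apply, Pi.sub_apply, smul_sub, kC, th_kT, sub_zero]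

end Pool.Agent.Lib.MP_696deb_nt.CU.CV.CR
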