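import Pool.Agent.Lib.MP_696deb_nt.CR.D0
import Pool.Agent.Lib.MP_696deb_nt.CV.E6
import Pool.Agent.Lib.MP_696deb_nt.CP.A3

/-! The pairing is alternating. -/

set_option autoImplicit false
set_option linter.unusedSectionVars false

open scoped Classical
open Finset Module

namespace Pool.Agent.Lib.MP_696deb_nt.CU.CV.CR

variable [δ : Qd]

open CP (recip_m a3_U a3_inc a3_sum a3_sub a3_wm)

section

variable {q : ℕ}

theorem a3_w {u k : Gam → F3} (hu : Kc 0 (Gq q) u) (hk : Kc 1 (Gq q) k) (a : F3) :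
    C2 1 (Gq q) (fun g h => (a * (u g * mu 1 g * k h) + -a * (k g * mu 0 g * u h) : F3)) ∧
      inv q (fun g h => a * (u g * mu 1 g * k h) + -a * (k g * mu 0 g * u h)) =
        2 * a * lp q u k := by
  have h1 := c2_flip hu hk
  have h2 := c2_lp hu hk
  refine ⟨(h2.smul a).add (h1.smul (-a : F3)), ?_⟩
  have h3 := inv_add (h2.smul a) (h1.smul (-a : F3))
  have h4 : inv q (fun g h => a * (u g * mu 1 g * k h)) = a * lp q u k := inv_smul h2 a
  have h5 : inv q (fun g h => -a * (k g * mu 0 g * u h)) =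
      -a * inv q fun g h => k g * mu 0 g * u h := inv_smul h1 (-a)
  refine h3.trans ((congrArg₂ (· + ·) h4 h5).trans ?_)
  rw [inv_flip hu hk]
  ring

end

section

variable {n e m q : ℕ} {c : Gam → A}

variable (n e m c) in
/-- The cup square of a cocycle under the Weil pairing. -/
noncomputable def a3_z (g h : Gam) : ZMod (3 ^ m) := wm m (c g) (act n e g (c h))

theorem a3_c2 (hc : Coc ⊤ (act n e) c) (hl : ∀ g, 3 ^ m • c g = 0) : C2 m ⊤ (a3_z n e m c) :=
  wm_c2 hc hc (fun g _ => hl g) fun g _ => hl g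

theorem a3_unr (hc : Coc ⊤ (act n e) c) (hl : ∀ g, 3 ^ m • c g = 0) (hq : q.Prime)
    (hd : ¬ q ∣ MM * n) (hs : c (sq q) = 0) : FF.inv m ⊤ (pl q) (a3_z n e m c) = 0 := by
  have h3 : ¬ q ∣ MM := fun k => hd (k.mul_right n)
  have hn : ¬ q ∣ n := fun k => hd (k.mul_left _)
  have hk : ∀ g, th ^ (2 * m) • c g = 0 := fun g => (three_pow_iff m _).1 (hl g)
  have h4 : ∀ x ∈ Iq q, ∀ g, c (g * x) = c g := fun x hx g => by
    rw [hc.2 g trivial x trivial,
      det_ine hq h3 ⟨hc.1.mono le_top, fun a _ b _ => hc.2 a trivial b trivial⟩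
        (fun a _ => hk a) hs hx, map_zero, add_zero]
  refine FF.unr e2_op ((a3_c2 hc hl).mono inf_le_left) fun g _ h _ x hx y hy => ?_
  rw [a3_z, a3_z, h4 x hx.2, h4 y hy.2, act_mul, act_ine hq h3 hx.2 (hk h),
    kk_ine hq (ne_three h3) hn hx.2, un_zero, one_smul]

theorem a3_loc (hn : n ≠ 0) (hq : q.Prime) (hc : Coc ⊤ (act n e) c)
    (hl : ∀ g, th ^ (2 * m + 2) • c g = 0) {u : Gam → F3} (hu : Loc n e q (c - kC u)) {ε : F3}
    (hε : ∀ (x : A) (a b : F3), th ^ (2 * m + 1) • x = kT b →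
      wm (m + 1) (kT a) x = a3_U m (m + 1) (ε * (a * b)))
    {w : Gam → Gam → F3} (hw : C2 1 (Gq q) w)
    (ew : ∀ g h, w g h = ε * (u g * (mu (e + (2 * m + 1)) g * tp (2 * m + 1) c h)) -
      ε * (mu e g * u h * tp (2 * m + 1) c g)) :
    FF.inv (m + 1) ⊤ (pl q) (a3_z n e (m + 1) c) = a3_U m (m + 1) (inv q w) := by
  obtain ⟨P, hP⟩ := hu
  have h0 : ∀ g, 3 ^ (m + 1) • c g = 0 := fun g => (three_pow_iff (m + 1) _).2 (hl g)
  have hb : ∀ g, th ^ (2 * m + 1) • c g = kT (tp (2 * m + 1) c g) := fun g =>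
    (kT_dg (by rw [← mul_smul, ← pow_succ', hl])).symm
  have hT : ∀ a, th ^ (2 * m + 1) • kT a = 0 := fun a => by
    rw [pow_succ, mul_smul, th_kT, smul_zero]
  have hT' : ∀ a, 3 ^ (m + 1) • kT a = 0 := fun a => (three_pow_iff (m + 1) _).2 (by
    rw [mul_add, mul_one, pow_succ, mul_smul, th_kT, smul_zero])
  have h1 : ∀ g ∈ Gq q, c g = cob (act n e) P g + kT (u g) := fun g hg =>
    sub_eq_iff_eq_add.1 (hP g hg)
  have h2 : ∀ g ∈ Gq q, 3 ^ (m + 1) • cob (act n e) P g = 0 := fun g hg => by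
    have := h0 g
    rwa [h1 g hg, smul_add, hT', add_zero] at this
  have h3 : ∀ g ∈ Gq q, th ^ (2 * m + 1) • cob (act n e) P g = kT (tp (2 * m + 1) c g) :=
    fun g hg => by rw [← hb, h1 g hg, smul_add, hT, add_zero]
  have s1 := wm_iso hn hq h2 h2
  have c1 : C2 (m + 1) (⊤ ⊓ Dec (pl q)) _ := (H3.Spl.c2 s1).mono inf_le_right
  have c0 : C2 (m + 1) (⊤ ⊓ Dec (pl q)) _ := (a3_c2 hc h0).mono inf_le_left
  have i1 := FF.add e2_op c0 (c1.smul (-1))
  rw [FF.smul e2_op c1, (FF.zero_iff e2_op c1).2 (by rw [top_inf_eq]; exact s1), mul_zero,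
    add_zero] at i1
  rw [← i1, ← a3_inc (add_comm m 1) hw]
  refine FF.congr fun g hg h hh => ?_
  have e1 : wm (m + 1) (kT (u g)) (act n e g (c h)) = _ := hε _ _ _ (by
    rw [← act_th_pow, hb, act_kT])
  have e2 : wm (m + 1) (kT (mu e g * u h)) (cob (act n e) P g) = _ := hε _ _ _ (h3 g hg.2)
  have e3 : wm (m + 1) (cob (act n e) P g) (act n e g (c h)) =
      wm (m + 1) (cob (act n e) P g) (act n e g (cob (act n e) P h)) -
        wm (m + 1) (kT (mu e g * u h)) (cob (act n e) P g) := by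
    rw [h1 h hh.2, map_add, act_kT,
      wm_add_right _ (by rw [← map_nsmul, h2 h hh.2, map_zero]) (hT' _), wm_skew _ (kT _),
      sub_eq_add_neg]
  have e4 : a3_z n e (m + 1) c g h = wm (m + 1) (cob (act n e) P g) (act n e g (c h)) +
      wm (m + 1) (kT (u g)) (act n e g (c h)) := by
    rw [← wm_add_left (h2 g hg.2) (hT' _), ← h1 g hg.2, a3_z]
  rw [Pi.add_apply, Pi.add_apply, e4, e3, e1, e2, ew, a3_sub (add_comm m 1)]
  ring

end

theorem Lf.alt {n m : ℕ} {j : Bool} {c : Gam → A} {u : ℕ → Gam → F3} (hn : n ≠ 0)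
    (h : Lf n (!j) c u) (hl : ∀ g, th ^ (2 * m + 2) • c g = 0) :
    pr n j u (tp (2 * m + 1) c) = 0 := by
  obtain ⟨ε, h0, hε⟩ := a3_wm m
  have h3 : ∀ g, 3 ^ (m + 1) • c g = 0 := fun g => (three_pow_iff (m + 1) _).2 (hl g)
  have hb : Kc (sd (!j) + (2 * m + 1)) ⊤ (tp (2 * m + 1) c) := by
    have e : th ^ (2 * m + 1) • c = kC (tp (2 * m + 1) c) := funext fun g =>
      (kT_dg (by rw [Pi.smul_apply, ← mul_smul, ← pow_succ', hl])).symm
    exact (coc_kC (n := n)).1 (e ▸ coc_th_pow h.coc (2 * m + 1))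
  have key : ∀ a : F3, a ≠ 0 → (∀ q : ℕ, q.Prime → q ∣ MM * n →
      FF.inv (m + 1) ⊤ (pl q) (a3_z n (sd (!j)) (m + 1) c) =
        a3_U m (m + 1) (2 * a * lq j q (u q) (tp (2 * m + 1) c))) →
      pr n j u (tp (2 * m + 1) c) = 0 := fun a ha k => by
    have r := recip_m (a3_c2 h.coc h3) (MM * n).primeFactors
      (fun q hq => Nat.prime_of_mem_primeFactors hq) fun q hq k' =>
        have hd : ¬ q ∣ MM * n := fun d =>
          k' (Nat.mem_primeFactors.2 ⟨hq, d, mul_ne_zero MM_ne hn⟩)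
        a3_unr h.coc h3 hq hd (h.unr q hq hd)
    rw [sum_congr rfl fun q hq =>
      k q (Nat.prime_of_mem_primeFactors hq) (Nat.dvd_of_mem_primeFactors hq)] at r
    have r' := a3_sum (add_comm m 1) _ _ r
    rw [← mul_sum] at r'
    exact (mul_eq_zero.1 r').resolve_left (mul_ne_zero (by decide) ha)
  cases j
  · have hb' : Kc 1 ⊤ (tp (2 * m + 1) c) := by
      have := kc_mod.2 hb
      rwa [show (sd (!false) + (2 * m + 1)) % 2 = 1 by simp [sd]] at this
    refine key ε h0 fun q hq hd => ?_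
    obtain ⟨w1, w2⟩ := a3_w (h.kc q hq hd) (hb'.mono le_top) ε
    refine (a3_loc hn hq h.coc hl (h.loc q hq hd) hε w1 fun g k => ?_).trans (congrArg _ w2)
    rw [show sd (!false) = 0 from rfl, mu_eq (a := 0 + (2 * m + 1)) (b := 1) ⟨m + 1, by ring⟩]
    ring
  · have hb' : Kc 0 ⊤ (tp (2 * m + 1) c) := by
      have := kc_mod.2 hb
      rwa [show (sd (!true) + (2 * m + 1)) % 2 = 0 by simp [sd]; omega] at this
    refine key (-ε) (neg_ne_zero.2 h0) fun q hq hd => ?_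
    obtain ⟨w1, w2⟩ := a3_w (hb'.mono le_top) (h.kc q hq hd) (-ε)
    refine (a3_loc hn hq h.coc hl (h.loc q hq hd) hε w1 fun g k => ?_).trans (congrArg _ w2)
    rw [show sd (!true) = 1 from rfl, mu_eq (a := 1 + (2 * m + 1)) (b := 0) ⟨m + 1, by ring⟩]
    ring

end Pool.Agent.Lib.MP_696deb_nt.CU.CV.CR
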