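import Pool.Agent.Lib.MP_696deb_nt.CR.D0
import Pool.Agent.Lib.MP_696deb_nt.CV.Ms

/-! The quadratic character on decomposition groups. -/

set_option autoImplicit false
set_option linter.unusedSectionVars false

open scoped Classical
open Finset Module

namespace Pool.Agent.Lib.MP_696deb_nt.CU.CV.CR

variable [δ : Qd] {e q : ℕ} {g : Gam} {u : Gam → F3} {d : ℤ} {r : Qbar}

theorem ch_Gq (hu : ∀ g ∈ Iq q, mu e g = 1) (h : mu e (fq q) = 1) (hg : g ∈ Gq q) :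
    mu e g = 1 := by
  obtain ⟨U, u1, -, u3⟩ := sm_mu e ⊤
  obtain ⟨j, σ, hσ, k, -⟩ := B2.dec_gen (H3.fr_spec (pl q)) hg u1
  rw [← u3 _ trivial g trivial k, mu_mul, mu_pow, hu σ hσ, mul_one]
  exact (congrArg (· ^ j) h).trans (one_pow j)

theorem de_Gq (hq : q.Prime) (hu : Un q) (h : de (fq q) = 1) (hg : g ∈ Gq q) : de g = 1 := by
  rw [← mu_zero] at h ⊢
  exact ch_Gq (fun g k => (mu_zero g).trans (hu g k)) h hg

theorem mu_un (hq : q.Prime) (h3 : q ≠ 3) (hu : Un q) (hg : g ∈ Iq q) (e : ℕ) : mu e g = 1 := by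
  rw [mu, hu g hg, chi_ine hq h3 hg, one_pow, one_mul]

theorem tr_iff (hq : q.Prime) (h3 : q ≠ 3) (hu : Un q) : Tr e q ↔ mu e (fq q) = 1 :=
  ⟨fun h => h _ (fq_mem hq), fun h _ hg => ch_Gq (fun _ k => mu_un hq h3 hu k e) h hg⟩

theorem ch_ine (h : Kc e (Gq q) u) (hq : q.Prime) (h3 : q ≠ 3) (hu : Un q) (hg : g ∈ Iq q) :
    u g = kk q g * u (sq q) :=
  ((kc_iff (e' := 0) fun g hg => by rw [mu_un hq h3 hu hg, pow_zero]).1
    (h.mono (B2.Ine_le _))).ine hq h3 hg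

theorem kc_det (h : Kc e (Gq q) u) (hq : q.Prime) (h3 : q ≠ 3) (hu : Un q) (hs : u (sq q) = 0)
    (hf : u (fq q) = 0) (hg : g ∈ Gq q) : u g = 0 := by
  obtain ⟨U, u1, -, u3⟩ := h.1
  obtain ⟨j, σ, hσ, k⟩ := (e2a_tm hq h3).dg ⟨trivial, hg⟩ u1
  have h1 : ∀ j : ℕ, u (fq q ^ j) = 0 := fun j => by
    induction j with
    | zero => rw [pow_zero, h.one]
    | succ j ih => rw [pow_succ, h.2 _ (pow_mem (fq_mem hq) j) _ (fq_mem hq), ih, hf]; simp
  have h2 := pow_mem (fq_mem hq) j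
  rw [← u3 _ (mul_mem h2 (B2.Ine_le _ hσ)) g hg k, h.2 _ h2 _ (B2.Ine_le _ hσ), h1,
    ch_ine h hq h3 hu hσ, hs, mul_zero, mul_zero, add_zero]

theorem kc_ev (h : Kc e (Gq q) u) (hq : q.Prime) (h3 : q ≠ 3) (hu : Un q)
    (h2 : mu (e + 1) (fq q) ≠ 1) : u (sq q) = 0 := by
  have h6 := B2.conj_mem_Ine (fq_mem hq) (sq_ine hq h3)
  have h1 := h.2 _ (B2.Ine_le _ h6) _ (fq_mem hq)
  have h4 := (kc_kk q ⊤).2 (fq q * sq q * (fq q)⁻¹) trivial (fq q) trivial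
  rw [inv_mul_cancel_right, (kc_kk q ⊤).2 _ trivial _ trivial, chi_ine hq h3 h6,
    kk_sq_self hq h3] at h4
  rw [inv_mul_cancel_right, h.2 _ (fq_mem hq) _ (sq_mem hq h3), mu_un hq h3 hu h6,
    ch_ine h hq h3 hu h6] at h1
  exact e2a_ev h2 (by linear_combination h1 - u (sq q) * h4)

theorem Nf.ch_ne (N : Nf d r) : r ≠ 0 := fun e => N.sf.ne_zero (by
  have := N.rt
  rw [e, zero_pow two_ne_zero] at this
  exact_mod_cast this.symm)

theorem Nf.ch_iff (N : Nf d r) : de g = 1 ↔ B2.chi d g = 1 := by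
  rw [N.de_eq, dr_eq_one, B2.chi_spec N.rt, mul_eq_right₀ N.ch_ne, Int.cast_eq_one,
    Units.val_eq_one]

theorem Nf.un (N : Nf d r) (hq : q.Prime) (h : Ur d q) : Un q := fun g hg => N.ch_iff.2 (by
  unfold CL.Ur at h
  split_ifs at h with k
  · exact B2.chi_ine_two ((pl_p hq).trans k) h hg
  · refine B2.chi_ine (fun j => ?_) hg
    rw [pl_p hq] at j
    exact ((Nat.prime_iff_prime_int.1 hq).dvd_or_dvd j).elim (fun j =>
      k ((Nat.prime_dvd_prime_iff_eq hq Nat.prime_two).1 (Int.natCast_dvd_natCast.1 j))) h)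

theorem ch_move {x y : Qbar} (hq : q.Prime) (h : x ^ 2 = q * y) (hy : (pl q).V y = 1) :
    ∃ g ∈ Iq q, g x ≠ x :=
  H3.exists_ine_ne (a := 2) (b := 1) two_ne_zero (by norm_num) (by
    rw [← map_pow, h, map_mul, hy, mul_one, pow_one, pl_p hq])

theorem Nf.ram (N : Nf d r) (hq : q.Prime) (h : ¬ Ur d q) : ∃ g ∈ Iq q, de g = -1 := by
  suffices ∃ g ∈ Iq q, g r ≠ r by
    obtain ⟨g, a, b⟩ := this
    exact ⟨g, a, (N.de_eq g).trans (if_neg b)⟩
  by_cases k : (q : ℤ) ∣ d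
  · obtain ⟨c, rfl⟩ := k
    refine ch_move (y := c) hq (by rw [N.rt]; push_cast; rfl) ((pl q).V_int_eq_one.2 ?_)
    rw [pl_p hq]
    exact fun j => (Nat.prime_iff_prime_int.1 hq).not_unit (N.sf _ (mul_dvd_mul_left _ j))
  · unfold CL.Ur at h
    split_ifs at h with j
    · subst j
      obtain ⟨c, rfl⟩ : ∃ c, d = 4 * c - 1 := ⟨(d + 1) / 4, by push_cast at k; omega⟩
      have h1 : (pl 2).V r = 1 := by
        refine (pow_eq_one_iff_of_nonneg zero_le two_ne_zero).1 ?_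
        rwa [← map_pow, N.rt, (pl 2).V_int_eq_one, pl_p hq]
      have h2 : (pl 2).V ((2 * c : ℤ) : Qbar) < (pl 2).V r := by
        rw [h1, B2.b2c_lt, pl_p hq]
        exact dvd_mul_right _ _
      obtain ⟨g, a, b⟩ := ch_move (x := 1 + r) (y := r + (2 * c : ℤ)) hq (by
        have := N.rt
        push_cast at this ⊢
        linear_combination this) (((pl 2).V.map_add_eq_of_lt_left h2).trans h1)
      exact ⟨g, a, fun e => b (by rw [map_add, map_one, e])⟩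
    · exact absurd k h

theorem Nf.un_three (N : Nf d r) : Un 3 := N.un Nat.prime_three N.nd

theorem Nf.ch_fq (N : Nf d r) : de (fq 3) = 1 ↔ d % 3 = 1 := by
  have p := pl_p Nat.prime_three
  have n := N.nd
  have h := B2.chi_frob (w := pl 3) (a := d) (by rw [p]; push_cast; omega) (H3.fr_spec _)
  rw [p, jacobiSym.mod_left] at h
  rw [N.ch_iff, ← Units.val_eq_one, fq, h]
  rcases (by omega : d % 3 = 1 ∨ d % 3 = 2) with e | e <;> push_cast <;> rw [e] <;> norm_num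

theorem Nf.tr_three (N : Nf d r) : Tr 0 3 ↔ d % 3 = 1 := by
  rw [← N.ch_fq]
  exact ⟨fun h => (mu_zero _).symm.trans (h _ (fq_mem Nat.prime_three)),
    fun h g hg => (mu_zero g).trans (de_Gq Nat.prime_three N.un_three h hg)⟩

theorem Nf.not_tr (N : Nf d r) : ¬ Tr 1 3 := fun h => by
  obtain ⟨g, a, b⟩ := ch_move (x := B2.rt (-(3 : ℕ))) (y := -1) Nat.prime_three
    (by rw [B2.rt_sq]; push_cast; ring) (by simp)
  have k := h g (B2.Ine_le _ a)
  rw [mu, N.un_three g a, pow_one, one_mul] at k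
  exact b (B2.chi_eq_one.1 (mem_GK.2 k))

theorem Nf.cc_iff (N : Nf d r) : mu 0 cc = 1 ↔ 0 < d := by
  rw [mu_zero, N.ch_iff, B2.chi_cc N.sf.ne_zero]
  split_ifs with h <;> simp [h]

/-- The case that three is inert. -/
theorem Nf.eta (N : Nf d r) (h : d % 3 ≠ 1) : ∃ (i : Qbar) (m : ℤ), i ^ 2 = m ∧ 27 ∣ m + 1 ∧
    (∀ g, de g = dr i g) ∧ de (fq 3) = -1 := by
  have n := N.nd
  obtain ⟨s, rfl⟩ : ∃ s, d = -(1 + 3 * s) := ⟨-(d + 1) / 3, by omega⟩
  have c0 : ((1 + 12 * s : ℤ) : Qbar) ≠ 0 := Int.cast_ne_zero.2 (by omega)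
  refine ⟨(1 + 12 * s : ℤ) * r, (1 + 12 * s) ^ 2 * -(1 + 3 * s), ?_,
    ⟨-(s + 8 * s ^ 2 + 16 * s ^ 3), by ring⟩, fun g => ?_,
    (de_cases _).resolve_left (mt N.ch_fq.1 h)⟩
  · rw [mul_pow, N.rt]
    push_cast
    rfl
  · rw [N.de_eq]
    exact if_congr (by rw [map_mul, map_intCast, mul_right_inj' c0]) rfl rfl

end Pool.Agent.Lib.MP_696deb_nt.CU.CV.CR
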