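import Mathlib

/-! The root number of the cubic twists of a quadratic twist of the Fermat cubic. -/

set_option autoImplicit false

namespace Pool.Agent.Lib.MP_696deb_nt.CL

/-- The prime `p` does not ramify in the field of the square root of the squarefree number `d`. -/
def Ur (d : ℤ) (p : ℕ) : Prop := if p = 2 then d % 4 = 1 else ¬ (p : ℤ) ∣ d

instance (d : ℤ) (p : ℕ) : Decidable (Ur d p) := by
  unfold Ur
  infer_instance

/-- The contribution of the prime three is trivial. -/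
def W3 (d : ℤ) (n : ℕ) : Prop :=
  if d % 3 = 1 then n.factorization 3 % 3 = 1 ∨ n.factorization 3 % 3 = 0 ∧
    (n / 3 ^ n.factorization 3 % 9 = 1 ∨ n / 3 ^ n.factorization 3 % 9 = 8)
  else n.factorization 3 % 3 = 2 ∨ n.factorization 3 % 3 = 0 ∧
    (n / 3 ^ n.factorization 3 % 9 = 4 ∨ n / 3 ^ n.factorization 3 % 9 = 5)

/-- The root number of the quadratic twist by `d` of the curve `x ^ 3 + y ^ 3 = n` is one. -/
def Wq (d : ℤ) (n : ℕ) : Prop :=
  Even (n.primeFactors.filter fun p => p % 3 = 2 ∧ n.factorization p % 3 ≠ 0 ∧ Ur d p).card ↔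
    (0 < d ↔ W3 d n)

/-- The number `d` is squarefree, prime to three, and `d` or `-3 d` is in the square class of
`D`. -/
structure Rel (D d : ℤ) : Prop where
  sf : Squarefree d
  three : ¬ 3 ∣ d
  eq : ∃ c : ℤ, c ≠ 0 ∧ (D = d * c ^ 2 ∨ D = -3 * d * c ^ 2)

theorem exists_rel {D : ℤ} (h : D ≠ 0) : ∃ d, Rel D d := by
  obtain ⟨a, b, h1, h2⟩ := Nat.sq_mul_squarefree D.natAbs
  have b0 : (b : ℤ) ≠ 0 := fun e => h (by
    rw [Nat.cast_eq_zero.1 e] at h1
    simpa using h1.symm)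
  obtain ⟨s, s1, s2⟩ : ∃ s : ℤ, Squarefree s ∧ D = s * b ^ 2 := by
    rcases Int.natAbs_eq D with e | e
    · exact ⟨a, Int.squarefree_natCast.2 h2, by rw [e, ← h1]; push_cast; ring⟩
    · exact ⟨-a, Int.squarefree_natAbs.1 (by simpa using h2), by rw [e, ← h1]; push_cast; ring⟩
  by_cases k : 3 ∣ s
  · obtain ⟨t, rfl⟩ := k
    refine ⟨-t, Int.squarefree_natAbs.1 ?_, fun ⟨u, e⟩ => ?_, b, b0, .inr (by rw [s2]; ring)⟩
    · rw [Int.natAbs_neg]
      exact Int.squarefree_natAbs.2 s1.of_mul_right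
    · have := s1 3 ⟨-u, by linear_combination -3 * e⟩
      norm_num [Int.isUnit_iff] at this
  · exact ⟨s, s1, k, b, b0, .inl s2⟩

end Pool.Agent.Lib.MP_696deb_nt.CL
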