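import Pool.Agent.Lib.MP_696deb_nt.CV.Z1
import Pool.Agent.Lib.MP_696deb_nt.CP.D0
import Pool.Agent.Lib.MP_696deb_nt.CR.W

/-! Definitions for the parity of the Selmer rank of the cubic twists of a quadratic twist. -/

set_option autoImplicit false
set_option linter.unusedSectionVars false

open scoped Classical
open Finset Module

namespace Pool.Agent.Lib.MP_696deb_nt.CU.CV.CR

export CP (sd sd_true sd_false kC_add kC_zero kC_sub kC_smul dg dg_kT kT_dg tp Fil)
export CL (Ur W3 Wq)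

variable [δ : Qd]

theorem act_sd (n : ℕ) (j : Bool) : act n (sd j + 1) = act n (sd (!j)) := by
  cases j
  · exact act_add_two n 0
  · rfl

theorem zs_sd (n : ℕ) (j : Bool) (l : ℕ) : Zs n (sd j + 1) l = Zs n (sd (!j)) l := by
  cases j
  · exact zs_add_two n 0 l
  · rfl

theorem mu_sd (j : Bool) : mu (sd j + 1) = mu (sd (!j)) := by
  cases j
  · exact mu_add_two 0
  · rfl

theorem kc_sd {j : Bool} {D : Subgroup Gam} {u : Gam → F3} :
    Kc (sd j + 1) D u ↔ Kc (sd (!j)) D u := by rw [Kc, mu_sd, Kc]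

/-- The local pairing of `u` on the side `!j` with `b` on the side `j`. -/
noncomputable def lq (j : Bool) (q : ℕ) (u b : Gam → F3) : F3 := cond j (lp q b u) (lp q u b)

/-- The sum of the local pairings. -/
noncomputable def pr (n : ℕ) (j : Bool) (u : ℕ → Gam → F3) (b : Gam → F3) : F3 :=
  ∑ q ∈ (MM * n).primeFactors, lq j q (u q) b

/-- The Selmer cocycles of level one. -/
noncomputable def Sel (n : ℕ) (j : Bool) : Submodule F3 (Gam → F3) where
  carrier := {u | kC u ∈ Zs n (sd j) 1}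
  zero_mem' := by
    rw [Set.mem_ofPred_eq, kC_zero]
    exact zero_mem _
  add_mem' := fun h h' => by
    rw [Set.mem_ofPred_eq, kC_add]
    exact add_mem h h'
  smul_mem' a u h := by
    rw [Set.mem_ofPred_eq, kC_smul]
    exact nsmul_mem h _

theorem mem_Sel {n : ℕ} {j : Bool} {u : Gam → F3} : u ∈ Sel n j ↔ kC u ∈ Zs n (sd j) 1 := Iff.rfl

theorem Sel.kc {n : ℕ} {j : Bool} {u : Gam → F3} (h : u ∈ Sel n j) : Kc (sd j) ⊤ u :=
  coc_kC.1 (mem_Sel.1 h).coc

theorem loc_nsmul {n e q : ℕ} {c : Gam → A} (h : Loc n e q c) (k : ℕ) : Loc n e q (k • c) := by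
  induction k with
  | zero =>
    rw [zero_smul]
    exact Loc.zero n e q
  | succ k ih =>
    rw [succ_nsmul]
    exact ih.add h

/-- The local conditions of level one. -/
noncomputable def Ll (n : ℕ) (j : Bool) (q : ℕ) : Submodule F3 (Gam → F3) where
  carrier := {u | Kc (sd j) (Gq q) u ∧ Loc n (sd j) q (kC u)}
  zero_mem' := ⟨Kc.zero _ _, by
    rw [kC_zero]
    exact Loc.zero _ _ _⟩
  add_mem' := fun h h' => ⟨h.1.add h'.1, by
    rw [kC_add]
    exact h.2.add h'.2⟩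
  smul_mem' a u h := ⟨h.1.smul a, by
    rw [kC_smul]
    exact loc_nsmul h.2 _⟩

theorem mem_Ll {n q : ℕ} {j : Bool} {u : Gam → F3} :
    u ∈ Ll n j q ↔ Kc (sd j) (Gq q) u ∧ Loc n (sd j) q (kC u) := Iff.rfl

/-- Global cocycles that are unramified outside of `M n`, with their local defects. -/
structure Lf (n : ℕ) (j : Bool) (c : Gam → A) (u : ℕ → Gam → F3) : Prop where
  coc : Coc ⊤ (act n (sd j)) c
  unr : ∀ q : ℕ, q.Prime → ¬ q ∣ MM * n → c (sq q) = 0
  kc : ∀ q : ℕ, q.Prime → q ∣ MM * n → Kc (sd j) (Gq q) (u q)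
  loc : ∀ q : ℕ, q.Prime → q ∣ MM * n → Loc n (sd j) q (c - kC (u q))

/-- Global duality for the first layer. -/
def Pt (n : ℕ) : Prop := ∀ (j : Bool) (u : ℕ → Gam → F3),
  (∀ q : ℕ, q.Prime → q ∣ MM * n → Kc (sd (!j)) (Gq q) (u q)) → (∀ b ∈ Sel n j, pr n j u b = 0) →
    ∃ v, Kc (sd (!j)) ⊤ v ∧ (∀ q : ℕ, q.Prime → ¬ q ∣ MM * n → v (sq q) = 0) ∧
      ∀ q : ℕ, q.Prime → q ∣ MM * n → u q - v ∈ Ll n (!j) q

/-- The coboundary. -/
noncomputable def bd (j : Bool) (g : Gam) : F3 := mu (sd j) g - 1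

/-- `u` is a coboundary on the decomposition group. -/
def Cb (j : Bool) (q : ℕ) (u : Gam → F3) : Prop := ∃ x : F3, ∀ g ∈ Gq q, u g = x * (mu (sd j) g - 1)

/-- Local coordinates. -/
structure Gram (q d : ℕ) (co : Bool → (Gam → F3) →ₗ[F3] Fin d → F3) : Prop where
  gram : ∀ u k, Kc 0 (Gq q) u → Kc 1 (Gq q) k → lp q u k = co true u ⬝ᵥ co false k
  det : ∀ j u, Kc (sd j) (Gq q) u → co j u = 0 → Cb j q u
  cob : ∀ j, co j (bd j) = 0

/-- A bound for the dimension of the local classes on the side one. -/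
def Ev (q d : ℕ) : Prop := ∃ ev : (Gam → F3) →ₗ[F3] Fin d → F3,
  (∀ k, Kc 1 (Gq q) k → ev k = 0 → Cb false q k) ∧ ev (bd false) = 0

/-- There are `l` independent classes that satisfy the local condition. -/
def Has (n : ℕ) (j : Bool) (q l : ℕ) : Prop := ∃ v : Fin l → Gam → F3,
  (∀ i, v i ∈ Ll n j q) ∧ ∀ x : Fin l → F3, Cb j q (∑ i, x i • v i) → x = 0

/-- Global cocycles that are unramified outside of `M n`. -/
def GG (n : ℕ) (j : Bool) : Submodule F3 (Gam → F3) where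
  carrier := {u | Kc (sd j) ⊤ u ∧ ∀ q : ℕ, q.Prime → ¬ q ∣ MM * n → u (sq q) = 0}
  zero_mem' := ⟨Kc.zero _ _, fun _ _ _ => rfl⟩
  add_mem' := fun h h' => ⟨h.1.add h'.1, fun q hq k => by
    rw [Pi.add_apply, h.2 q hq k, h'.2 q hq k, add_zero]⟩
  smul_mem' a _ h := ⟨h.1.smul a, fun q hq k => by rw [Pi.smul_apply, h.2 q hq k, smul_zero]⟩

theorem mem_GG {n : ℕ} {j : Bool} {u : Gam → F3} :
    u ∈ GG n j ↔ Kc (sd j) ⊤ u ∧ ∀ q : ℕ, q.Prime → ¬ q ∣ MM * n → u (sq q) = 0 := Iff.rfl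

/-- The character of the side `e` is trivial on the decomposition group. -/
def Tr (e q : ℕ) : Prop := ∀ g ∈ Gq q, mu e g = 1

/-- The dimension of the local invariants. -/
noncomputable def hz (e q : ℕ) : ℕ := if Tr e q then 1 else 0

/-- The dimension of the local classes. -/
noncomputable def dq (q : ℕ) : ℕ := hz 0 q + hz 1 q + if q = 3 then 1 else 0

/-- The quadratic character is unramified at `q`. -/
def Un (q : ℕ) : Prop := ∀ g ∈ Iq q, de g = 1

/-- The quadratic character belongs to a squarefree number that is prime to three. -/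
structure Nf (d : ℤ) (r : Qbar) : Prop where
  rt : r ^ 2 = d
  sf : Squarefree d
  nd : ¬ 3 ∣ d
  de_eq : ∀ g, de g = dr r g

/-- A pair of cube roots that is permuted by `D` according to the cocycle `κ` on the side `e`. -/
def Rq (e : ℕ) (D : Subgroup Gam) (κ : Gam → F3) (a b : Qbar) : Prop := ∀ g ∈ D,
  (mu (e + 1) g = 1 → g a = Kt.zt (κ g) * a ∧ g b = Kt.zt (-κ g) * b) ∧
  (mu (e + 1) g ≠ 1 → g a = Kt.zt (-κ g) * b ∧ g b = Kt.zt (κ g) * a)

theorem loc_sw {n e q : ℕ} {c : Gam → A} : Loc (δ := δ.sw) n e q c ↔ Loc n (e + 1) q c := by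
  unfold Loc
  rw [act_sw]

theorem ll_sw (n : ℕ) (j : Bool) (q : ℕ) : Ll (δ := δ.sw) n j q = Ll n (!j) q := by
  ext u
  rw [mem_Ll (δ := δ.sw), mem_Ll, kc_sw, loc_sw, kc_sd, Loc, act_sd, ← Loc]

theorem cb_sw {j : Bool} {q : ℕ} {u : Gam → F3} : Cb (δ := δ.sw) j q u ↔ Cb (!j) q u := by
  unfold Cb
  rw [mu_sw, mu_sd]

theorem has_sw {n q l : ℕ} {j : Bool} : Has (δ := δ.sw) n j q l ↔ Has n (!j) q l := by
  simp only [Has, ll_sw, cb_sw]

theorem gg_sw (n : ℕ) (j : Bool) : GG (δ := δ.sw) n j = GG n (!j) := by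
  ext u
  rw [mem_GG (δ := δ.sw), mem_GG, kc_sw, kc_sd]
  rfl

theorem tr_sw {e q : ℕ} : Tr (δ := δ.sw) e q ↔ Tr (e + 1) q := by
  unfold Tr
  rw [mu_sw]

theorem hz_sw (e q : ℕ) : hz (δ := δ.sw) e q = hz (e + 1) q := if_congr tr_sw rfl rfl

theorem tr_add_two {e q : ℕ} : Tr (e + 2) q ↔ Tr e q := by rw [Tr, Tr, mu_add_two]

theorem hz_add_two (e q : ℕ) : hz (e + 2) q = hz e q := if_congr tr_add_two rfl rfl

theorem has_zero (n : ℕ) (j : Bool) (q : ℕ) : Has n j q 0 :=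
  ⟨Fin.elim0, fun i => i.elim0, fun _ _ => Subsingleton.elim _ _⟩

theorem has_one {n q : ℕ} {j : Bool} {u : Gam → F3} (hu : u ∈ Ll n j q) (h : ¬ Cb j q u) :
    Has n j q 1 := by
  refine ⟨fun _ => u, fun _ => hu, fun x ⟨t, ht⟩ => ?_⟩
  by_contra k
  have h0 : x 0 ≠ 0 := fun e => k (funext fun i => by rw [Subsingleton.elim i 0]; exact e)
  have h1 : ∀ s : F3, s ≠ 0 → s * s = 1 := by decide
  refine h ⟨x 0 * t, fun g hg => ?_⟩
  have h2 := ht g hg
  rw [Fin.sum_univ_one, Pi.smul_apply, smul_eq_mul] at h2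
  rw [mul_assoc, ← h2, ← mul_assoc, h1 _ h0, one_mul]

/-- Where the character of a side is a power of the cyclotomic character, the local condition is
the one of the untwisted curve. -/
theorem ll_eq {n q : ℕ} {j j' : Bool} (h : ∀ g ∈ Gq q, mu (sd j) g = chi g ^ sd j') :
    Ll n j q = CP.Ll n j' q := by
  ext u
  rw [mem_Ll, CP.mem_Ll, kc_iff h, loc_iff fun g hg => act_eq n (h g hg)]

theorem cb_iff {q : ℕ} {j j' : Bool} (h : ∀ g ∈ Gq q, mu (sd j) g = chi g ^ sd j')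
    {u : Gam → F3} : Cb j q u ↔ CP.Cb j' q u :=
  exists_congr fun x => forall₂_congr fun g hg => by rw [h g hg]

theorem has_iff {n q l : ℕ} {j j' : Bool} (h : ∀ g ∈ Gq q, mu (sd j) g = chi g ^ sd j') :
    Has n j q l ↔ CP.Has n j' q l := by
  simp only [Has, CP.Has, ll_eq h, cb_iff h]

end Pool.Agent.Lib.MP_696deb_nt.CU.CV.CR
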