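import Pool.Agent.Lib.MP_696deb_nt.CR.D0
import Pool.Agent.Lib.MP_696deb_nt.CV.Ht

/-! Local root pairs. -/

set_option autoImplicit false
set_option linter.unusedSectionVars false

open scoped Classical
open Finset Module

namespace Pool.Agent.Lib.MP_696deb_nt.CU.CV.CR

open Kt (zt zt_add zt_zero zt_ne smul_zt zt_inj zt_cube exists_zt)

variable [δ : Qd] {e : ℕ} {D : Subgroup Gam} {κ v : Gam → F3} {a b : Qbar}

theorem exists_rq (hD : IsClosed (D : Set Gam)) (h : Kc e D κ) (ht : ∃ t ∈ D, mu (e + 1) t ≠ 1) :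
    ∃ a b, a ≠ 0 ∧ b ≠ 0 ∧ Rq e D κ a b := by
  obtain ⟨-, a, a0, -, hr⟩ := H3.kum_surj (H := D ⊓ HtG e)
    (hD.inter ((HtG e).isClosed_of_isOpen (op_HtG e))) (m := 1) (κ := κ) (h.1.mono inf_le_left)
    fun g hg k hk => by
      rw [h.2 g hg.1 k hk.1, (ht_iff g).1.2 hg.2]
      rfl
  have h1 : ∀ g ∈ D, mu (e + 1) g = 1 → g a = zt (κ g) * a := fun g hg k =>
    (hr g ⟨hg, k⟩).trans (mul_comm _ _)
  obtain ⟨s, sD, hs⟩ := ht
  have s1 := (ht_iff s).2 (mt (ht_iff s).1.1 hs)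
  replace hs := (mu_cases _ s).resolve_left hs
  obtain ⟨b, hb⟩ : ∃ b : Qbar, b = zt (κ s) * s a := ⟨_, rfl⟩
  have h2 : ∀ g ∈ D, mu (e + 1) g = -1 → g a = zt (-κ g) * b := fun g gD hg => by
    have k0 := mul_mem (inv_mem sD) gD
    have k1 : g a = s ((s⁻¹ * g) a) := by
      rw [← AlgEquiv.mul_apply, mul_inv_cancel_left]
    have k2 := h.2 s sD _ k0
    rw [mul_inv_cancel_left, s1] at k2
    rw [k1, h1 _ k0 (by rw [mu_mul, mu_inv, hs, hg]; decide), map_mul, smul_zt, hb, ← mul_assoc,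
      ← zt_add, k2]
    congr 2
    change chi s * _ = _
    ring
  have h3 : ∀ g : Gam, g b = zt (chi g * κ s) * (g * s) a := fun g => by
    rw [hb, map_mul, smul_zt]
    rfl
  refine ⟨a, b, a0, hb ▸ mul_ne_zero (zt_ne _) ((map_ne_zero s).2 a0),
    fun g hg => ⟨fun k => ⟨h1 g hg k, ?_⟩, fun k => ?_⟩⟩
  · rw [h3, h2 _ (mul_mem hg sD) (by rw [mu_mul, k, hs, one_mul]), ← mul_assoc, ← zt_add,
      h.2 g hg s sD, (ht_iff g).1.2 k]
    exact congrArg (zt · * b) (by ring)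
  · have k1 := (mu_cases (e + 1) g).resolve_left k
    refine ⟨h2 g hg k1, ?_⟩
    rw [h3, h1 _ (mul_mem hg sD) (by rw [mu_mul, k1, hs]; decide), ← mul_assoc, ← zt_add,
      h.2 g hg s sD, (ht_iff g).2 (mt (ht_iff g).1.1 k)]
    exact congrArg (zt · * a) (by ring)

/-- The exponents of a root pair form a cocycle. -/
theorem Rq.mul_eq (h : Rq e D κ a b) (ha : a ≠ 0) {g k : Gam} (hg : g ∈ D) (hk : k ∈ D) :
    κ (g * k) = κ g + mu e g * κ k := by
  have z : ∀ {s t : F3} {y : Qbar}, zt (κ (g * k)) * a = g (zt s * y) → g y = zt (κ g) * a →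
      chi g * s = t → κ (g * k) = κ g + t := fun {s t y} h1 h2 h3 => by
    rw [map_mul, smul_zt, h2, ← mul_assoc, ← zt_add] at h1
    rw [zt_inj (mul_right_cancel₀ ha h1), ← h3, add_comm]
    rfl
  have c : ∀ x y : F3, (x = 1 ∨ x = -1) → (y = 1 ∨ y = -1) → (x * y = 1 ↔ (x = 1 ↔ y = 1)) := by
    decide
  have c1 := c _ _ (mu_cases (e + 1) g) (mu_cases (e + 1) k)
  have c2 := fun h1 => (ht_iff (e := e) g).2 (mt (ht_iff g).1.1 h1)
  have m := h _ (mul_mem hg hk)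
  rw [← mu_mul] at c1
  by_cases h1 : mu (e + 1) g = 1 <;> by_cases h2 : mu (e + 1) k = 1
  · exact z ((m.1 (c1.2 (iff_of_true h1 h2))).1.symm.trans (congrArg g ((h k hk).1 h2).1))
      ((h g hg).1 h1).1 (by rw [(ht_iff g).1.2 h1])
  · exact z ((m.2 fun e => h2 ((c1.1 e).1 h1)).2.symm.trans (congrArg g ((h k hk).2 h2).2))
      ((h g hg).1 h1).1 (by rw [(ht_iff g).1.2 h1])
  · exact z ((m.2 fun e => h1 ((c1.1 e).2 h2)).2.symm.trans (congrArg g ((h k hk).1 h2).2))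
      ((h g hg).2 h1).2 (by rw [c2 h1, mul_neg, neg_mul])
  · exact z ((m.1 (c1.2 (iff_of_false h1 h2))).1.symm.trans (congrArg g ((h k hk).2 h2).1))
      ((h g hg).2 h1).2 (by rw [c2 h1, mul_neg, neg_mul])

theorem rq_of (ha : a ≠ 0) (hb : b ≠ 0) (h1 : ∀ g ∈ D, mu (e + 1) g = 1 → g (a ^ 3) = a ^ 3)
    (h2 : ∀ g ∈ D, mu (e + 1) g ≠ 1 → g (a ^ 3) = b ^ 3) (hab : Fx D (a * b)) :
    ∃ κ, Kc e D κ ∧ Rq e D κ a b := by
  obtain ⟨κ, hκ⟩ : ∃ κ : Gam → F3, ∀ g, κ g = Kt.ex (if mu (e + 1) g = 1 then g a else g b) a :=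
    ⟨_, fun _ => rfl⟩
  have z : ∀ {x y : Qbar} {t : F3}, x * y = a * b → x = zt t * a → y = zt (-t) * b := by
    intro x y t k1 k2
    refine mul_left_cancel₀ (mul_ne_zero (zt_ne t) ha) ?_
    rw [← k2, k1, k2, mul_mul_mul_comm, ← zt_add, add_neg_cancel, zt_zero, one_mul]
  have R : Rq e D κ a b := fun g hg => by
    have fx := (map_mul g a b).symm.trans (hab g hg)
    refine ⟨fun k => ?_, fun k => ?_⟩
    · have k1 : g a = zt (κ g) * a := by
        rw [hκ, if_pos k]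
        exact Kt.ex_spec ((map_pow g a 3).symm.trans (h1 g hg k))
      exact ⟨k1, z fx k1⟩
    · have k1 : g b = zt (κ g) * a := by
        rw [hκ, if_neg k]
        refine Kt.ex_spec (mul_right_cancel₀ (pow_ne_zero 3 hb) ?_)
        rw [← mul_pow a, ← fx, ← h2 g hg k, map_pow, ← mul_pow, mul_comm]
      exact ⟨z ((mul_comm _ _).trans fx) k1, k1⟩
  exact ⟨κ, ⟨(((sm_mu (e + 1) D).comp₂ (B2.sm_apply a) Prod.mk).comp₂ (B2.sm_apply b)
    fun s t => Kt.ex (if s.1 = 1 then s.2 else t) a).congr fun g _ => (hκ g).symm,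
    fun g hg k hk => R.mul_eq ha hg hk⟩, R⟩

theorem cb_of_sub (h : Kc e D v) (k : ∀ g ∈ D, mu (e + 1) g = 1 → v g = 0) :
    ∃ x : F3, ∀ g ∈ D, v g = x * (mu e g - 1) := by
  by_cases ht : ∀ t ∈ D, mu (e + 1) t = 1
  · exact ⟨0, fun g hg => by rw [k g hg (ht g hg), zero_mul]⟩
  obtain ⟨t, tD, ht⟩ : ∃ t ∈ D, mu (e + 1) t = -1 := by
    by_contra! c
    exact ht fun t m => (mu_cases _ t).resolve_right (c t m)
  have h1 : ∀ g ∈ D, mu (e + 1) g = -1 → v g = v t := fun g hg m => by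
    have c := mul_mem (inv_mem tD) hg
    have := h.2 t tD _ c
    rwa [mul_inv_cancel_left, k _ c (by rw [mu_mul, mu_inv, ht, m]; decide), mul_zero,
      add_zero] at this
  refine ⟨v t, fun g hg => ?_⟩
  rcases mu_cases (e + 1) g with m | m
  · have := h.2 g hg t tD
    rw [h1 _ (mul_mem hg tD) (by rw [mu_mul, m, ht, one_mul]), k g hg m] at this
    rw [k g hg m]
    linear_combination this
  · have := h.2 g hg g hg
    rw [k _ (mul_mem hg hg) (by rw [mu_mul, m]; decide), h1 g hg m] at this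
    rw [h1 g hg m]
    linear_combination this + v t * (by decide : (3 : F3) = 0)

end Pool.Agent.Lib.MP_696deb_nt.CU.CV.CR
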