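import Pool.Agent.Lib.MP_696deb_nt.CR.Ch
import Pool.Agent.Lib.MP_696deb_nt.CR.Rq

/-! The local classes away from three. -/

set_option autoImplicit false
set_option linter.unusedSectionVars false

open scoped Classical
open Finset Module

namespace Pool.Agent.Lib.MP_696deb_nt.CU.CV.CR

open Kt (zt zt_add zt_zero zt_ne smul_zt zt_inj zt_cube exists_zt)

variable [δ : Qd] {q : ℕ} {d : ℤ} {r : Qbar}

theorem ev_pts {l : ℕ} (p : Fin l → Gam) (h1 : ∀ i, mu 1 (p i) = 1)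
    (h2 : ∀ k, Kc 1 (Gq q) k → (∀ i, k (p i) = 0) → Cb false q k) : Ev q l :=
  ⟨LinearMap.pi fun i => LinearMap.proj (p i), fun k hk e => h2 k hk (congrFun e),
    funext fun i => sub_eq_zero.2 (h1 i)⟩

theorem ev_un (hq : q.Prime) (h3 : q ≠ 3) (hu : Un q) {k : Gam → F3} (hk : Kc 1 (Gq q) k)
    (h0 : Tr 0 q → k (sq q) = 0) (h1 : Tr 1 q → k (fq q) = 0) : Cb false q k := by
  have a : k (sq q) = 0 := by
    by_cases h : Tr 0 q
    · exact h0 h
    · exact kc_ev hk hq h3 hu fun e => h ((tr_iff hq h3 hu).2 (mu_add_two 0 ▸ e))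
  by_cases h : Tr 1 q
  · exact ⟨0, fun g hg => by rw [kc_det hk hq h3 hu a (h1 h) hg, zero_mul]⟩
  have b : mu 1 (fq q) = -1 := (mu_cases 1 _).resolve_left fun e => h ((tr_iff hq h3 hu).2 e)
  refine ⟨k (fq q), fun g hg => sub_eq_zero.1 (kc_det (hk.sub ((kc_mu 1 _).smul (k (fq q))))
    hq h3 hu ?_ ?_ hg)⟩
  · simp only [Pi.sub_apply, a, mu_un hq h3 hu (sq_ine hq h3), sub_self, mul_zero]
  · simp only [Pi.sub_apply, b]
    generalize k (fq q) = x
    revert x
    decide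

theorem ev_ram (hq : q.Prime) (h3 : q ≠ 3) {t : Gam} (ht : t ∈ Iq q) (h : mu 2 t ≠ 1)
    {k : Gam → F3} (hk : Kc 1 (Gq q) k) : Cb false q k := by
  obtain ⟨a, b, a0, b0, hr⟩ := exists_rq (B2.closed_Dec _) hk ⟨t, ht.1, h⟩
  have c0 : a / b ≠ 0 := div_ne_zero a0 b0
  have e1 : ∀ g ∈ Gq q, mu 2 g = 1 → g (a / b) = zt (-k g) * (a / b) := fun g hg e => by
    obtain ⟨u, v⟩ := (hr g hg).1 e
    have : zt (k g) = zt (-k g) * zt (-k g) := by
      rw [← zt_add]
      generalize k g = x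
      congr 1
      revert x
      decide
    rw [map_div₀, u, v, this]
    field_simp [zt_ne]
  have e2 : ∀ g ∈ Gq q, mu 2 g = 1 → g ((a / b) ^ 3) = (a / b) ^ 3 := fun g hg e => by
    rw [map_pow, e1 g hg e, mul_pow, zt_cube, one_mul]
  have e3 : t ((a / b) ^ 3) = ((a / b) ^ 3)⁻¹ := by
    obtain ⟨u, v⟩ := (hr t ht.1).2 h
    rw [map_pow, map_div₀, u, v, div_pow, mul_pow, mul_pow, zt_cube, zt_cube, one_mul, one_mul,
      div_pow, inv_div]
  generalize a / b = c at c0 e1 e2 e3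
  have β0 : c ^ 3 ≠ 0 := pow_ne_zero _ c0
  have v1 : (pl q).V (c ^ 3) = 1 := by
    have k0 := (B2.b3a_pos (pl q) β0).ne'
    have k1 : (pl q).V (c ^ 3) ^ 2 = 1 := by
      have k2 := B2.mem_Dec.1 ht.1 (c ^ 3)
      rw [e3, map_inv₀] at k2
      rw [pow_two]
      nth_rw 1 [← k2]
      exact inv_mul_cancel₀ k0
    exact (pow_eq_one_iff_of_nonneg zero_le two_ne_zero).1 k1
  have v2 : (pl q).V ((c ^ 3) ^ 2 - 1) < (pl q).V 9 := by
    have k1 := ht.2 _ v1.le
    have k2 : (pl q).V (9 : ℤ) = 1 := (pl q).V_int_eq_one.2 fun e => h3 (by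
      rw [pl_p hq] at e
      exact (Nat.prime_dvd_prime_iff_eq hq Nat.prime_three).1
        (hq.dvd_of_dvd_pow (n := 2) (by exact_mod_cast e)))
    rw [e3] at k1
    rw [show (9 : Qbar) = (9 : ℤ) by norm_num, k2,
      show (c ^ 3) ^ 2 - 1 = -(c ^ 3 * ((c ^ 3)⁻¹ - c ^ 3)) by field_simp; ring,
      Valuation.map_neg, map_mul, v1, one_mul]
    exact k1
  obtain ⟨s, s1, s2, -⟩ := H3.exists_cbrt (D := Gq q ⊓ MulAction.stabilizer Gam ((c ^ 3) ^ 2))
    inf_le_left (fun g hg => hg.2) v2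
  have s0 : s ≠ 0 := fun e => pow_ne_zero 2 β0 (by rw [← s2, e, zero_pow three_ne_zero])
  obtain ⟨x, hx⟩ := exists_zt (x := s / c ^ 2) (by
    rw [div_pow, s2, ← pow_mul, ← pow_mul, div_self (pow_ne_zero _ c0)])
  obtain ⟨y, hy⟩ := cb_of_sub (hk.add ((kc_mu 1 _).smul x)) fun g hg e => by
    have k1 : g s = s := s1 g ⟨hg, by
      change g _ = _
      rw [map_pow, e2 g hg e]⟩
    have k2 := congrArg g hx
    rw [map_div₀, k1, map_pow, e1 g hg e, smul_zt, mul_pow, pow_two (zt _), ← zt_add,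
      div_eq_iff (mul_ne_zero (zt_ne _) (pow_ne_zero _ c0)), ← mul_assoc, ← zt_add,
      ← div_eq_iff (pow_ne_zero _ c0), hx] at k2
    have k3 : x = chi g * x + (-k g + -k g) := zt_inj k2
    have k4 : mu 1 g = chi g := by rw [← mu_mul_succ 1 g, e, mul_one]
    have k5 : ∀ x z w : F3, x = w * x + (-z + -z) → z + x * (w - 1) = 0 := by decide
    simp only [Pi.add_apply, k4]
    exact k5 _ _ _ k3
  exact ⟨y - x, fun g hg => by
    have := hy g hg
    simp only [Pi.add_apply] at this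
    change k g = (y - x) * (mu 1 g - 1)
    linear_combination this⟩

theorem ev_tame (N : Nf d r) (hq : q.Prime) (h3 : q ≠ 3) : Ev q (dq q) := by
  rw [dq, if_neg h3, hz, hz]
  by_cases hU : Ur d q
  · have hu := N.un hq hU
    have a := mu_un hq h3 hu (sq_ine hq h3) 1
    have b := (tr_iff (e := 1) hq h3 hu).1
    split_ifs with h0 h1 h1
    · exact ev_pts ![sq q, fq q] (Fin.forall_fin_two.2 ⟨a, b h1⟩) fun k hk e =>
        ev_un hq h3 hu hk (fun _ => e 0) fun _ => e 1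
    · exact ev_pts (fun _ => sq q) (fun _ => a) fun k hk e =>
        ev_un hq h3 hu hk (fun _ => e 0) fun h => absurd h h1
    · exact ev_pts (fun _ => fq q) (fun _ => b h1) fun k hk e =>
        ev_un hq h3 hu hk (fun h => absurd h h0) fun _ => e 0
    · exact ev_pts Fin.elim0 (fun i => i.elim0) fun k hk _ =>
        ev_un hq h3 hu hk (fun h => absurd h h0) fun h => absurd h h1
  · obtain ⟨t, ht, e⟩ := N.ram hq hU
    have a : ∀ j, mu j t ≠ 1 := fun j => by
      rw [mu, e, chi_ine hq h3 ht, one_pow, mul_one]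
      decide
    rw [if_neg fun h : Tr 0 q => a 0 (h t ht.1), if_neg fun h : Tr 1 q => a 1 (h t ht.1)]
    exact ev_pts Fin.elim0 (fun i => i.elim0) fun k hk _ => ev_ram hq h3 ht (a 2) hk

end Pool.Agent.Lib.MP_696deb_nt.CU.CV.CR
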