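import Pool.Agent.Lib.MP_696deb_nt.CR.Ld

/-! Local coordinates. -/

set_option autoImplicit false
set_option linter.unusedSectionVars false

open scoped Classical
open Finset Module

namespace Pool.Agent.Lib.MP_696deb_nt.CU.CV.CR

variable [δ : Qd] {q d : ℕ}

/-- A generalised inverse of a linear map. -/
theorem gr_sec {K V W : Type*} [Field K] [AddCommGroup V] [Module K V] [AddCommGroup W]
    [Module K W] (f : V →ₗ[K] W) : ∃ s : W →ₗ[K] V, ∀ x, f (s (f x)) = f x := by
  obtain ⟨g, hg⟩ := f.rangeRestrict.exists_rightInverse_of_surjective f.range_rangeRestrict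
  obtain ⟨s, hs⟩ := g.exists_extend
  refine ⟨s, fun x => ?_⟩
  have h1 : s (f x) = g (f.rangeRestrict x) := LinearMap.congr_fun hs (f.rangeRestrict x)
  rw [h1]
  exact congrArg Subtype.val (LinearMap.congr_fun hg (f.rangeRestrict x))

/-- The local cocycles. -/
def grC (e q : ℕ) : Submodule F3 (Gam → F3) where
  carrier := {u | Kc e (Gq q) u}
  zero_mem' := Kc.zero _ _
  add_mem' := fun h h' => Kc.add h h'
  smul_mem' a _ h := Kc.smul h a

/-- The local coboundaries. -/
def grN (j : Bool) (q : ℕ) : Submodule F3 (Gam → F3) where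
  carrier := {u | Cb j q u}
  zero_mem' := ⟨0, fun _ _ => (zero_mul _).symm⟩
  add_mem' := fun ⟨x, hx⟩ ⟨y, hy⟩ => ⟨x + y, fun g hg => by
    rw [Pi.add_apply, hx g hg, hy g hg, add_mul]⟩
  smul_mem' := fun a _ ⟨x, hx⟩ => ⟨a * x, fun g hg => by
    rw [Pi.smul_apply, hx g hg, smul_eq_mul, mul_assoc]⟩

/-- The local pairing as a bilinear map. -/
noncomputable def grB (q : ℕ) : grC 0 q →ₗ[F3] grC 1 q →ₗ[F3] F3 :=
  LinearMap.mk₂ F3 (fun u k => lp q u.1 k.1) (fun u u' k => lp_add_left u.2 u'.2 k.2)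
    (fun a u k => lp_smul_left u.2 k.2 a) (fun u k k' => lp_add_right u.2 k.2 k'.2)
    fun a u k => lp_smul_right u.2 k.2 a

theorem gr_cb {u k : Gam → F3} (hu : Kc 0 (Gq q) u) (h : Cb false q k) : lp q u k = 0 := by
  obtain ⟨x, hx⟩ := h
  rw [lp_congr (fun _ _ => rfl) hx]
  exact (lp_smul_right hu (kc_mu 1 _) x).trans (by rw [lp_mu hu, mul_zero])

theorem gram_of_ev (h : Ev q d) : ∃ co, Gram q d co := by
  obtain ⟨ev, h1, h2⟩ := h
  obtain ⟨s, hs⟩ := gr_sec (ev.domRestrict (grC 1 q))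
  obtain ⟨t, ht⟩ := (LinearMap.pi fun i : Fin d =>
    (grB q).flip (s (Pi.single i 1))).exists_extend
  have h3 : ∀ (u : grC 0 q) i, t u.1 i = grB q u (s (Pi.single i 1)) := fun u i =>
    congrFun (LinearMap.congr_fun ht u) i
  have h4 : ∀ (u : grC 0 q) (k : grC 1 q), grB q u k = t u.1 ⬝ᵥ ev k.1 := fun u k => by
    have e1 : grB q u (k - s (ev k.1)) = 0 := gr_cb u.2 (h1 _ (k - s (ev k.1)).2 (by
      have := hs k
      rw [LinearMap.domRestrict_apply, LinearMap.domRestrict_apply] at this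
      rw [Submodule.coe_sub, map_sub, this, sub_self]))
    rw [map_sub, sub_eq_zero] at e1
    rw [e1, dotProduct]
    conv_lhs => rw [pi_eq_sum_univ' (ev k.1)]
    simp only [map_sum, map_smul, h3, smul_eq_mul, mul_comm]
  refine ⟨fun j => cond j t ev, fun u k hu hk => h4 ⟨u, hu⟩ ⟨k, hk⟩, fun j u hu h0 => ?_,
    fun j => ?_⟩
  · cases j
    · exact h1 u hu h0
    · refine ld hu fun k hk => (h4 ⟨u, hu⟩ ⟨k, hk⟩).trans ?_
      have h5 : t u = 0 := h0
      rw [h5, zero_dotProduct]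
  · cases j
    · exact h2
    · exact funext fun i => (h3 ⟨_, kc_mu 0 _⟩ i).trans (lp_mu' (s (Pi.single i 1)).2)

theorem ev_of_span (v : Fin d → Gam → F3) (h : ∀ k, Kc 1 (Gq q) k →
    ∃ x : Fin d → F3, Cb false q (k - ∑ i, x i • v i)) : Ev q d := by
  obtain ⟨s, hs⟩ := gr_sec ((grN false q).mkQ ∘ₗ Fintype.linearCombination F3 v)
  refine ⟨s ∘ₗ (grN false q).mkQ, fun k hk h0 => ?_, ?_⟩
  · obtain ⟨x, hx⟩ := h k hk
    have e1 : (grN false q).mkQ k =
        ((grN false q).mkQ ∘ₗ Fintype.linearCombination F3 v) x := by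
      rw [LinearMap.comp_apply, Fintype.linearCombination_apply]
      exact (Submodule.Quotient.eq _).2 hx
    have e2 := hs x
    rw [← e1, ← LinearMap.comp_apply s, h0, map_zero] at e2
    exact (Submodule.Quotient.mk_eq_zero (grN false q)).1 e2.symm
  · have e1 : (grN false q).mkQ (bd false) = 0 :=
      (Submodule.Quotient.mk_eq_zero _).2 ⟨1, fun _ _ => (one_mul _).symm⟩
    rw [LinearMap.comp_apply, e1, map_zero]

end Pool.Agent.Lib.MP_696deb_nt.CU.CV.CR
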