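import Pool.Agent.Lib.MP_696deb_nt.CR.Ch
import Pool.Agent.Lib.MP_696deb_nt.CR.Rq
import Pool.Agent.Lib.MP_696deb_nt.CR.Gr
import Pool.Agent.Lib.MP_696deb_nt.CP.H0

/-! The local classes at three. -/

set_option autoImplicit false
set_option linter.unusedSectionVars false

open scoped Classical
open Finset Module

namespace Pool.Agent.Lib.MP_696deb_nt.CU.CV.CR

open Kt (zt zt_add zt_zero zt_ne smul_zt zt_inj zt_cube exists_zt zt_pow)

theorem ev3_pos : 0 < (pl 3).V 3 := (Valuation.pos_iff _).2 (by norm_num)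

/-- The values of the numbers that are fixed by inertia are powers of three. -/
theorem ev3_le {x : Qbar} (hx : Fx (Iq 3) x) (h : (pl 3).V x < 1) : (pl 3).V (x / 3) ≤ 1 := by
  rcases eq_or_ne x 0 with rfl | x0
  · simp
  obtain ⟨k, hk⟩ := B2.V_of_fx_ine hx x0
  have h3 : (pl 3).V 3 = 3⁻¹ := by simpa [CP.c0_p] using (pl 3).hV
  rw [CP.c0_p, Nat.cast_ofNat] at hk
  rw [hk, inv_lt_one₀ (by positivity), one_lt_zpow_iff_right₀ (by norm_num)] at h
  rw [map_div₀, hk, h3, inv_div_inv, div_le_one (by positivity)]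
  exact (zpow_one _).symm.trans_le (zpow_le_zpow_right₀ (by norm_num) h)

theorem ev3_small {x y : Qbar} (hx : (pl 3).V x < 1) (hy : (pl 3).V y ≤ 1) :
    (pl 3).V (x + 3 * y) < 1 :=
  (pl 3).V.map_add_lt hx (by
    rw [map_mul]
    exact mul_lt_one_of_lt_of_le CP.c0_three hy)

theorem ev3_unit {y : Qbar} (hy : (pl 3).V y ≤ 1) : (pl 3).V (1 + 3 * y) = 1 :=
  (pl 3).V.map_one_add_of_lt (by simpa using ev3_small (x := 0) (by simp) hy)

/-- In an unramified extension the units that are one modulo nine are cubes. -/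
theorem ev3_cube {H : Subgroup Gam} (h1 : Iq 3 ≤ H) (h2 : H ≤ Gq 3) {x : Qbar} (hx : Fx H x)
    (h : (pl 3).V ((x - 1) / 3) < 1) : ∃ y, Fx H y ∧ y ^ 3 = x := by
  obtain ⟨w, hw⟩ : ∃ w, w = (x - 1) / 3 / 3 := ⟨_, rfl⟩
  have w1 : (pl 3).V w ≤ 1 := hw ▸ ev3_le (fun g hg => by
    rw [map_div₀, map_sub, hx g (h1 hg), map_one, map_ofNat]) h
  have w2 : Fx H (1 + 3 * w) := fun g hg => by
    rw [hw, map_add, map_mul, map_div₀, map_div₀, map_sub, hx g hg, map_one, map_ofNat]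
  have w3 := ev3_unit w1
  have w4 : 1 + 3 * w ≠ 0 := fun e => by simp [e] at w3
  obtain ⟨y, y1, y2, -⟩ := H3.exists_cbrt (w := pl 3) h2 (a := x / (1 + 3 * w) ^ 3)
    (fun g hg => by rw [map_div₀, map_pow, hx g hg, w2 g hg]) (by
      rw [div_sub_one (pow_ne_zero 3 w4), map_div₀, map_pow, w3, one_pow, div_one,
        show x - (1 + 3 * w) ^ 3 = 9 * (0 + 3 * (-(w * (w * (1 + w))))) by
          rw [show x = 1 + 9 * w by rw [hw]; ring]; ring, map_mul]
      refine mul_lt_of_lt_one_right (H3.l3a_nine CP.c0_p).2.1 (ev3_small (by simp) ?_)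
      rw [Valuation.map_neg, map_mul, map_mul]
      exact mul_le_one' w1 (mul_le_one' w1 ((pl 3).V.map_add_le (by simp) w1)))
  exact ⟨y * (1 + 3 * w), fun g hg => by rw [map_mul, y1 g hg, w2 g hg], by
    rw [mul_pow, y2, div_mul_cancel₀ _ (pow_ne_zero 3 w4)]⟩

/-- The units of norm one of the unramified quadratic extension. -/
theorem ev3_key {i β : Qbar} {m : ℤ} (hi : i ^ 2 = m) (hm : 27 ∣ m + 1) (b0 : β ≠ 0)
    (h1 : Fx (Iq 3) β) (h2 : fq 3 β = β⁻¹) :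
    ∃ j : ℕ, (pl 3).V ((β ^ 4 * ((1 + 3 * i) / (1 + 3 * -i)) ^ j - 1) / 3) < 1 := by
  have fr := fq_frob Nat.prime_three
  have i1 : (pl 3).V i ≤ 1 :=
    (pow_le_one_iff_of_nonneg zero_le two_ne_zero).1 (by
      rw [← map_pow, hi]
      exact (pl 3).V_int_le m)
  have u1 := ev3_unit (y := -i) (by rwa [Valuation.map_neg])
  have u0 : 1 + 3 * -i ≠ 0 := (Valuation.ne_zero_iff _).1 (u1 ▸ one_ne_zero)
  have b1 : (pl 3).V β = 1 := by
    have := B2.mem_Dec.1 fr.1 β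
    rw [h2, map_inv₀, inv_eq_iff_eq_inv, ← one_div,
      eq_div_iff ((Valuation.ne_zero_iff _).2 b0), ← pow_two] at this
    exact (pow_eq_one_iff_of_nonneg zero_le two_ne_zero).1 this
  have b2 : (pl 3).V (β ^ 4 - 1) < 1 := by
    have := fr.2 β b1.le
    rw [h2, (pl 3).V.map_sub_swap] at this
    rw [show β ^ 4 - 1 = β * (β ^ 3 - β⁻¹) by field_simp, map_mul, b1, one_mul]
    exact this
  obtain ⟨z, hz⟩ : ∃ z, z = (β ^ 4 - 1) / 3 := ⟨_, rfl⟩
  have z1 : (pl 3).V z ≤ 1 := hz ▸ ev3_le (fun g hg => by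
    rw [map_sub, map_pow, h1 g hg, map_one]) b2
  have z2 : β ^ 4 = 1 + 3 * z := by rw [hz]; ring
  have z3 : fq 3 z * β ^ 4 = -z := by
    rw [hz, map_div₀, map_sub, map_pow, h2, map_one, map_ofNat]
    field_simp
    ring
  obtain ⟨c, hc⟩ := hm
  have m1 : i ^ 2 = 27 * c - 1 := by
    rw [hi, eq_sub_of_add_eq hc]
    push_cast
    ring
  have le : ∀ {x y : Qbar}, (pl 3).V x ≤ 1 → (pl 3).V y ≤ 1 → (pl 3).V (x * y) ≤ 1 :=
    fun hx hy => by
      rw [map_mul]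
      exact mul_le_one' hx hy
  have z4 : (pl 3).V (z * (z - i) * (z + i)) < 1 := by
    have k := fr.2 z z1
    rw [show z * (z - i) * (z + i) = -(fq 3 z - z ^ 3) * β ^ 4 +
      3 * (-(z * (z * (z * z)) + (9 * c : ℤ) * z)) by
        push_cast
        linear_combination z3 + z ^ 3 * (-1) * z2 - z * m1]
    refine ev3_small ?_ ?_
    · rwa [map_mul, map_pow, b1, one_pow, mul_one, Valuation.map_neg]
    · rw [Valuation.map_neg]
      exact (pl 3).V.map_add_le (le z1 (le z1 (le z1 z1))) (le ((pl 3).V_int_le _) z1)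
  rw [z2]
  by_cases k0 : (pl 3).V z < 1
  · exact ⟨0, by simpa using k0⟩
  by_cases k1 : (pl 3).V (z - i) < 1
  · refine ⟨1, ?_⟩
    rw [show ((1 + 3 * z) * ((1 + 3 * i) / (1 + 3 * -i)) ^ 1 - 1) / 3 =
      (z - i + 3 * (i + z * i)) / (1 + 3 * -i) by
        rw [pow_one, ← mul_div_assoc, div_sub_one u0]
        ring, map_div₀, u1, div_one]
    exact ev3_small k1 ((pl 3).V.map_add_le i1 (le z1 i1))
  have k2 : (pl 3).V (z + i) < 1 := by
    by_contra k2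
    rw [map_mul, map_mul] at z4
    exact absurd z4 (not_lt.2 (one_le_mul (one_le_mul (not_lt.1 k0) (not_lt.1 k1)) (not_lt.1 k2)))
  refine ⟨2, ?_⟩
  rw [show ((1 + 3 * z) * ((1 + 3 * i) / (1 + 3 * -i)) ^ 2 - 1) / 3 =
    (z + i + 3 * (i + z * (i * (1 + (1 + 3 * i))))) / (1 + 3 * -i) ^ 2 by
      rw [div_pow, ← mul_div_assoc, div_sub_one (pow_ne_zero 2 u0)]
      ring, map_div₀, map_pow, u1, one_pow, div_one]
  exact ev3_small k2 ((pl 3).V.map_add_le i1 (le z1 (le i1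
    ((pl 3).V.map_add_le (by simp) (ev3_unit i1).le))))

variable [δ : Qd] {d : ℤ} {r : Qbar}

theorem ev3_mu (g : Gam) : mu (1 + 1) g = de g := (congrFun (mu_add_two 0) g).trans (mu_zero g)

theorem ev3_split (h : Tr 0 3) : Ev 3 2 := by
  have h1 : ∀ g ∈ Gq 3, mu 1 g = chi g ^ 1 := fun g hg => mu_HD ((mu_zero g).symm.trans (h g hg)) 1
  refine ev_of_span ![kk 2, kk 3] fun k hk => ?_
  obtain ⟨i, j, x, hx⟩ := CP.h0_span ((kc_iff h1).1 hk)
  refine ⟨![i, j], x, fun g hg => ?_⟩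
  rw [sd_false, h1 g hg, Fin.sum_univ_two, Pi.sub_apply, hx g hg]
  simp

theorem ev3_inert (N : Nf d r) (h : d % 3 ≠ 1) : Ev 3 1 := by
  obtain ⟨i, m, hi, hm, hd, hf⟩ := N.eta h
  have f1 := fq_mem Nat.prime_three
  have f2 : mu (1 + 1) (fq 3) ≠ 1 := by rw [ev3_mu, hf]; decide
  have I : Iq 3 ≤ Gq 3 ⊓ HD := fun g hg => ⟨B2.Ine_le _ hg, N.un_three g hg⟩
  have i1 : (pl 3).V i ≤ 1 :=
    (pow_le_one_iff_of_nonneg zero_le two_ne_zero).1 (by
      rw [← map_pow, hi]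
      exact (pl 3).V_int_le m)
  have u0 : ∀ y : Qbar, (pl 3).V y ≤ 1 → 1 + 3 * y ≠ 0 := fun y hy e => by
    simpa [e] using ev3_unit hy
  obtain ⟨ν, hν⟩ : ∃ ν, ν = (1 + 3 * i) / (1 + 3 * -i) := ⟨_, rfl⟩
  have n0 : ν ≠ 0 := hν ▸ div_ne_zero (u0 _ i1) (u0 _ (by rwa [Valuation.map_neg]))
  have n1 : ∀ g, de g = 1 → g ν = ν := fun g hg => by
    rw [hd, dr_eq_one] at hg
    simp only [hν, map_div₀, map_add, map_mul, map_neg, map_one, map_ofNat, hg]
  have n2 : ∀ g, de g ≠ 1 → g ν = ν⁻¹ := fun g hg => by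
    rw [hd, Ne, dr_eq_one] at hg
    simp only [hν, map_div₀, map_add, map_mul, map_neg, map_one, map_ofNat,
      (sq_cases hi g).resolve_left hg, neg_neg, inv_div]
  obtain ⟨c, hc⟩ := IsAlgClosed.exists_pow_nat_eq ν three_pos
  have c0 : c ≠ 0 := fun e => n0 (by rw [← hc, e, zero_pow three_ne_zero])
  obtain ⟨v, v1, v2⟩ := rq_of (e := 1) (D := Gq 3) c0 (inv_ne_zero c0)
    (fun g _ k => by rw [hc, n1 g (ev3_mu g ▸ k)])
    (fun g _ k => by rw [inv_pow, hc, n2 g (ev3_mu g ▸ k)])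
    (fun g _ => by rw [mul_inv_cancel₀ c0, map_one])
  refine ev_of_span (fun _ => v) fun k hk => ?_
  obtain ⟨a, b, a0, b0, R⟩ := exists_rq (B2.closed_Dec _) hk ⟨_, f1, f2⟩
  have β0 : (a / b) ^ 3 ≠ 0 := pow_ne_zero 3 (div_ne_zero a0 b0)
  have r1 : ∀ g ∈ Gq 3, mu (1 + 1) g = 1 → g (a / b) = zt (-k g) * (a / b) := fun g hg l => by
    have e : zt (k g) = zt (-k g) * zt (-k g) := by
      rw [← zt_add, (by decide : ∀ t : F3, -t + -t = t)]
    rw [map_div₀, ((R g hg).1 l).1, ((R g hg).1 l).2, e, mul_assoc, mul_div_mul_left _ _ (zt_ne _),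
      mul_div_assoc]
  have β1 : Fx (Gq 3 ⊓ HD) ((a / b) ^ 3) := fun g hg => by
    rw [map_pow, r1 g hg.1 ((ev3_mu g).trans hg.2), mul_pow, zt_cube, one_mul]
  obtain ⟨j, hj⟩ := ev3_key hi hm β0 (fun g hg => β1 g (I hg)) (by
    rw [map_pow, map_div₀, ((R _ f1).2 f2).1, ((R _ f1).2 f2).2, div_pow, mul_pow, mul_pow,
      zt_cube, zt_cube, one_mul, one_mul, div_pow, inv_div])
  rw [← hν] at hj
  obtain ⟨y, y1, y2⟩ := ev3_cube I inf_le_left (fun g hg => by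
    rw [map_mul, map_pow, β1 g hg, map_pow, n1 g hg.2]) hj
  obtain ⟨s, hs⟩ := exists_zt (x := y / ((a / b) ^ 4 * c ^ j)) (by
    rw [div_pow, y2, mul_pow, pow_right_comm c, hc, pow_right_comm (a / b) 4,
      div_self (mul_ne_zero (pow_ne_zero _ β0) (pow_ne_zero _ n0))])
  have e0 : (a / b) ^ 4 * c ^ j ≠ 0 :=
    mul_ne_zero (pow_ne_zero _ (div_ne_zero a0 b0)) (pow_ne_zero _ c0)
  rw [div_eq_iff e0] at hs
  obtain ⟨x, hx⟩ := cb_of_sub ((hk.sub (v1.smul j)).sub ((kc_mu 1 (Gq 3)).smul s))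
    fun g hg l => by
      have l1 := (ev3_mu g).symm.trans l
      have k1 := y1 g ⟨hg, l1⟩
      rw [hs, map_mul, map_mul, map_pow, map_pow, r1 g hg l, ((v2 g hg).1 l).1, smul_zt, mul_pow,
        mul_pow, zt_pow, zt_pow, mul_mul_mul_comm, ← mul_assoc, ← zt_add, ← zt_add] at k1
      have k2 := zt_inj (mul_right_cancel₀ e0 k1)
      rw [Pi.sub_apply, Pi.sub_apply, mu_HD l1, pow_one]
      change chi g * s + _ = _ at k2
      have k3 : ((4 : ℕ) : F3) = 1 := by decide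
      rw [k3] at k2
      linear_combination -k2
  refine ⟨fun _ => j, x + s, fun g hg => ?_⟩
  have := hx g hg
  rw [Pi.sub_apply, Pi.sub_apply] at this
  rw [sd_false, Fin.sum_univ_one, Pi.sub_apply, Pi.smul_apply, smul_eq_mul]
  linear_combination this

theorem ev_three (N : Nf d r) : Ev 3 (dq 3) := by
  rw [dq, hz, hz, if_neg N.not_tr, if_pos rfl]
  split_ifs with h
  · exact ev3_split h
  · exact ev3_inert N (mt N.tr_three.2 h)

end Pool.Agent.Lib.MP_696deb_nt.CU.CV.CR
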