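import Pool.Agent.Lib.MP_696deb_nt.CR.D0
import Pool.Agent.Lib.MP_23455a_nt.H3.CFc

/-! Units of the quadratic field. -/

set_option autoImplicit false
set_option linter.unusedSectionVars false

open scoped Classical
open Finset Module

namespace Pool.Agent.Lib.MP_696deb_nt.CU.CV.CR

open B2 (Kf Apart Away)
open MP_580eba_nt (mem_ES ES)

theorem glu_su {H : Subgroup Gam} (hH : Op H) {s : Finset Plc} (hs : Apart H s) {N : ℕ}
    (hN : N + 1 ≤ s.card + Nat.card (NumberField.InfinitePlace (Kf H))) : ∃ a : Fin N → Qbar,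
    (∀ i, a i ≠ 0 ∧ Fx H (a i) ∧ ∀ w, Away H s w → w.V (a i) = 1) ∧
    ∀ t : Fin N → F3, (∃ b, Fx H b ∧ ∏ i, a i ^ (t i).val = b ^ 3) → t = 0 := by
  have := B2.nf_Kf hH
  choose u hu using fun w : Plc => B2.exists_un (H := H) w
  have h1 : (s.image u).card = s.card := card_image_of_injOn fun v hv w hw h => by
    obtain ⟨g, hg, e⟩ := B2.Un.conj hH (hu v) (h ▸ hu w)
    exact hs v hv w hw g hg e
  have h3 : 3 ^ N ≤ ((ES (s.image u)).map (powMonoidHom 3)).relIndex (ES (s.image u)) := by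
    refine le_trans (pow_le_pow_right₀ (by norm_num) ?_) (H3.Cub.le_index_ES3 _)
    have h4 : 0 < Fintype.card (NumberField.InfinitePlace (Kf H)) := Fintype.card_pos
    rw [Nat.card_eq_fintype_card] at hN
    rw [NumberField.Units.rank]
    omega
  obtain ⟨a, ha, hi⟩ := H3.exists_indep3 _ h3
  refine ⟨fun i => ((a i : Kf H) : Qbar), fun i => ⟨?_, B2.fx_Kf _, fun w hw => ?_⟩,
    fun t ht => ?_⟩
  · exact fun h => (a i).ne_zero (Subtype.ext h)
  · refine ((hu w).eq_one _).1 (mem_ES.1 (ha i) _ fun h => ?_)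
    obtain ⟨v, hv, e⟩ := mem_image.1 h
    obtain ⟨g, hg, e'⟩ := B2.Un.conj hH (hu v) (e ▸ hu w)
    exact hw v hv g hg e'
  · obtain ⟨b, hb, e⟩ := ht
    refine hi t (H3.Cub.mem_map_pw3 (Subgroup.prod_mem _ fun i _ => pow_mem (ha i) _)
      ⟨⟨b, B2.b3a_fx.1 hb⟩, Subtype.ext ?_⟩)
    rw [Units.coe_prod, SubmonoidClass.coe_finsetProd]
    exact e

variable [δ : Qd] {n : ℕ}

theorem glu_inf : (if mu 0 cc = 1 then 1 else 0) + 1 ≤
    Nat.card (NumberField.InfinitePlace (Kf HD)) := by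
  have := B2.nf_Kf op_HD
  split_ifs with h
  · obtain ⟨σ, -, hσ⟩ := exists_nt 0
    rw [mu_zero] at h hσ
    have h1 : σ δ.r0 = -δ.r0 := (sq_cases δ.h0 σ).resolve_left fun e => by
      rw [de_eq_one.2 e] at hσ
      exact absurd hσ (by decide)
    have h2 : B2.jC δ.r0 ≠ B2.jC (σ δ.r0) := fun e => r0_ne (by
      have := B2.jC.injective e
      rw [h1] at this
      linear_combination this / 2)
    have : Nontrivial (NumberField.InfinitePlace (Kf HD)) := by
      refine ⟨.mk (B2.jC.comp (Kf HD).subtype),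
        .mk ((B2.jC.comp (σ : Qbar →+* Qbar)).comp (Kf HD).subtype), fun e => h2 ?_⟩
      rcases NumberField.InfinitePlace.mk_eq_iff.1 e with e | e
      · exact RingHom.congr_fun e ⟨δ.r0, B2.b3a_fx.1 fun g hg => de_eq_one.1 hg⟩
      · refine Eq.trans ?_ (RingHom.congr_fun e ⟨δ.r0, B2.b3a_fx.1 fun g hg => de_eq_one.1 hg⟩)
        change _ = starRingEnd ℂ (B2.jC δ.r0)
        rw [← B2.jC_cc, de_eq_one.1 h]
    exact Finite.one_lt_card
  · exact Nat.card_pos

/-- Units of the quadratic field outside of `M n` that are independent modulo cubes. -/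
theorem units (hn : n ≠ 0) : ∃ (N : ℕ) (a : Fin N → Qbar),
    N = (MM * n).primeFactors.card + ∑ q ∈ (MM * n).primeFactors, hz 0 q +
      (if mu 0 cc = 1 then 1 else 0) ∧
    (∀ i, a i ≠ 0 ∧ Fx HD (a i) ∧ ∀ w : Plc, ¬ w.p ∣ MM * n → w.V (a i) = 1) ∧
    ∀ t : Fin N → F3, (∃ b, Fx HD b ∧ ∏ i, a i ^ (t i).val = b ^ 3) → t = 0 := by
  obtain ⟨σ, -, hσ⟩ := exists_nt 0
  rw [mu_zero] at hσ
  have hp : ∀ q ∈ (MM * n).primeFactors, (pl q).p = q := fun q hq =>
    pl_p (Nat.prime_of_mem_primeFactors hq)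
  let T := (MM * n).primeFactors.filter (Tr 0)
  have hT : ∀ q ∈ T, (σ • pl q).p = q := fun q hq => hp q (mem_filter.1 hq).1
  have k : ∀ p ∈ (MM * n).primeFactors, ∀ q ∈ T, ∀ g ∈ HD, g • pl p ≠ σ • pl q :=
    fun p h q h' g hg e => by
      have e1 : p = q := (hp p h).symm.trans ((congrArg (·.p) e).trans (hT q h'))
      subst e1
      have := (mem_filter.1 h').2 (σ⁻¹ * g) (show (σ⁻¹ * g) • pl p = pl p by
        rw [mul_smul, e, inv_smul_smul])
      rw [mu_zero, de_mul, de_inv, hσ, mem_HD.1 hg] at this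
      exact absurd this (by decide)
  have c : ((MM * n).primeFactors.image pl ∪ T.image fun q => σ • pl q).card =
      (MM * n).primeFactors.card + ∑ q ∈ (MM * n).primeFactors, hz 0 q := by
    rw [card_union_of_disjoint (disjoint_left.2 fun w h h' => ?_),
      card_image_of_injOn fun p h q h' e => (hp p h).symm.trans ((congrArg (·.p) e).trans (hp q h')),
      card_image_of_injOn fun p h q h' e => (hT p h).symm.trans ((congrArg (·.p) e).trans (hT q h')),
      card_filter]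
    · rfl
    obtain ⟨p, h1, rfl⟩ := mem_image.1 h
    obtain ⟨q, h2, e⟩ := mem_image.1 h'
    exact k p h1 q h2 1 (one_mem _) (by rw [one_smul, e])
  obtain ⟨a, h1, h2⟩ := glu_su op_HD
    (s := (MM * n).primeFactors.image pl ∪ T.image fun q => σ • pl q)
    (N := (MM * n).primeFactors.card + ∑ q ∈ (MM * n).primeFactors, hz 0 q +
      (if mu 0 cc = 1 then 1 else 0)) (fun v hv w hw g hg e => by
      rcases mem_union.1 hv with hv | hv <;> obtain ⟨p, h, rfl⟩ := mem_image.1 hv <;>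
        rcases mem_union.1 hw with hw | hw <;> obtain ⟨q, h', rfl⟩ := mem_image.1 hw
      · rw [(hp p h).symm.trans ((congrArg (·.p) e).trans (hp q h'))]
      · exact absurd e (k p h q h' g hg)
      · exact absurd (by rw [← e, inv_smul_smul]) (k q h' p h g⁻¹ (inv_mem hg))
      · rw [(hT p h).symm.trans ((congrArg (·.p) e).trans (hT q h'))])
    (by rw [c, add_assoc]; exact Nat.add_le_add_left glu_inf _)
  refine ⟨_, a, rfl, fun i => ⟨(h1 i).1, (h1 i).2.1, fun w hw => (h1 i).2.2 w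
    fun v hv g _ e => hw ?_⟩, h2⟩
  rw [← e, B2.smul_p]
  rcases mem_union.1 hv with hv | hv <;> obtain ⟨p, h, rfl⟩ := mem_image.1 hv
  · rw [hp p h]
    exact Nat.dvd_of_mem_primeFactors h
  · rw [hT p h]
    exact Nat.dvd_of_mem_primeFactors (mem_filter.1 h).1

end Pool.Agent.Lib.MP_696deb_nt.CU.CV.CR
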