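import Pool.Agent.Lib.MP_696deb_nt.CR.Rq
import Pool.Agent.Lib.MP_696deb_nt.CR.GlU

/-! Many global classes. -/

set_option autoImplicit false
set_option linter.unusedSectionVars false

open scoped Classical
open Finset Module

namespace Pool.Agent.Lib.MP_696deb_nt.CU.CV.CR

open Kt (zt zt_add zt_zero zt_ne smul_zt zt_cube zt_pow zt_sum)

theorem gl_nat {N : ℕ} (h0 : N ≠ 0) (h : ∀ p : ℕ, p.Prime → 3 ∣ padicValNat p N) :
    ∃ b : ℕ, b ^ 3 = N := by
  refine ⟨∏ p ∈ N.primeFactors, p ^ (N.factorization p / 3), ?_⟩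
  conv_rhs => rw [← Nat.prod_factorization_pow_eq_self h0]
  rw [← prod_pow, Finsupp.prod, Nat.support_factorization]
  refine prod_congr rfl fun p hp => ?_
  have hp' := Nat.prime_of_mem_primeFactors hp
  rw [← pow_mul, Nat.div_mul_cancel (by rw [Nat.factorization_def _ hp']; exact h p hp')]

theorem gl_rat {r : ℚ} (h0 : r ≠ 0) (h : ∀ p : ℕ, p.Prime → 3 ∣ padicValRat p r) :
    ∃ b : ℚ, b ^ 3 = r := by
  have d0 : (r.den : ℚ) ≠ 0 := Nat.cast_ne_zero.2 r.den_nz
  have e : ((r.num * r.den ^ 2 : ℤ) : ℚ) = r * r.den ^ 3 := by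
    push_cast
    rw [← Rat.mul_den_eq_num]
    ring
  have m0 : (r.num * r.den ^ 2 : ℤ) ≠ 0 := by
    rw [← Int.cast_ne_zero (α := ℚ), e]
    exact mul_ne_zero h0 (pow_ne_zero _ d0)
  obtain ⟨b, hb⟩ := gl_nat (Int.natAbs_ne_zero.2 m0) fun p hp => by
    have := Fact.mk hp
    have h1 : padicValRat p ((r.num * r.den ^ 2 : ℤ) : ℚ) =
        padicValRat p r + 3 * padicValRat p r.den := by
      rw [e, padicValRat.mul h0 (pow_ne_zero _ d0), padicValRat.pow]
      rfl
    rw [padicValRat.of_int] at h1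
    refine Int.natCast_dvd_natCast.1 ?_
    change (3 : ℤ) ∣ padicValInt p _
    rw [h1]
    exact dvd_add (h p hp) (dvd_mul_right _ _)
  have h2 : (b : ℤ) ^ 3 = r.num * r.den ^ 2 ∨ (-b : ℤ) ^ 3 = r.num * r.den ^ 2 := by
    have h3 : (b : ℤ) ^ 3 = (r.num * r.den ^ 2 : ℤ).natAbs := by exact_mod_cast hb
    rcases Int.natAbs_eq (r.num * r.den ^ 2) with k | k
    · exact .inl (h3.trans k.symm)
    · exact .inr (by rw [k, ← h3]; ring)
  obtain ⟨a, ha⟩ : ∃ a : ℤ, a ^ 3 = r.num * r.den ^ 2 := h2.elim (⟨_, ·⟩) (⟨_, ·⟩)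
  refine ⟨a / r.den, ?_⟩
  rw [div_pow, div_eq_iff (pow_ne_zero _ d0), ← e, ← ha, Int.cast_pow]

theorem gl_val {ι : Type} (s : Finset ι) {p : ℕ} (hp : p.Prime) {r : ι → ℚ} (h : ∀ i, r i ≠ 0)
    (m : ι → ℕ) : padicValRat p (∏ i ∈ s, r i ^ m i) = ∑ i ∈ s, m i * padicValRat p (r i) := by
  have := Fact.mk hp
  induction s using Finset.induction_on with
  | empty => simp
  | insert i s hi ih =>
    rw [prod_insert hi, sum_insert hi, padicValRat.mul (pow_ne_zero _ (h i))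
      (prod_ne_zero_iff.2 fun j _ => pow_ne_zero _ (h j)), ih, padicValRat.pow]

variable [δ : Qd] {n : ℕ} {σ g : Gam} {a : Qbar}

theorem gl_swap (hσ : σ ∉ HD) (hg : g ∉ HD) (ha : Fx HD a) : g (σ a) = a :=
  ha (g * σ) (mul_mem_HD hg hσ)

theorem gl_conj (hσ : σ ∉ HD) (hg : g ∉ HD) (ha : Fx HD a) : g a = σ a :=
  σ.injective ((gl_swap hg hσ ha).trans (gl_swap hσ hσ ha).symm)

theorem gl_fx (hσ : σ ∉ HD) (ha : Fx HD a) : Fx HD (σ a) := fun g hg =>
  gl_conj (g := g * σ) hσ (fun k => hσ ((mul_mem_cancel_left hg).1 k)) ha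

theorem gl_mu : mu (1 + 1) g = 1 ↔ g ∈ HD := by
  rw [mem_HD, ← mu_zero, ← mu_add_two 0]

/-- The class and the norm of a unit. -/
theorem gl_one (hσ : σ ∉ HD) (a0 : a ≠ 0) (ha : Fx HD a)
    (hv : ∀ w : Plc, ¬ w.p ∣ MM * n → w.V a = 1) : ∃ (κ : Gam → F3) (c : Qbar) (r : ℚ),
      κ ∈ GG n false ∧ c ^ 3 * σ a = a ∧ (∀ g ∈ HD, g c = zt (κ g) * c) ∧ a * σ a = r ∧ r ≠ 0 ∧
        ∀ q : ℕ, q.Prime → ¬ q ∣ MM * n → padicValRat q r = 0 := by
  have b0 : σ a ≠ 0 := (map_ne_zero σ).2 a0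
  have hw : ∀ w : Plc, ¬ w.p ∣ MM * n → w.V (σ a) = 1 := fun w k => by
    have h := hv (σ⁻¹ • w) k
    rwa [B2.smul_V, inv_inv] at h
  obtain ⟨c, hc⟩ : ∃ c : Qbar, c ^ 3 = a / σ a := ⟨_, Kt.cr_cube _⟩
  have c0 : c ≠ 0 := fun k => div_ne_zero a0 b0 (by rw [← hc, k]; norm_num)
  obtain ⟨κ, k1, k2⟩ := rq_of (e := 1) (D := ⊤) c0 (inv_ne_zero c0)
    (fun g _ k => by rw [hc, map_div₀, ha g (gl_mu.1 k), gl_fx hσ ha g (gl_mu.1 k)])
    (fun g _ k => by
      rw [inv_pow, hc, map_div₀, gl_conj hσ (mt gl_mu.2 k) ha, gl_swap hσ (mt gl_mu.2 k) ha,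
        inv_div])
    (fun g _ => by rw [mul_inv_cancel₀ c0, map_one])
  have k3 : ∀ g ∈ HD, g c = zt (κ g) * c := fun g hg => ((k2 g trivial).1 (gl_mu.2 hg)).1
  obtain ⟨r, hr⟩ := B2.fx_top (x := a * σ a) fun g _ => by
    by_cases k : g ∈ HD
    · rw [map_mul, ha g k, gl_fx hσ ha g k]
    · rw [map_mul, gl_conj hσ k ha, gl_swap hσ k ha, mul_comm]
  have r0 : r ≠ 0 := Rat.cast_ne_zero.1 (hr ▸ mul_ne_zero a0 b0)
  refine ⟨κ, c, r, ⟨k1, fun q hq k => ?_⟩, by rw [hc, div_mul_cancel₀ _ b0], k3, hr, r0,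
    fun q hq k => ?_⟩
  · have k' : ¬ q ∣ MM := fun d => k (d.mul_right n)
    have h3 := ne_three k'
    have k4 : ¬ (pl q).p ∣ MM * n := by rwa [pl_p hq]
    refine H3.b4a_zero (m := 1) (e2a_ne hq h3) (sq_ine hq h3) (u := c) ?_
      ((k3 _ (de_ine hq k' (sq_ine hq h3))).trans (mul_comm _ _))
    rw [← pow_eq_one_iff_of_nonneg zero_le three_ne_zero, ← map_pow, hc, map_div₀, hv _ k4,
      hw _ k4, div_one]
  · have k4 : ¬ (pl q).p ∣ MM * n := by rwa [pl_p hq]
    have h := (pl q).V_rat r0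
    rw [← hr, map_mul, hv _ k4, hw _ k4, one_mul, eq_comm, inv_eq_one, ← zpow_zero (_ : NNReal)] at h
    have h5 := zpow_right_injective₀ (zero_lt_one.trans (B2.b3a_p (pl q))) (B2.b3a_p (pl q)).ne' h
    rwa [pl_p hq] at h5

theorem gl_false (hn : n ≠ 0) : ∑ q ∈ (MM * n).primeFactors, hz 0 q +
    (if mu 0 cc = 1 then 1 else 0) + 1 ≤ finrank F3 (GG n false) := by
  obtain ⟨N, a, hN, ha, hi⟩ := units hn
  obtain ⟨σ, -, s1⟩ := exists_nt 0
  have hσ : σ ∉ HD := fun k => by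
    rw [mu_zero, mem_HD.1 k] at s1
    exact absurd s1 (by decide)
  choose κ c r h1 h2 h3 h4 h5 h6 using fun i => gl_one hσ (ha i).1 (ha i).2.1 (ha i).2.2
  have hb : bd false ∈ GG n false := ⟨kc_mu _ _, fun q hq k => by
    have k' : ¬ q ∣ MM := fun d => k (d.mul_right n)
    rw [bd, mu_ine hq k' (sq_ine hq (ne_three k')), sub_self]⟩
  have : Finite (GG n false) := finite_KK hn 1
  have : Module.Finite F3 (GG n false) := Module.Finite.of_finite
  let L : ((Fin N → F3) × F3) →ₗ[F3] GG n false × ((MM * n).primeFactors → F3) :=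
    ((Fintype.linearCombination F3 fun i => (⟨κ i, h1 i⟩ : GG n false)).coprod
      (LinearMap.toSpanSingleton F3 _ ⟨_, hb⟩)).prod
      ((Fintype.linearCombination F3 fun i (q : (MM * n).primeFactors) =>
        (padicValRat q (r i) : F3)).comp (LinearMap.fst _ _ _))
  have hL : Function.Injective L := by
    refine (injective_iff_map_eq_zero L).2 fun ⟨t, x⟩ h => ?_
    have e1 : ∀ g, ∑ i, t i * κ i g + x * (mu 1 g - 1) = 0 := fun g => by
      have k := congrFun (congrArg Subtype.val (congrArg Prod.fst h)) g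
      simpa [L, Fintype.linearCombination_apply, bd, sd_false] using k
    have e2 : ∀ q ∈ (MM * n).primeFactors, ∑ i, t i * (padicValRat q (r i) : F3) = 0 :=
      fun q hq => by
        have k := congrFun (congrArg Prod.snd h) ⟨q, hq⟩
        simpa [L, Fintype.linearCombination_apply] using k
    obtain ⟨s, hs⟩ := gl_rat (r := ∏ i, r i ^ (t i).val)
      (prod_ne_zero_iff.2 fun i _ => pow_ne_zero _ (h5 i)) fun p hp => by
        rw [gl_val _ hp h5]
        by_cases k : p ∣ MM * n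
        · refine (ZMod.intCast_zmod_eq_zero_iff_dvd _ 3).1 ?_
          rw [← e2 p (Nat.mem_primeFactors.2 ⟨hp, k, mul_ne_zero MM_ne hn⟩), Int.cast_sum]
          exact sum_congr rfl fun i _ => by rw [Int.cast_mul, Int.cast_natCast, ZMod.natCast_zmod_val]
        · exact dvd_sum fun i _ => by rw [h6 i p hp k, mul_zero]; exact dvd_zero _
    obtain ⟨A, hA⟩ : ∃ A, A = ∏ i, a i ^ (t i).val := ⟨_, rfl⟩
    obtain ⟨C, hC⟩ : ∃ C, C = (∏ i, c i ^ (t i).val) * zt x := ⟨_, rfl⟩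
    have A0 : A ≠ 0 := hA ▸ prod_ne_zero_iff.2 fun i _ => pow_ne_zero _ (ha i).1
    have fA : Fx HD A := fun g hg => by
      rw [hA, map_prod]
      exact prod_congr rfl fun i _ => by rw [map_pow, (ha i).2.1 g hg]
    have fC : Fx HD C := fun g hg => by
      have k : zt (∑ i, t i * κ i g) * zt (Kt.ch g * x) = zt x := by
        rw [← zt_add]
        have k1 := e1 g
        rw [mu_HD hg, pow_one] at k1
        exact congrArg zt (by change _ + chi g * x = x; linear_combination k1)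
      rw [hC, map_mul, map_prod, smul_zt, ← k, zt_sum, ← mul_assoc, ← prod_mul_distrib]
      congr 1
      exact prod_congr rfl fun i _ => by
        rw [map_pow, h3 i g hg, mul_pow, zt_pow, ZMod.natCast_zmod_val, mul_comm]
    have e3 : C ^ 3 * σ A = A := by
      rw [hC, mul_pow, zt_cube, mul_one, hA, map_prod, ← prod_pow, ← prod_mul_distrib]
      exact prod_congr rfl fun i _ => by rw [map_pow, pow_right_comm, ← mul_pow, h2]
    have e4 : A * σ A = (s : Qbar) ^ 3 := by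
      rw [← Rat.cast_pow, hs, hA, map_prod, ← prod_mul_distrib, Rat.cast_prod]
      exact prod_congr rfl fun i _ => by rw [map_pow, ← mul_pow, h4, Rat.cast_pow]
    have e5 : (C * s) ^ 3 = A ^ 2 := by
      rw [mul_pow, ← e4]
      linear_combination A * e3
    have t0 : t = 0 := hi t ⟨A / (C * s), fun g hg => by
      rw [map_div₀, map_mul, fA g hg, fC g hg, map_ratCast], by
      rw [← hA, div_pow, e5]
      field_simp⟩
    obtain ⟨g, -, hg⟩ := exists_nt 1
    have k := e1 g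
    rw [t0, hg] at k
    have k2 : ∀ y : F3, y * (-1 - 1) = 0 → y = 0 := by decide
    rw [t0, k2 x (by simpa using k)]
    rfl
  have k := LinearMap.finrank_le_finrank_of_injective hL
  rw [finrank_prod, finrank_prod, finrank_self, finrank_fin_fun, finrank_fintype_fun_eq_card,
    Fintype.card_coe] at k
  omega

theorem glob (hn : n ≠ 0) (j : Bool) : ∑ q ∈ (MM * n).primeFactors, hz (sd j + 1) q +
    (if mu (sd j + 1) cc = 1 then 1 else 0) + 1 ≤ finrank F3 (GG n j) := by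
  cases j
  · have k := gl_false hn
    simp only [← hz_add_two 0, ← mu_add_two 0] at k
    exact k
  · have k := gl_false (δ := δ.sw) hn
    rw [gg_sw, mu_sw] at k
    simp only [hz_sw] at k
    exact k

end Pool.Agent.Lib.MP_696deb_nt.CU.CV.CR
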