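import Pool.Agent.Lib.MP_696deb_nt.CR.D0

/-! Classes that are trivial at all bad primes. -/

set_option autoImplicit false
set_option linter.unusedSectionVars false

open scoped Classical
open Finset Module

namespace Pool.Agent.Lib.MP_696deb_nt.CU.CV.CR

variable [δ : Qd] {n : ℕ} {j : Bool} {v : Gam → F3}

theorem ker_lp {q : ℕ} {k : Gam → F3} (h : Cb true q v) (hk : Kc 1 (Gq q) k) : lp q v k = 0 := by
  obtain ⟨x, hx⟩ := h
  rw [lp_congr (u' := fun g => x * (mu 0 g - 1)) hx fun _ _ => rfl, lp_smul_left (kc_mu 0 _) hk,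
    lp_mu' hk, mul_zero]

theorem ker_frob (h : v ∈ GG n true) (k : ∀ q : ℕ, q.Prime → q ∣ MM * n → Cb true q v) {p : ℕ}
    (hp : p.Prime) (hn : ¬ p ∣ MM) (e : mu 0 (fq p) = 1) : v (fq p) = 0 := by
  have hu : Kc 0 ⊤ v := h.1
  by_cases d : p ∣ MM * n
  · obtain ⟨x, hx⟩ := k p hp d
    rw [hx _ (fq_mem hp), sd_true, e, sub_self, mul_zero]
  have n0 : MM * n ≠ 0 := fun z => d (z ▸ dvd_zero p)
  have n1 : p ∉ (MM * n).primeFactors := fun e => d (Nat.dvd_of_mem_primeFactors e)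
  have := recip_lp hu (kc_kap 1 p ⊤) (insert p (MM * n).primeFactors)
    (fun q hq => (mem_insert.1 hq).elim (· ▸ hp) Nat.prime_of_mem_primeFactors)
    (fun q hq d => mem_insert_of_mem (Nat.mem_primeFactors.2 ⟨hq, d.mul_right n, n0⟩))
    fun q hq m => by
      rw [mem_insert, not_or, Nat.mem_primeFactors] at m
      have d : ¬ q ∣ MM * n := fun d => m.2 ⟨hq, d, n0⟩
      exact ⟨h.2 q hq d, kap_ne hq (fun z => d (z.mul_right n)) m.1⟩
  rwa [sum_insert n1, sum_eq_zero fun q hq => ker_lp (k q (Nat.prime_of_mem_primeFactors hq)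
    (Nat.dvd_of_mem_primeFactors hq)) (kc_kap 1 p _), add_zero,
    lp_unr hp hn (hu.mono le_top) (kc_kap 1 p _) (h.2 p hp d),
    kap_self hp hn (by rwa [mu_add_two]), mul_one] at this

theorem ker_true (h : v ∈ GG n true) (k : ∀ q : ℕ, q.Prime → q ∣ MM * n → Cb true q v) :
    ∃ x : F3, ∀ g, v g = x * (mu 0 g - 1) :=
  have hu : Kc 0 ⊤ v := h.1
  cob_of_ker hu fun _ hg => ker_eq_zero hu MM.primeFactors
    (fun _ hq m => ker_frob h k hq fun d => m (Nat.mem_primeFactors.2 ⟨hq, d, MM_ne⟩)) hg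

theorem ker_cb (h : v ∈ GG n j) (k : ∀ q : ℕ, q.Prime → q ∣ MM * n → Cb j q v) :
    ∃ x : F3, v = x • bd j := by
  cases j
  · obtain ⟨x, hx⟩ := ker_true (δ := δ.sw) ((gg_sw n true).symm ▸ h) fun q hq d =>
      cb_sw.2 (k q hq d)
    rw [mu_sw] at hx
    exact ⟨x, funext hx⟩
  · exact (ker_true h k).imp fun _ => funext

end Pool.Agent.Lib.MP_696deb_nt.CU.CV.CR
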