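import Pool.Agent.Lib.MP_696deb_nt.CR.Rq
import Pool.Agent.Lib.MP_696deb_nt.CP.C1

/-! Local points. -/

set_option autoImplicit false
set_option linter.unusedSectionVars false

open scoped Classical
open Finset Module

namespace Pool.Agent.Lib.MP_696deb_nt.CU.CV.CR

open Pool.Agent.Lib.MP_23455a_nt (exists_co)

variable [δ : Qd] {n q : ℕ} {u : Gam → F3} {a b : Qbar}

theorem pts (hu : Kc 1 (Gq q) u) (h : Rq 1 (Gq q) u a b) (ha : a ≠ 0) {z : ℤ} (hz : z ≠ 0)
    (hs : a ^ 3 + b ^ 3 = n * z ^ 3) : u ∈ Ll n false q := by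
  have z0 : (z : Qbar) ≠ 0 := Int.cast_ne_zero.2 hz
  obtain ⟨P, hP⟩ := exists_co (A := a / z) (B := b / z) (C := -rho n) (by
    rw [div_pow, div_pow, ← add_div, hs, mul_div_cancel_right₀ _ (pow_ne_zero 3 z0), neg_pow,
      rho_cube]
    ring) (.inl (div_ne_zero ha z0))
  refine ⟨hu, -P, fun g hg => ?_⟩
  have w2 : Kt.zt (-u g) = Kt.zt (u g) ^ 2 := by
    rw [Kt.zt_pow]
    congr 1
    generalize u g = s
    revert s
    decide
  have k1 := CP.c1_co n g hP
  have k2 := hP.add_mu (Kt.zt_cube (u g))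
  rw [map_div₀, map_div₀, map_intCast] at k1
  rw [← w2, ← mul_div_assoc, ← mul_div_assoc] at k2
  have k : act n 1 g P = P + MP_23455a_nt.mu (Kt.zt (u g)) := by
    have e : mu (1 + 1) g = sg g := by rw [sg_cast, ← mu_zero, ← mu_add_two 0]
    rw [act_def]
    rcases sg_cases g with j | j <;> rw [j] at e ⊢
    · obtain ⟨h1, h2⟩ := (h g hg).1 (e.trans Int.cast_one)
      rw [h1, h2] at k1
      rw [one_smul, k1.inj k2]
    · obtain ⟨h1, h2⟩ := (h g hg).2 (by rw [e]; decide)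
      rw [h1, h2] at k1
      rw [neg_smul, one_smul, k1.neg.inj k2]
  change kT _ = cob (act n 1) (-P) g
  rw [cob_neg, H3.cob, k, add_sub_cancel_left]
  exact neg_eq_iff_eq_neg.1 (CP.c1_mu _).symm |>.trans rfl

end Pool.Agent.Lib.MP_696deb_nt.CU.CV.CR
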