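import Pool.Agent.Lib.MP_696deb_nt.CR.Ch
import Pool.Agent.Lib.MP_696deb_nt.CR.Pts
import Pool.Agent.Lib.MP_696deb_nt.CP.C3

/-! The local condition at three on the side zero, if three is inert. -/

set_option autoImplicit false
set_option linter.unusedSectionVars false

open scoped Classical
open Finset Module

namespace Pool.Agent.Lib.MP_696deb_nt.CU.CV.CR

open Kt (zt zt_add zt_zero zt_ne smul_zt zt_inj zt_cube)

variable [δ : Qd] {n : ℕ} {d m : ℤ} {r π : Qbar}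

/-- A square root of `-3 m` that belongs to the character of the side one. -/
structure T3b (π : Qbar) (m : ℤ) : Prop where
  rt : π ^ 2 = -3 * m
  nd : ¬ 3 ∣ m
  fix : ∀ g, mu 1 g = 1 → g π = π
  neg : ∀ g, mu 1 g ≠ 1 → g π = -π

theorem t3b_ex {i : Qbar} (h : i ^ 2 = m) (nd : ¬ 3 ∣ m) (k : ∀ g, de g = dr i g) :
    T3b (i * (2 * zt 1 + 1)) m := by
  have z3 : zt 1 ^ 2 + zt 1 + 1 = 0 :=
    mul_left_cancel₀ (a := zt 1 - 1) (sub_ne_zero.2 fun e => one_ne_zero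
      (zt_inj (e.trans zt_zero.symm))) (by linear_combination zt_cube 1)
  have z2 : zt (-1) = zt 1 ^ 2 := by rw [Kt.zt_pow]; rfl
  have e : ∀ g : Gam, (mu 1 g = 1 ∧ g (i * (2 * zt 1 + 1)) = i * (2 * zt 1 + 1)) ∨
      (mu 1 g = -1 ∧ g (i * (2 * zt 1 + 1)) = -(i * (2 * zt 1 + 1))) := fun g => by
    rw [mu, pow_one, k, dr, map_mul, map_add, map_mul, map_ofNat, map_one, smul_zt, mul_one]
    change _ * chi g = _ ∧ _ * (2 * zt (chi g) + 1) = _ ∨
      _ * chi g = _ ∧ _ * (2 * zt (chi g) + 1) = _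
    by_cases j : g i = i
    · rw [if_pos j, j]
      rcases chi_cases g with c | c <;> rw [c]
      · exact .inl ⟨one_mul _, rfl⟩
      · exact .inr ⟨one_mul _, by linear_combination 2 * i * z2 + 2 * i * z3⟩
    · rw [if_neg j, (sq_cases h g).resolve_left j]
      rcases chi_cases g with c | c <;> rw [c]
      · exact .inr ⟨mul_one _, by ring⟩
      · exact .inl ⟨by decide, by linear_combination -2 * i * z2 - 2 * i * z3⟩
  refine ⟨by linear_combination -3 * h + 4 * i ^ 2 * z3, nd, fun g j => ?_, fun g j => ?_⟩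
  · exact ((e g).resolve_right fun l => absurd (j.symm.trans l.1) (by decide)).2
  · exact ((e g).resolve_left fun l => j l.1).2

theorem T3b.val (h : T3b π m) : (pl 3).V π ^ 2 = (pl 3).V 3 := by
  rw [← map_pow, h.rt, map_mul, Valuation.map_neg, CP.c0_unit h.nd, mul_one]

theorem T3b.ne (h : T3b π m) : π ≠ 0 := fun e => by
  have k := h.val
  rw [e, map_zero, zero_pow two_ne_zero, eq_comm, map_eq_zero] at k
  exact three_ne_zero k

/-- A criterion for not being a cube in the ramified quadratic extension. -/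
theorem T3b.nc (h : T3b π m) {A B : ℤ} {c : Qbar} (hc : c ^ 3 = A + B * π) (hA : ¬ 3 ∣ A)
    (hB : ¬ 3 ∣ B) (k : ∀ g ∈ Gq 3, mu 1 g = 1 → g c = c) : False := by
  obtain ⟨ε, l, e1, e2⟩ : ∃ ε l : ℤ, ε ^ 2 = 1 ∧ A = ε + 3 * l := by
    by_cases j : A % 3 = 1
    exacts [⟨1, A / 3, rfl, by omega⟩, ⟨-1, (A + 1) / 3, rfl, by omega⟩]
  have p1 : (pl 3).V π < 1 :=
    lt_of_pow_lt_pow_left₀ 2 zero_le (by rw [h.val, one_pow]; exact CP.c0_three)
  have p2 : (pl 3).V 3 < (pl 3).V π := by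
    rw [← h.val, pow_two]
    exact mul_lt_of_lt_one_right ((Valuation.pos_iff _).2 h.ne) p1
  have p3 : (pl 3).V (B * π) = (pl 3).V π := by rw [map_mul, CP.c0_unit hB, one_mul]
  have c1 : (pl 3).V c ≤ 1 := le_of_pow_le_pow_left₀ three_ne_zero zero_le (by
    rw [← map_pow, hc, one_pow]
    exact (pl 3).V.map_add_le ((pl 3).V_int_le A) (p3.trans_lt p1).le)
  obtain ⟨z, hz⟩ : ∃ z : Qbar, z = c - ε := ⟨_, rfl⟩
  have z1 : (pl 3).V z ≤ 1 := hz ▸ (pl 3).V.map_sub_le c1 ((pl 3).V_int_le ε)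
  have z2 : z ^ 3 = B * π + 3 * ((-ε : ℤ) * z ^ 2 + (-1 : ℤ) * z + l) := by
    have e3 : (ε : Qbar) ^ 2 = 1 := by exact_mod_cast e1
    rw [e2] at hc
    rw [hz]
    push_cast at hc ⊢
    linear_combination hc + (2 * ε - 3 * c) * e3
  have z3 : (pl 3).V z ^ 3 = (pl 3).V π := by
    rw [← map_pow, z2, (pl 3).V.map_add_eq_of_lt_left, p3]
    rw [p3, map_mul]
    exact (mul_le_of_le_one_right' (CP.c0_quad z1 _ _ _)).trans_lt p2
  have fz : ∀ g ∈ Gq 3, mu 1 g = 1 → g z = z := fun g hg j => by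
    rw [hz, map_sub, k g hg j, map_intCast]
  obtain ⟨t, t1, t2⟩ := H3.exists_ine_ne (w := pl 3) (x := π) (a := 2) (b := 1) two_ne_zero
    (by decide) (by rw [h.val, CP.c0_p, pow_one, Nat.cast_ofNat])
  have t3 := (mu_cases 1 t).resolve_left fun j => t2 (h.fix t j)
  have t4 : t ∈ Gq 3 := B2.Ine_le _ t1
  obtain ⟨g, g1, g2⟩ := H3.exists_ine_ne (w := pl 3) (x := z * t z) (a := 3) (b := 1) three_ne_zero
    (by decide) (by
      rw [map_mul, B2.mem_Dec.1 t4, mul_pow, z3, ← pow_two, h.val, CP.c0_p, pow_one, Nat.cast_ofNat])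
  have g3 : g ∈ Gq 3 := B2.Ine_le _ g1
  refine g2 ?_
  rw [map_mul]
  rcases mu_cases 1 g with j | j
  · have k1 := fz (t⁻¹ * (g * t)) (mul_mem (inv_mem t4) (mul_mem g3 t4)) (by
      rw [mu_mul, mu_mul, mu_inv, j, t3]
      decide)
    have k3 := congrArg t k1
    rw [← AlgEquiv.mul_apply t, mul_inv_cancel_left, AlgEquiv.mul_apply] at k3
    rw [fz g g3 j, k3]
  · have k1 := fz (t⁻¹ * g) (mul_mem (inv_mem t4) g3) (by
      rw [mu_mul, mu_inv, j, t3]
      decide)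
    have k2 := fz (g * t) (mul_mem g3 t4) (by
      rw [mu_mul, j, t3]
      decide)
    have k3 := congrArg t k1
    rw [← AlgEquiv.mul_apply t, mul_inv_cancel_left] at k3
    rw [k3, ← AlgEquiv.mul_apply g, k2, mul_comm]

/-- A local point from an element of trace `8 n` whose norm is a cube. -/
theorem T3b.has (h : T3b π m) (y : ℤ) {x : Qbar} (hx : Fx (Gq 3) x) (x0 : x ≠ 0)
    (x3 : x ^ 3 = 16 * (n ^ 2 + 3 * m * y ^ 2))
    (k : ∀ c : Qbar, c ^ 3 = 4 * (n + y * π) → (∀ g ∈ Gq 3, mu 1 g = 1 → g c = c) → False) :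
    Has n true 3 1 := by
  obtain ⟨a, ha⟩ : ∃ a : Qbar, a ^ 3 = 4 * (n + y * π) := ⟨_, Kt.cr_cube _⟩
  have e : 4 * (n + y * π) * (4 * (n - y * π)) = x ^ 3 := by
    linear_combination -x3 - 16 * (y : Qbar) ^ 2 * h.rt
  have a0 : a ≠ 0 := fun j => pow_ne_zero 3 x0 (by rw [← e, ← ha, j]; ring)
  obtain ⟨b, hb⟩ : ∃ b : Qbar, a * b = x := ⟨x / a, mul_div_cancel₀ _ a0⟩
  have b3 : b ^ 3 = 4 * (n - y * π) := mul_left_cancel₀ (pow_ne_zero 3 a0) (by
    rw [← mul_pow, hb, ha, e])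
  have s : mu (δ := δ.sw) (1 + 1) = mu 1 := by rw [mu_sw, mu_add_two]
  obtain ⟨κ, h1, h2⟩ := rq_of (δ := δ.sw) (e := 1) (D := Gq 3) a0
    (right_ne_zero_of_mul (hb ▸ x0)) (fun g _ j => by
      rw [s] at j
      simp only [ha, map_mul, map_add, map_ofNat, map_natCast, map_intCast, h.fix g j])
    (fun g _ j => by
      rw [s] at j
      simp only [ha, b3, map_mul, map_add, map_ofNat, map_natCast, map_intCast, h.neg g j]
      ring) (hb ▸ hx)
  refine (has_sw (j := false)).1 (has_one (δ := δ.sw) (pts (δ := δ.sw) h1 h2 a0 (z := 2) two_ne_zero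
    (by rw [ha, b3]; push_cast; ring)) fun ⟨t, ht⟩ => k (zt (-t) * a) ?_ fun g hg j => ?_)
  · rw [mul_pow, zt_cube, one_mul, ha]
  · have k1 : mu (δ := δ.sw) (sd false) g = chi g := by
      rw [mu_sw, ← mu_mul_succ 1, j, one_mul]
      rfl
    rw [map_mul, smul_zt, ((h2 g hg).1 (s ▸ j)).1, ht g hg, k1, ← mul_assoc, ← zt_add]
    congr 2
    change chi g * _ + _ = _
    ring

theorem eta_zero (N : Nf d r) (h : d % 3 ≠ 1)
    (hn : n % 9 = 4 ∨ n % 9 = 5 ∨ n % 27 = 9 ∨ n % 27 = 18) : Has n true 3 1 := by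
  obtain ⟨i, m, h1, h2, h3, -⟩ := N.eta h
  obtain ⟨π, T⟩ : ∃ π, T3b π m := ⟨_, t3b_ex h1 (by omega) h3⟩
  have c : ∀ {b : ℤ}, b % 9 = 1 ∨ b % 9 = 8 → ∃ x : Qbar, Fx (Gq 3) x ∧ x ≠ 0 ∧ x ^ 3 = b :=
    fun {b} k => (CP.cube3 k).imp fun x j => ⟨j.1, fun e => by
      have := j.2
      rw [e, zero_pow three_ne_zero, eq_comm, Int.cast_eq_zero] at this
      omega, j.2⟩
  rw [← or_assoc] at hn
  rcases hn with hn | hn
  · have n2 : (n : ℤ) ^ 2 % 9 = 7 := by
      have : (n : ℤ) % 9 = 4 ∨ (n : ℤ) % 9 = 5 := by omega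
      rcases this with j | j <;> simp [pow_two, Int.mul_emod, j]
    obtain ⟨x, x1, x2, x3⟩ := c (b := 16 * (n ^ 2 + 3 * m)) (by omega)
    refine T.has 1 x1 x2 (by rw [x3]; push_cast; ring) fun a ha k =>
      T.nc (A := 4 * n) (B := 4) (by rw [ha]; push_cast; ring) (by omega) (by decide) k
  · obtain ⟨u, hu⟩ : ∃ u : ℤ, (n : ℤ) = 9 * u := ⟨n / 9, by omega⟩
    have n2 : u ^ 2 % 3 = 1 := by
      have : u % 3 = 1 ∨ u % 3 = 2 := by omega
      rcases this with j | j <;> simp [pow_two, Int.mul_emod, j]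
    have hu' : (n : Qbar) = 9 * u := by exact_mod_cast congrArg (Int.cast : ℤ → Qbar) hu
    obtain ⟨x, x1, x2, x3⟩ := c (b := 16 * (3 * u ^ 2 + 16 * m)) (by omega)
    have nd : ∀ {s t : ℤ}, ¬ 3 ∣ s → ¬ 3 ∣ t → ¬ 3 ∣ s * t := fun a b j =>
      (Int.prime_three.dvd_or_dvd j).elim a b
    refine T.has 12 (x := 3 * x) (fun g hg => by rw [map_mul, map_ofNat, x1 g hg])
      (mul_ne_zero three_ne_zero x2) (by rw [mul_pow, x3, hu']; push_cast; ring) fun a ha k =>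
      T.nc (A := -16 * (m * m)) (B := 4 * (u * m)) (c := m * a / π) ?_
        (nd (by decide) (nd T.nd T.nd)) (nd (by decide) (nd (by omega) T.nd)) fun g hg j => by
          rw [map_div₀, map_mul, map_intCast, k g hg j, T.fix g j]
    rw [div_pow, div_eq_iff (pow_ne_zero 3 T.ne), mul_pow, ha, hu']
    push_cast
    linear_combination (16 * m ^ 2 * π - 4 * u * m * (π ^ 2 - 3 * m)) * T.rt

end Pool.Agent.Lib.MP_696deb_nt.CU.CV.CR
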