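import Pool.Agent.Lib.MP_696deb_nt.CR.T3a
import Pool.Agent.Lib.MP_696deb_nt.CR.T3b

/-! The local conditions at three. -/

set_option autoImplicit false
set_option linter.unusedSectionVars false

open scoped Classical
open Finset Module

namespace Pool.Agent.Lib.MP_696deb_nt.CU.CV.CR

variable [δ : Qd] {n : ℕ} {d : ℤ} {r : Qbar}

theorem t3_tab (hn : n ≠ 0) (h27 : ¬ 27 ∣ n) :
    CP.Has n true 3 (CP.l0 n) ∧ CP.Has n false 3 (2 - CP.l0 n) := by
  unfold CP.l0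
  split_ifs with h1 h2
  · exact ⟨CP.c3_A hn h1, CP.c3_zero _ _ _⟩
  · exact ⟨CP.c3_zero _ _ _, CP.c3_B hn h2⟩
  refine ⟨?_, CP.c3_one (CP.kk_mem_one n 3) (CP.not_cb (by omega))⟩
  have h3 : n % 9 = 0 ∨ (n : ℤ) % 9 = 2 ∨ (n : ℤ) % 9 = 7 ∨ (n : ℤ) % 9 = 4 ∨ (n : ℤ) % 9 = 5 := by
    omega
  rcases h3 with e | e | e | e | e
  · exact CP.c3_C hn e h27
  · exact CP.c3_unr_one hn (a := 7) (by decide) (by rw [CP.c3_sq e]; decide)
  · exact CP.c3_unr_one hn (a := 7) (by decide) (by rw [CP.c3_sq e]; decide)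
  · exact CP.c3_unr_one hn (a := 1) (by decide) (by rw [CP.c3_sq e]; decide)
  · exact CP.c3_unr_one hn (a := 1) (by decide) (by rw [CP.c3_sq e]; decide)

theorem t3_has {m q l : ℕ} {j : Bool} (k : ∀ g, kk m g = kk n g) (h : Has m j q l) :
    Has n j q l :=
  h.imp fun _ h => ⟨fun i => ⟨(h.1 i).1, (h.1 i).2.congr (fun g _ => k g) fun _ _ => rfl⟩, h.2⟩

theorem has_three (N : Nf d r) (hn : n ≠ 0) : ∃ a b, a + b = dq 3 ∧ Has n false 3 a ∧
    Has n true 3 b ∧ (Even (a + hz 1 3) ↔ W3 d n) := by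
  obtain ⟨v, u, hu, rfl⟩ := Nat.exists_eq_pow_mul_and_not_dvd hn 3 (by norm_num)
  have u0 := right_ne_zero_of_mul hn
  have f : (3 ^ v * u).factorization 3 = v := by
    rw [Nat.factorization_mul (left_ne_zero_of_mul hn) u0, Nat.prime_three.factorization_pow,
      Finsupp.add_apply, Finsupp.single_eq_same, Nat.factorization_eq_zero_of_not_dvd hu, add_zero]
  obtain ⟨m, hm⟩ : ∃ m, m = 3 ^ (v % 3) * u := ⟨_, rfl⟩
  have m0 : m ≠ 0 := hm ▸ mul_ne_zero (pow_ne_zero _ three_ne_zero) u0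
  have k : ∀ g, kk m g = kk (3 ^ v * u) g := fun g => by
    rw [hm, kk_mul (pow_ne_zero _ three_ne_zero) u0, kk_mul (pow_ne_zero _ three_ne_zero) u0,
      kk_pow, kk_pow, ZMod.natCast_mod v 3]
  have c : v % 3 = 0 ∧ m = u ∨ v % 3 = 1 ∧ m = 3 * u ∨ v % 3 = 2 ∧ m = 9 * u := by
    have : v % 3 = 0 ∨ v % 3 = 1 ∨ v % 3 = 2 := by omega
    rcases this with e | e | e <;> simp [hm, e]
  rw [dq, if_pos rfl, hz, hz, if_neg N.not_tr, CL.W3, f,
    Nat.mul_div_cancel_left _ (pow_pos three_pos v)]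
  simp only [add_zero, Nat.even_iff]
  by_cases h : d % 3 = 1
  · have t := N.tr_three.2 h
    have e : ∀ j, ∀ g ∈ Gq 3, mu (sd j) g = chi g ^ sd j := fun j g hg => by
      rw [mu, ← mu_zero, t g hg, one_mul]
    obtain ⟨h1, h2⟩ := t3_tab m0 (by omega)
    rw [if_pos t, if_pos h]
    refine ⟨_, _, ?_, t3_has k ((has_iff (e _)).2 h2), t3_has k ((has_iff (e _)).2 h1), ?_⟩ <;>
      unfold CP.l0 <;> split_ifs <;> first | omega | exact iff_of_false id (by omega)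
  · rw [if_neg (mt N.tr_three.1 h), if_neg h]
    by_cases e : m % 9 = 4 ∨ m % 9 = 5 ∨ m % 27 = 9 ∨ m % 27 = 18
    · exact ⟨0, 1, rfl, has_zero _ _ _, t3_has k (eta_zero N h e), by omega⟩
    · exact ⟨1, 0, rfl, t3_has k (eta_one N h (by omega)), has_zero _ _ _, by omega⟩

end Pool.Agent.Lib.MP_696deb_nt.CU.CV.CR
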