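import Pool.Agent.Lib.MP_696deb_nt.CR.Ch
import Pool.Agent.Lib.MP_696deb_nt.CP.C3
import Pool.Agent.Lib.MP_696deb_nt.CR.Lg

/-! The local conditions away from three. -/

set_option autoImplicit false
set_option linter.unusedSectionVars false

open scoped Classical
open Finset Module

namespace Pool.Agent.Lib.MP_696deb_nt.CU.CV.CR

variable [δ : Qd] {n q : ℕ} {d : ℤ} {r : Qbar}

theorem tq_has {j : Bool} {e : ℕ} (h : Tr e q → Has n j q 1) : Has n j q (hz e q) := by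
  unfold hz
  split_ifs with k
  · exact h k
  · exact has_zero n j q

theorem tq_ram (hq : q.Prime) (h3 : q ≠ 3) (hu : Un q) (hn : kk n (sq q) ≠ 0) (j : Bool) :
    Has n j q (hz (sd j + 1) q) := tq_has fun k => by
  refine has_one (u := kk n) ?_ fun ⟨x, hx⟩ => hn ?_
  · rw [ll_eq (j' := false) fun g hg => by
      rw [sd_false, pow_one, ← mu_mul_succ (sd j), k g hg, mul_one]]
    exact CP.kk_mem_one n q
  · rw [hx _ (sq_mem hq h3), mu_un hq h3 hu (sq_ine hq h3), sub_self, mul_zero]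

theorem tq_unr (hq : q.Prime) (h3 : q ≠ 3) (hu : Un q) (hn : kk n (sq q) = 0) (j : Bool) :
    Has n j q (hz (sd j) q) := tq_has fun k => by
  obtain ⟨ω, h1, h2, h4⟩ : ∃ ω : Gam → F3, Sm (Gq q) ω ∧ IsHom (Gq q) ω ∧
      ∀ (m : ℕ) (φ : Gam), IsFrob (pl q) ((pl q).p ^ m) φ → ω φ = m := H3.exists_om (pl q) 1
  have h5 : Kc (sd j) (Gq q) ω := ⟨h1, fun g hg h hh => by rw [h2 g hg h hh, k g hg, one_mul]⟩
  refine has_one (u := ω) ⟨h5, loc_of_unr (l := 1) hq h3 hu hn (coc_kC.2 h5)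
    (fun g _ => by rw [pow_one, th_kT]) ?_⟩ fun ⟨x, hx⟩ => ?_
  · rw [kC, h4 0 _ (B2.isFrob_one.2 (sq_ine hq h3)), Nat.cast_zero, map_zero]
  · have h6 := hx _ (fq_mem hq)
    rw [h4 1 _ (by rw [pow_one, pl_p hq]; exact fq_frob hq), k _ (fq_mem hq), sub_self,
      mul_zero, Nat.cast_one] at h6
    exact one_ne_zero h6

theorem tq_odd (hq : q.Prime) (h3 : q ≠ 3) (hu : Un q) : Odd (hz 0 q + hz 1 q) ↔ q % 3 = 2 := by
  have h1 := mu_mul_succ 0 (fq q)
  have h0 : q % 3 ≠ 0 := fun h => h3 ((Nat.prime_dvd_prime_iff_eq Nat.prime_three hq).1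
    (Nat.dvd_of_mod_eq_zero h)).symm
  have h2 : q % 3 = 1 ∨ q % 3 = 2 := by omega
  rw [chi_fq hq h3, ← ZMod.natCast_mod, zero_add] at h1
  rw [hz, hz, if_congr (tr_iff hq h3 hu) rfl rfl, if_congr (tr_iff hq h3 hu) rfl rfl]
  rcases mu_cases 0 (fq q) with a | a <;> rcases mu_cases 1 (fq q) with b | b <;>
    rcases h2 with c | c <;> rw [a, b, c] at h1 <;> rw [a, b, c] <;>
    first | decide | exact absurd h1 (by decide)

theorem has_tame (N : Nf d r) (hn : n ≠ 0) (hq : q.Prime) (h3 : q ≠ 3) :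
    ∃ a b, a + b = dq q ∧ Has n false q a ∧ Has n true q b ∧
      (Odd (a + hz 1 q) ↔ q % 3 = 2 ∧ n.factorization q % 3 ≠ 0 ∧ Ur d q) := by
  by_cases h : Ur d q
  · have hu := N.un hq h
    have h1 : kk n (sq q) = 0 ↔ n.factorization q % 3 = 0 := by
      rw [kk_sq hq h3 hn, ZMod.natCast_eq_zero_iff, Nat.dvd_iff_mod_eq_zero]
    by_cases k : n.factorization q % 3 = 0
    · refine ⟨hz 1 q, hz 0 q, by rw [dq, if_neg h3, add_zero, add_comm],
        tq_unr hq h3 hu (h1.2 k) false, tq_unr hq h3 hu (h1.2 k) true,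
        iff_of_false (Nat.not_odd_iff_even.2 ⟨_, rfl⟩) fun e => e.2.1 k⟩
    · refine ⟨hz 0 q, hz 1 q, by rw [dq, if_neg h3, add_zero], ?_,
        tq_ram hq h3 hu (mt h1.1 k) true, by rw [tq_odd hq h3 hu, and_iff_left ⟨k, h⟩]⟩
      rw [← hz_add_two]
      exact tq_ram hq h3 hu (mt h1.1 k) false
  · obtain ⟨g, hg, k⟩ := N.ram hq h
    have h1 : ∀ e, hz e q = 0 := fun e => if_neg fun t => by
      have := t g (B2.Ine_le _ hg)
      rw [mu, k, chi_ine hq h3 hg, one_pow] at this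
      exact absurd this (by decide)
    exact ⟨0, 0, by rw [dq, h1, h1, if_neg h3], has_zero _ _ _, has_zero _ _ _,
      iff_of_false (by rw [h1]; decide) fun e => h e.2.2⟩

end Pool.Agent.Lib.MP_696deb_nt.CU.CV.CR
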