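import Pool.Agent.Lib.MP_696deb_nt.CR.A2
import Pool.Agent.Lib.MP_696deb_nt.CR.Ev
import Pool.Agent.Lib.MP_696deb_nt.CR.Ev3
import Pool.Agent.Lib.MP_696deb_nt.CR.T3
import Pool.Agent.Lib.MP_696deb_nt.CR.Tq
import Pool.Agent.Lib.MP_696deb_nt.CR.Gl
import Pool.Agent.Lib.MP_696deb_nt.CR.Ker
import Pool.Agent.Lib.MP_696deb_nt.CP.H3

/-! The first layer. -/

set_option autoImplicit false
set_option linter.unusedSectionVars false

open scoped Classical
open Finset Module

namespace Pool.Agent.Lib.MP_696deb_nt.CU.CV.CR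

variable [δ : Qd]

/-- The index set of the local coordinates. -/
abbrev H3I (n : ℕ) : Type := Σ q : (MM * n).primeFactors, Fin (dq q)

/-- The coordinates of a family of local cocycles. -/
def h3c (n : ℕ) (co : ∀ q : ℕ, Bool → (Gam → F3) →ₗ[F3] Fin (dq q) → F3) (j : Bool) :
    (ℕ → Gam → F3) →ₗ[F3] H3I n → F3 where
  toFun u i := co i.1 j (u i.1) i.2
  map_add' u v := funext fun i => by simp
  map_smul' a u := funext fun i => by simp

variable {n q : ℕ} {j : Bool} {co : ∀ q : ℕ, Bool → (Gam → F3) →ₗ[F3] Fin (dq q) → F3}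
  {u u' : ℕ → Gam → F3} {v : Gam → F3} {d : ℤ} {r : Qbar}

theorem h3_mem (hn : n ≠ 0) (hq : q.Prime) (h : q ∣ MM * n) : q ∈ (MM * n).primeFactors :=
  Nat.mem_primeFactors.2 ⟨hq, h, mul_ne_zero MM_ne hn⟩

theorem h3b_mem (n : ℕ) (j : Bool) : bd j ∈ Sel n j := by
  have := cob_mem_Zs n (sd j) (l := 1) (P := kT 1) (by rw [pow_one, th_kT])
  rwa [show cob (act n (sd j)) (kT 1) = kC (bd j) from funext fun g => by
    rw [cob_kT, one_mul]; rfl] at this

theorem h3b_ne (j : Bool) : bd j ≠ 0 := fun k => by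
  obtain ⟨g, -, e⟩ := exists_nt (sd j)
  have := congrFun k g
  rw [bd, e, Pi.zero_apply] at this
  exact absurd this (by decide)

theorem h3_cb (h : Kc (sd j) (Gq q) v) (k : Cb j q v) : v ∈ Ll n j q := by
  obtain ⟨x, hx⟩ := k
  exact ⟨h, kT x, fun g hg => by rw [cob_kT, ← hx g hg]⟩

theorem h3_zero (h : h3c n co j u = 0) (hq : q ∈ (MM * n).primeFactors) : co q j (u q) = 0 :=
  funext fun i => congrFun h ⟨⟨q, hq⟩, i⟩

section
variable (hc : ∀ q : ℕ, q.Prime → Gram q (dq q) (co q))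
include hc

theorem h3_dot (h : ∀ q ∈ (MM * n).primeFactors, Kc (sd (!j)) (Gq q) (u q))
    (h' : ∀ q ∈ (MM * n).primeFactors, Kc (sd j) (Gq q) (u' q)) :
    h3c n co (!j) u ⬝ᵥ h3c n co j u' = ∑ q ∈ (MM * n).primeFactors, lq j q (u q) (u' q) := by
  rw [dotProduct, Fintype.sum_sigma, ← sum_coe_sort _ fun q => lq j q (u q) (u' q)]
  refine sum_congr rfl fun q _ => ?_
  have k := (hc q (a2_mem q.2).1).gram
  cases j
  · exact (k _ _ (h q q.2) (h' q q.2)).symm
  · exact (dotProduct_comm _ _).trans (k _ _ (h' q q.2) (h q q.2)).symm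

theorem h3_eq (h : ∀ q ∈ (MM * n).primeFactors, Kc (sd j) (Gq q) (u q))
    (h' : ∀ q ∈ (MM * n).primeFactors, u' q ∈ Ll n j q) (e : h3c n co j u = h3c n co j u')
    (hq : q ∈ (MM * n).primeFactors) : u q ∈ Ll n j q := by
  have k := (h q hq).sub (h' q hq).1
  have k1 := h3_zero (co := co) (u := u - u') (j := j) (by rw [map_sub, e, sub_self]) hq
  simpa using add_mem (h3_cb (n := n) k ((hc q (a2_mem hq).1).det j _ k k1)) (h' q hq)

theorem h3_ker (hn : n ≠ 0) (h : v ∈ GG n j) (e : h3c n co j (CP.h3k v) = 0) :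
    ∃ x : F3, v = x • bd j :=
  ker_cb h fun q hq hd => (hc q hq).det j v (h.1.mono le_top) (h3_zero e (h3_mem hn hq hd))

theorem h3_rank (hn : n ≠ 0) {U : Submodule F3 (Gam → F3)} (h : U ≤ GG n j) (hb : bd j ∈ U) :
    finrank F3 U = finrank F3 (U.map (h3c n co j ∘ₗ CP.h3k)) + 1 := by
  have : Finite (GG n j) := finite_KK hn (sd j)
  have : Finite U := Finite.of_injective _ (Submodule.inclusion_injective h)
  have : Module.Finite F3 U := .of_finite
  have e : LinearMap.ker ((h3c n co j ∘ₗ CP.h3k).domRestrict U) = Submodule.span F3 {⟨bd j, hb⟩} := by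
    refine le_antisymm (fun v hv => ?_) ((Submodule.span_singleton_le_iff_mem _ _).2 ?_)
    · obtain ⟨x, hx⟩ := h3_ker hc hn (h v.2) hv
      exact Submodule.mem_span_singleton.2 ⟨x, Subtype.ext hx.symm⟩
    · exact funext fun i => congrFun ((hc i.1 (a2_mem i.1.2).1).cob j) i.2
  rw [← LinearMap.finrank_range_add_finrank_ker ((h3c n co j ∘ₗ CP.h3k).domRestrict U),
    LinearMap.range_domRestrict, e,
    finrank_span_singleton fun k => h3b_ne j (congrArg Subtype.val k)]

theorem h3_L (l : ℕ → ℕ) (h : ∀ q ∈ (MM * n).primeFactors, Has n j q (l q)) :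
    ∑ q ∈ (MM * n).primeFactors, l q ≤ finrank F3
      ((Submodule.pi ((MM * n).primeFactors : Set ℕ) fun q => Ll n j q).map (h3c n co j)) := by
  choose w h1 h2 using fun q : (MM * n).primeFactors => h q q.2
  let f : (∀ q : (MM * n).primeFactors, Fin (l q) → F3) →ₗ[F3] ℕ → Gam → F3 :=
    LinearMap.pi fun q => if k : q ∈ (MM * n).primeFactors then
      Fintype.linearCombination F3 (w ⟨q, k⟩) ∘ₗ
        LinearMap.proj (φ := fun q : (MM * n).primeFactors => Fin (l q) → F3) ⟨q, k⟩ else 0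
  have e : ∀ x q (k : q ∈ (MM * n).primeFactors), f x q = ∑ i, x ⟨q, k⟩ i • w ⟨q, k⟩ i :=
    fun x q k => by
      simp only [f, LinearMap.pi_apply, dif_pos k]
      rfl
  have m : ∀ x q, q ∈ (MM * n).primeFactors → f x q ∈ Ll n j q := fun x q k => by
    rw [e x q k]
    exact Submodule.sum_mem _ fun i _ => Submodule.smul_mem _ _ (h1 ⟨q, k⟩ i)
  have := CP.h3_le (h3c n co j ∘ₗ f)
    ((Submodule.pi ((MM * n).primeFactors : Set ℕ) fun q => Ll n j q).map (h3c n co j))
    (fun x hx => funext fun q => h2 q _ (e x q q.2 ▸ (hc q (a2_mem q.2).1).det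
      j _ (m x q q.2).1 (h3_zero hx q.2))) fun x => ⟨_, m x, rfl⟩
  rw [Module.finrank_pi_fintype] at this
  simpa [sum_attach _ l] using this

theorem h3_inf (hn : n ≠ 0) : (GG n j).map (h3c n co j ∘ₗ CP.h3k) ⊓
    (Submodule.pi ((MM * n).primeFactors : Set ℕ) fun q => Ll n j q).map (h3c n co j) =
      (Sel n j).map (h3c n co j ∘ₗ CP.h3k) := by
  refine le_antisymm ?_ ?_
  · rintro _ ⟨⟨v, hv, rfl⟩, u, hu, e⟩
    exact ⟨v, mem_Sel_of hv.1 hv.2 fun q hq k => h3_eq hc (u := CP.h3k v)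
      (fun _ _ => hv.1.mono le_top) hu e.symm (h3_mem hn hq k), rfl⟩
  · rintro _ ⟨v, hv, rfl⟩
    exact ⟨⟨v, ⟨Sel.kc hv, fun q hq k => Sel.unr hv hq k⟩, rfl⟩, CP.h3k v, fun q k =>
      Sel.loc hv (a2_mem k).1 (a2_mem k).2, rfl⟩

end

theorem h3_sel : Sel n j ≤ GG n j := fun _ h => ⟨Sel.kc h, fun _ hq k => Sel.unr h hq k⟩

theorem lone (N : Nf d r) (hn : n ≠ 0) :
    Pt n ∧ (Even (finrank F3 (Sel n false) + finrank F3 (Sel n true)) ↔ Wq d n) := by
  have ex : ∀ q : ℕ, ∃ co, q.Prime → Gram q (dq q) co := fun q => by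
    by_cases hq : q.Prime
    · refine (gram_of_ev ?_).imp fun _ h _ => h
      by_cases e : q = 3
      · exact e ▸ ev_three N
      · exact ev_tame N hq e
    · exact ⟨0, fun h => absurd h hq⟩
  choose co hc using ex
  have ex2 : ∀ q : ℕ, ∃ a b, q.Prime → a + b = dq q ∧ Has n false q a ∧ Has n true q b ∧
      (Odd (a + hz 1 q) ↔ if q = 3 then ¬ W3 d n else
        q % 3 = 2 ∧ n.factorization q % 3 ≠ 0 ∧ Ur d q) := fun q => by
    by_cases hq : q.Prime
    · by_cases e : q = 3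
      · obtain ⟨a, b, h1, h2, h3, h4⟩ := has_three N hn
        subst e
        exact ⟨a, b, fun _ => ⟨h1, h2, h3, by rw [if_pos rfl, ← h4, Nat.not_even_iff_odd]⟩⟩
      · obtain ⟨a, b, h⟩ := has_tame N hn hq e
        exact ⟨a, b, fun _ => by rwa [if_neg e]⟩
    · exact ⟨0, 0, fun h => absurd h hq⟩
  choose a b hab using ex2
  have hp : ∀ q ∈ (MM * n).primeFactors, q.Prime := fun q => Nat.prime_of_mem_primeFactors
  have m3 := h3_mem hn Nat.prime_three (three_dvd.mul_right n)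
  have G0 := (glob hn false).trans_eq (h3_rank hc hn le_rfl (h3_sel (h3b_mem n false)))
  have G1 := (glob hn true).trans_eq (h3_rank hc hn le_rfl (h3_sel (h3b_mem n true)))
  have L0 := h3_L hc (j := false) a fun q hq => (hab q (hp q hq)).2.1
  have L1 := h3_L hc (j := true) b fun q hq => (hab q (hp q hq)).2.2.1
  simp only [sd_false, sd_true, zero_add, show 1 + 1 = 0 + 2 from rfl, hz_add_two,
    mu_add_two] at G0 G1
  have dV : finrank F3 (H3I n → F3) = ∑ q ∈ (MM * n).primeFactors, dq q := by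
    simp [sum_attach _ dq]
  have d1 : ∑ q ∈ (MM * n).primeFactors, dq q = ∑ q ∈ (MM * n).primeFactors, hz 0 q +
      ∑ q ∈ (MM * n).primeFactors, hz 1 q + 1 := by
    simp only [dq, sum_add_distrib, sum_ite_eq', if_pos m3]
  have d2 : ∑ q ∈ (MM * n).primeFactors, dq q = ∑ q ∈ (MM * n).primeFactors, a q +
      ∑ q ∈ (MM * n).primeFactors, b q := by
    rw [← sum_add_distrib]
    exact sum_congr rfl fun q hq => (hab q (hp q hq)).1.symm
  have d3 : (if mu 0 cc = 1 then 1 else 0) + (if mu 1 cc = 1 then 1 else 0) = 1 := by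
    rw [show mu 1 cc = mu 0 cc * chi cc from mu_succ 0 cc, chi_cc]
    rcases mu_cases 0 cc with e | e <;> rw [e] <;> decide
  obtain ⟨a1, a2, a3, a4⟩ := CP.wiles (dotProductBilin F3 F3) dotProduct_comm dotProduct_eq_zero
    (fun j => (GG n j).map (h3c n co j ∘ₗ CP.h3k))
    (fun j => (Submodule.pi ((MM * n).primeFactors : Set ℕ) fun q => Ll n j q).map (h3c n co j))
    (by
      rintro _ ⟨u, hu, rfl⟩ _ ⟨v, hv, rfl⟩
      exact (h3_dot hc (j := true) (u := CP.h3k u) (u' := CP.h3k v) (fun _ _ => hu.1.mono le_top)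
        fun _ _ => hv.1.mono le_top).trans (pr_glob (j := true) hn hu.1 hu.2 hv.1 hv.2))
    (by
      rintro _ ⟨u, hu, rfl⟩ _ ⟨v, hv, rfl⟩
      exact (h3_dot hc (j := true) (fun q k => (hu q k).1) fun q k => (hv q k).1).trans
        (sum_eq_zero fun q k => lq_orth (j := true) hn (hp q k) (hu q k) (hv q k)))
    (by omega) (by omega)
  refine ⟨fun j u hu h => ?_, ?_⟩
  · have hu' : ∀ q ∈ (MM * n).primeFactors, Kc (sd (!j)) (Gq q) (u q) := fun q k =>
      hu q (hp q k) (a2_mem k).2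
    obtain ⟨_, ⟨v, hv, rfl⟩, _, ⟨u', k, rfl⟩, e⟩ := Submodule.mem_sup.1 (a1 j (h3c n co (!j) u) (by
      rw [h3_inf hc hn]
      rintro _ ⟨b, hb, rfl⟩
      exact (h3_dot hc (u' := CP.h3k b) hu' fun _ _ => (Sel.kc hb).mono le_top).trans (h b hb)))
    exact ⟨v, hv.1, hv.2, fun q hq hq' => h3_eq hc (u := u - CP.h3k v)
      (fun q k => (hu' q k).sub (hv.1.mono le_top)) k (by rw [map_sub, ← e]; simp)
      (h3_mem hn hq hq')⟩
  · rw [h3_inf hc hn, h3_inf hc hn] at a4
    have c1 : ((MM * n).primeFactors.erase 3).filter (fun q => Odd (a q + hz 1 q)) =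
        n.primeFactors.filter fun q => q % 3 = 2 ∧ n.factorization q % 3 ≠ 0 ∧ Ur d q := by
      ext q
      simp only [mem_filter, mem_erase]
      refine ⟨fun ⟨⟨k1, k2⟩, k3⟩ => ?_, fun ⟨k1, k2⟩ => ?_⟩
      · rw [(hab q (hp q k2)).2.2.2, if_neg k1] at k3
        exact ⟨Nat.mem_primeFactors.2 ⟨hp q k2, Nat.dvd_of_factorization_pos fun e => by
          simp [e] at k3, hn⟩, k3⟩
      · have pp := Nat.prime_of_mem_primeFactors k1
        have k3 : q ≠ 3 := by omega
        exact ⟨⟨k3, h3_mem hn pp ((Nat.dvd_of_mem_primeFactors k1).mul_left _)⟩, by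
          rwa [(hab q pp).2.2.2, if_neg k3]⟩
    have c2 := even_sum_iff_even_card_odd (s := (MM * n).primeFactors.erase 3)
      fun q => a q + hz 1 q
    have c3 := add_sum_erase _ (fun q => a q + hz 1 q) m3
    have c4 := (hab 3 Nat.prime_three).2.2.2
    rw [if_pos rfl, Nat.odd_iff] at c4
    rw [c1, Nat.even_iff] at c2
    rw [sum_add_distrib (s := (MM * n).primeFactors)] at c3
    rw [h3_rank hc hn h3_sel (h3b_mem n false), h3_rank hc hn h3_sel (h3b_mem n true), Wq, ← c2,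
      ← N.cc_iff, Nat.even_iff, ← not_not (a := W3 d n), ← c4]
    by_cases e : mu 0 cc = 1
    · rw [if_pos e] at G0 d3
      simp only [e, true_iff]
      omega
    · rw [if_neg e] at G0 d3
      simp only [e, false_iff]
      omega

end Pool.Agent.Lib.MP_696deb_nt.CU.CV.CR
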