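import Pool.Agent.Lib.MP_696deb_nt.CR.D0

/-! Local duality for the twisted characters. -/

set_option autoImplicit false
set_option linter.unusedSectionVars false

open scoped Classical
open Finset Module

namespace Pool.Agent.Lib.MP_696deb_nt.CU.CV.CR

variable [δ : Qd] {q d : ℕ} {u : Gam → F3}

theorem ld_conj {G : Subgroup Gam} {t g : Gam} (ht : t ∈ G) (hg : g ∈ HD ⊓ G) :
    t⁻¹ * g * t ∈ HD ⊓ G :=
  ⟨normal_HD.conj_mem' g hg.1 t, G.mul_mem (G.mul_mem (G.inv_mem ht) hg.2) ht⟩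

/-- Corestriction from the kernel of the quadratic character. -/
theorem ld_cor {e : ℕ} {G : Subgroup Gam} {t : Gam} {c : Gam → F3} (h : Kc e (HD ⊓ G) c)
    (ht : t ∈ G) (t2 : t ∉ HD) :
    ∃ C, Kc e G C ∧ ∀ g ∈ HD ⊓ G, C g = c g + mu e t * c (t⁻¹ * g * t) := by
  obtain ⟨f, f1, f2⟩ : ∃ f : Gam → F3, (∀ x ∈ HD, f x = c x) ∧
      ∀ x ∉ HD, f x = mu e t * c (t⁻¹ * x) :=
    ⟨fun x => if x ∈ HD then c x else mu e t * c (t⁻¹ * x), fun _ k => if_pos k,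
      fun _ k => if_neg k⟩
  have m1 : ∀ x ∈ G, x ∉ HD → t⁻¹ * x ∈ HD ⊓ G := fun x hx k =>
    ⟨mul_mem_HD (mt inv_mem_iff.1 t2) k, G.mul_mem (G.inv_mem ht) hx⟩
  have m2 : ∀ k ∈ HD, k * t ∉ HD := fun k hk e => t2 ((mul_mem_cancel_left hk).1 e)
  have f3 : ∀ x ∈ G, ∀ k ∈ HD ⊓ G, f (x * k) = f x + mu e x * c k := fun x hx k hk => by
    by_cases a : x ∈ HD
    · rw [f1 _ (mul_mem a hk.1), f1 x a, h.2 x ⟨a, hx⟩ k hk]
    · rw [f2 _ fun b => a ((HD.mul_mem_cancel_right hk.1).1 b), f2 x a, ← mul_assoc,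
        h.2 _ (m1 x hx a) k hk, mul_add, ← mul_assoc, ← mu_mul, mul_inv_cancel_left]
  have f4 : ∀ g ∈ HD ⊓ G, f g + f (g * t) = c g + mu e t * c (t⁻¹ * g * t) := fun g hg => by
    rw [f1 g hg.1, f2 _ (m2 g hg.1), mul_assoc]
  have f5 : ∀ g ∈ G, ∀ k ∈ G, f (g * k) + f (g * k * t) =
      f g + f (g * t) + mu e g * (f k + f (k * t)) := fun g hg k hk => by
    by_cases a : k ∈ HD
    · rw [f4 k ⟨a, hk⟩, f3 g hg k ⟨a, hk⟩, show g * k * t = g * t * (t⁻¹ * k * t) by group,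
        f3 _ (mul_mem hg ht) _ (ld_conj ht ⟨a, hk⟩), mu_mul]
      ring
    · have b := mul_mem_HD a t2
      rw [mul_assoc, f3 g hg _ ⟨b, mul_mem hk ht⟩, f1 _ b, f2 k a,
        show g * k = g * t * (t⁻¹ * k) by group, f3 _ (mul_mem hg ht) _ (m1 k hk a), mu_mul]
      ring
  obtain ⟨U, u1, u2, u3⟩ := h.1
  have u4 : ∀ v ∈ HD ⊓ G, v ∈ U → c v = 0 := fun v hv k => by
    rw [← u3 1 (one_mem _) v hv (by simpa using k), h.one]
  refine ⟨fun g => f g + f (g * t), ⟨B2.Sm.of_open (U ⊓ HD) (u1.inf op_HD) fun g hg v hv => ?_,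
    f5⟩, f4⟩
  have hv' : v ∈ HD ⊓ G := ⟨hv.2.2, hv.1⟩
  rw [f5 g hg v hv.1, f4 v hv', u4 v hv' hv.2.1,
    u4 _ (ld_conj ht hv') (u2.conj_mem' v hv.2.1 t), mul_zero, add_zero, mul_zero, add_zero]

theorem ld_res {k : Gam → F3} (hu : Kc 0 (Gq q) u) (hk : Kc 1 (Gq q) k) (h : lp q u k = 0) :
    FF.inv 1 HD (pl q) (fun g l => (u g * mu 1 g * k l : F3)) = 0 := by
  rw [FF.res (m := 1) op_HD le_top (e2_top (c2_lp hu hk))]
  exact mul_eq_zero_of_right _ h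

theorem ld_zero (hu : Kc 0 (Gq q) u) (h : ∀ k, Kc 1 (Gq q) k → lp q u k = 0) :
    ∀ g ∈ HD ⊓ Gq q, u g = 0 := by
  have hu' : Kc 0 (HD ⊓ Gq q) u := hu.mono inf_le_right
  obtain ⟨x, hx⟩ := (H3.ld FF 1 HD (pl q) F3 F3 (e4_a 0) (e4_a 1) H3.mu3 op_HD normal_HD
    (e4_dual 0 _)).2 u ((kc_iff (D := HD ⊓ Gq q) fun g hg => mu_HD hg.1 0).1 hu') fun k hk => by
      have hk' : Kc 1 (HD ⊓ Gq q) k :=
        (kc_iff (D := HD ⊓ Gq q) fun g hg => mu_HD hg.1 1).2 hk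
      refine (FF.congr (m := 1) (c' := fun g l => (u g * mu 1 g * k l : F3)) fun g hg l _ => by
        rw [mu_HD hg.1, mul_assoc]
        rfl).trans ?_
      by_cases h3 : Gq q ≤ HD
      · have b : Kc 1 (Gq q) k := hk'.mono fun g hg => ⟨h3 hg, hg⟩
        exact ld_res hu b (h k b)
      obtain ⟨t, ht, t2⟩ := SetLike.not_le_iff_exists.1 h3
      obtain ⟨C, c1, c2⟩ := ld_cor hk' ht t2
      have d1 : de t = -1 := (de_cases t).resolve_left t2
      have e1 : ∀ g ∈ HD ⊓ Gq q, u (t⁻¹ * g * t) = -u g := fun g hg => by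
        have a := hu.2 t ht _ (ld_conj ht hg).2
        rw [← mul_assoc, mul_inv_cancel_left, hu.2 g hg.2 t ht, mu_zero, mu_zero, d1,
          mem_HD.1 hg.1] at a
        linear_combination a
      have e2 : ∀ g, mu 1 (t⁻¹ * g * t) = mu 1 g := fun g => by
        rw [mu_mul, mu_mul, mul_right_comm, ← mu_mul, inv_mul_cancel, mu_one, one_mul]
      have e3 := FF.conj (m := 1) t op_HD normal_HD (c2_lp hu' hk')
      rw [show t • pl q = pl q from ht] at e3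
      have e4 : Kc 1 (HD ⊓ Gq q) fun g => mu 1 t * k (t⁻¹ * g * t) :=
        ((c1.mono inf_le_right).sub hk').congr fun g hg => by
          rw [Pi.sub_apply, c2 g hg, add_sub_cancel_left]
      have e5 := FF.add (m := 1) op_HD (c2_lp hu' hk') (c2_lp hu' e4)
      have e6 := ld_res hu c1 (h C c1)
      rw [FF.congr (m := 1) (c' := fun g l => (u g * mu 1 g * (mu 1 t * k (t⁻¹ * l * t)) : F3))
        fun g hg l _ => by
          change chi t * (u (t⁻¹ * g * t) * mu 1 (t⁻¹ * g * t) * k (t⁻¹ * l * t)) = _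
          rw [e1 g hg, e2, mu_succ 0 t, mu_zero, d1]
          ring] at e3
      rw [e3, FF.congr (m := 1) (c' := fun g l => (u g * mu 1 g * C l : F3)) fun g _ l hl => by
        simp only [Pi.add_apply, c2 l hl, mul_add], e6] at e5
      exact (by decide : ∀ x : F3, 0 = x + x → x = 0) _ e5
  intro g hg
  rw [hx g hg, H3.cob, e4_a_apply, pow_zero, one_mul, sub_self]

theorem ld (hu : Kc 0 (Gq q) u) (h : ∀ k, Kc 1 (Gq q) k → lp q u k = 0) : Cb true q u := by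
  have z := ld_zero hu h
  by_cases h3 : Gq q ≤ HD
  · exact ⟨0, fun g hg => by rw [z g ⟨h3 hg, hg⟩, zero_mul]⟩
  obtain ⟨t, ht, t2⟩ := SetLike.not_le_iff_exists.1 h3
  refine ⟨u t, fun g hg => ?_⟩
  rw [sd_true, mu_zero]
  by_cases a : g ∈ HD
  · rw [z g ⟨a, hg⟩, mem_HD.1 a, sub_self, mul_zero]
  · have b : t⁻¹ * g ∈ HD ⊓ Gq q :=
      ⟨mul_mem_HD (mt inv_mem_iff.1 t2) a, (Gq q).mul_mem ((Gq q).inv_mem ht) hg⟩
    rw [(de_cases g).resolve_left a, ← mul_inv_cancel_left t g, hu.2 t ht _ b.2, z _ b, mul_zero,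
      add_zero, show (-1 - 1 : F3) = 1 by decide, mul_one]

end Pool.Agent.Lib.MP_696deb_nt.CU.CV.CR
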