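import Pool.Agent.Lib.MP_696deb_nt.CR.A5
import Pool.Agent.Lib.MP_696deb_nt.CR.H3

/-! The parity theorem for a quadratic twist. -/

set_option autoImplicit false
set_option linter.unusedSectionVars false

open scoped Classical
open Finset Module

namespace Pool.Agent.Lib.MP_696deb_nt.CU.CV.CR

variable [δ : Qd] {n : ℕ} {d : ℤ} {r : Qbar}

theorem par_nf (N : Nf d r) (hn : n ≠ 0) :
    ∃ s : ℕ, (Even s ↔ Wq d n) ∧ ∀ e, Gro n e ↔ s ≤ e := by
  obtain ⟨h1, h2⟩ := lone N hn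
  obtain ⟨s, h3, h4⟩ := par hn h1
  refine ⟨s, ?_, h4⟩
  rw [← h2]
  simp only [Nat.even_iff] at h3 ⊢
  omega

end Pool.Agent.Lib.MP_696deb_nt.CU.CV.CR
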