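import Pool.Agent.Lib.MP_696deb_nt.CR.Ch
import Pool.Agent.Lib.MP_696deb_nt.CR.Pts
import Pool.Agent.Lib.MP_696deb_nt.CP.C3

/-! The local condition at three on the side one, if three is inert. -/

set_option autoImplicit false
set_option linter.unusedSectionVars false

open scoped Classical
open Finset Module

namespace Pool.Agent.Lib.MP_696deb_nt.CU.CV.CR

variable [δ : Qd] {n : ℕ} {d : ℤ} {r : Qbar}

theorem t3a_le {i : Qbar} {m : ℤ} (hi : i ^ 2 = m) (u v : ℤ) : (pl 3).V (u + v * i) ≤ 1 := by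
  have h : (pl 3).V i ≤ 1 := (pow_le_one_iff_of_nonneg zero_le two_ne_zero).1 (by
    rw [← map_pow, hi]
    exact (pl 3).V_int_le m)
  refine (pl 3).V.map_add_le ((pl 3).V_int_le u) ?_
  rw [map_mul]
  exact mul_le_one' ((pl 3).V_int_le v) h

theorem t3a_unit {i : Qbar} {m u v : ℤ} (hi : i ^ 2 = m) (hm : 3 ∣ m + 1)
    (h : ¬ (3 ∣ u ∧ 3 ∣ v)) : (pl 3).V (u + v * i) = 1 := by
  have h1 : ¬ 3 ∣ u ^ 2 - m * v ^ 2 := fun k => h (by
    have e : ∀ a b : ZMod 3, a ^ 2 + b ^ 2 = 0 → a = 0 ∧ b = 0 := by decide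
    have k1 : (3 : ℤ) ∣ u ^ 2 + v ^ 2 := by
      have := dvd_add k (hm.mul_right (v ^ 2))
      rwa [show u ^ 2 - m * v ^ 2 + (m + 1) * v ^ 2 = u ^ 2 + v ^ 2 by ring] at this
    have k2 := (ZMod.intCast_zmod_eq_zero_iff_dvd _ 3).2 k1
    push_cast at k2
    exact (e _ _ k2).imp (ZMod.intCast_zmod_eq_zero_iff_dvd _ 3).1
      (ZMod.intCast_zmod_eq_zero_iff_dvd _ 3).1)
  refine le_antisymm (t3a_le hi u v) (not_lt.1 fun l => ?_)
  have := mul_lt_one_of_lt_of_le l (t3a_le hi u (-v))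
  rw [← map_mul, ← CP.c0_unit h1] at this
  refine this.ne (congrArg _ ?_)
  push_cast
  linear_combination -(v : Qbar) ^ 2 * hi

theorem t3a_move {a c k : Qbar} (hc : (pl 3).V c ≤ 1) (hk : (pl 3).V k = 1)
    (h : a ^ 3 = c ^ 3 + 3 * k) : ∃ g ∈ Iq 3, g (a - c) ≠ a - c := by
  have h0 : (pl 3).V a ≤ 1 := (pow_le_one_iff_of_nonneg zero_le three_ne_zero).1 (by
    rw [← map_pow, h]
    refine (pl 3).V.map_add_le ?_ ?_
    · rw [map_pow]
      exact pow_le_one' hc 3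
    · rw [map_mul, hk, mul_one]
      exact CP.c0_three.le)
  have e : (a - c) ^ 3 = 3 * (k - (a - c) * (a * c)) := by linear_combination h
  have h1 : (pl 3).V (a * c) ≤ 1 := by
    rw [map_mul]
    exact mul_le_one' h0 hc
  have h2 : (pl 3).V (a - c) < 1 := (pow_lt_one_iff_of_nonneg zero_le three_ne_zero).1 (by
    rw [← map_pow, e, map_mul]
    refine mul_lt_one_of_lt_of_le CP.c0_three ((pl 3).V.map_sub_le hk.le ?_)
    rw [map_mul]
    exact mul_le_one' ((pl 3).V.map_sub_le h0 hc) h1)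
  have h3 : (pl 3).V (k - (a - c) * (a * c)) = 1 := by
    rw [← hk]
    refine (pl 3).V.map_sub_eq_of_lt_left ?_
    rw [hk, map_mul]
    exact mul_lt_one_of_lt_of_le h2 h1
  refine H3.exists_ine_ne (a := 3) (b := 1) three_ne_zero (by omega) ?_
  rw [← map_pow, e, map_mul, h3, mul_one, pow_one, CP.c0_p, Nat.cast_ofNat]

theorem t3a_core (N : Nf d r) {i : Qbar} {m : ℤ} (hi : i ^ 2 = m) (hm : 3 ∣ m + 1)
    (hd : ∀ g, de g = dr i g) (y u v k l : ℤ)
    (hN : 16 * ((n : ℤ) ^ 2 - m * y ^ 2) % 9 = 1 ∨ 16 * ((n : ℤ) ^ 2 - m * y ^ 2) % 9 = 8)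
    (h1 : 4 * (n : ℤ) = u ^ 3 + 3 * u * v ^ 2 * m + 3 * k)
    (h2 : 4 * y = 3 * u ^ 2 * v + v ^ 3 * m + 3 * l) (hk : ¬ (3 ∣ k ∧ 3 ∣ l)) :
    Has n false 3 1 := by
  obtain ⟨x, x1, x2⟩ := CP.cube3 hN
  obtain ⟨a, ha⟩ := IsAlgClosed.exists_pow_nat_eq (4 * (n + y * i) : Qbar) three_pos
  have x0 : x ^ 3 ≠ 0 := by
    rw [x2]
    exact Int.cast_ne_zero.2 (by omega)
  have x3 : x ^ 3 = a ^ 3 * (4 * (n - y * i)) := by
    rw [x2, ha]
    push_cast
    linear_combination 16 * (y : Qbar) ^ 2 * hi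
  have a3 : a ^ 3 ≠ 0 := left_ne_zero_of_mul (x3 ▸ x0)
  have a0 : a ≠ 0 := fun e => a3 (by rw [e, zero_pow three_ne_zero])
  have hb : (x / a) ^ 3 = 4 * (n - y * i) := by rw [div_pow, x3, mul_div_cancel_left₀ _ a3]
  have e0 : ∀ g, mu (1 + 1) g = 1 ↔ g i = i := fun g => by
    rw [show mu (1 + 1) = mu 0 from mu_add_two 0, mu_zero, hd, dr_eq_one]
  have x4 : x ≠ 0 := fun e => x0 (by rw [e, zero_pow three_ne_zero])
  obtain ⟨κ, k1, k2⟩ := rq_of (e := 1) (D := Gq 3) a0 (div_ne_zero x4 a0)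
    (fun g _ hg => by
      rw [ha, map_mul, map_add, map_mul, map_ofNat, map_natCast, map_intCast, (e0 g).1 hg])
    (fun g _ hg => by
      rw [ha, hb, map_mul, map_add, map_mul, map_ofNat, map_natCast, map_intCast,
        (sq_cases hi g).resolve_left (mt (e0 g).2 hg)]
      ring)
    (by rwa [mul_div_cancel₀ _ a0])
  refine has_one (pts k1 k2 a0 (z := 2) two_ne_zero (by
    rw [ha, hb]
    push_cast
    ring)) ?_
  rintro ⟨t, ht⟩
  obtain ⟨g, g1, g2⟩ := t3a_move (a := a * Kt.zt (-t)) (t3a_le hi u v) (t3a_unit hi hm hk) (by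
    have e1 := congrArg (Int.cast : ℤ → Qbar) h1
    have e2 := congrArg (Int.cast : ℤ → Qbar) h2
    push_cast at e1 e2
    rw [mul_pow, Kt.zt_cube, mul_one, ha]
    linear_combination e1 + i * e2 - (3 * u * v ^ 2 + v ^ 3 * i) * hi)
  have g3 := N.un_three g g1
  have g4 : g i = i := dr_eq_one.1 ((hd g).symm.trans g3)
  have g5 := B2.Ine_le _ g1
  refine g2 ?_
  rw [map_sub, map_add, map_mul, map_mul, map_intCast, map_intCast, g4,
    (k2 g g5).1 ((e0 g).2 g4) |>.1, Kt.smul_zt, ht g g5, sd_false, mu, g3, mul_right_comm,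
    ← Kt.zt_add, mul_comm _ a]
  congr 3
  show t * (1 * chi g ^ 1 - 1) + chi g * -t = -t
  ring

theorem eta_one (N : Nf d r) (h : d % 3 ≠ 1)
    (hn : n % 9 = 1 ∨ n % 9 = 8 ∨ n % 9 = 2 ∨ n % 9 = 7 ∨ n % 9 = 3 ∨ n % 9 = 6) :
    Has n false 3 1 := by
  obtain ⟨i, m, hi, ⟨t, ht⟩, hd, -⟩ := N.eta h
  obtain rfl : m = 27 * t - 1 := by omega
  obtain ⟨s, hs⟩ : ∃ s : ℤ, (n : ℤ) = 9 * s + (n % 9 : ℕ) := ⟨n / 9, by omega⟩
  have c := t3a_core (n := n) N hi (by omega) hd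
  rcases hn with e | e | e | e | e | e <;> rw [e] at hs <;> push_cast at hs
  · exact c 2 1 1 (12 * s + 2 - 27 * t) (2 - 9 * t) (by rw [hs]; ring_nf; omega)
      (by rw [hs]; ring) (by ring) (by omega)
  · exact c 2 (-1) 1 (12 * s + 10 + 27 * t) (2 - 9 * t) (by rw [hs]; ring_nf; omega)
      (by rw [hs]; ring) (by ring) (by omega)
  · exact c 3 2 0 (12 * s) 4 (by rw [hs]; ring_nf; omega) (by rw [hs]; ring) (by ring) (by omega)
  · exact c 3 1 0 (12 * s + 9) 4 (by rw [hs]; ring_nf; omega) (by rw [hs]; ring) (by ring)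
      (by omega)
  · exact c 2 0 1 (12 * s + 4) (3 - 9 * t) (by rw [hs]; ring_nf; omega) (by rw [hs]; ring)
      (by ring) (by omega)
  · exact c 2 0 1 (12 * s + 8) (3 - 9 * t) (by rw [hs]; ring_nf; omega) (by rw [hs]; ring)
      (by ring) (by omega)

end Pool.Agent.Lib.MP_696deb_nt.CU.CV.CR
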